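import Pool.Agent.Helper470.Dim.World

set_option autoImplicit false

namespace Pool.Agent.Helper470.Dim

/-- the ternary operation `x - u + y` of an `(n+1)`-ary sum -/
def p3 {A : Type} {n : ℕ} (S : (Fin (n + 1) → A) → A) (x u y : A) : A :=
  S (fun j => if j = 0 then x else if j = Fin.last n then y else u)

section

variable {A : Type} {n : ℕ}

theorem sum_split {A : Type} [AddCommGroup A] {n : ℕ} (f : Fin (n+1) → A) (i : Fin (n+1)) (x : A) :
    ∑ j, Function.update f i x j = ∑ j, f j - f i + x := by
  classical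
  rw [Finset.sum_update_of_mem (Finset.mem_univ i)]
  rw [← Finset.add_sum_erase Finset.univ f (Finset.mem_univ i), Finset.sdiff_singleton_eq_erase]
  abel

theorem p3_eq [G : AddCommGroup A] (hn : 2 ≤ n) (hG : ∀ x : A, n • x = 0)
    {S : (Fin (n + 1) → A) → A} (hS : ∀ a, S a = ∑ i, a i) (x u y : A) :
    p3 S x u y = x - u + y := by
  unfold p3
  have h0 : (0 : Fin (n+1)) ≠ Fin.last n := by
    intro h
    have := congrArg Fin.val h
    simp at this
    omega
  have h1 : (fun j : Fin (n+1) => if j = 0 then x else if j = Fin.last n then y else u) =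
      Function.update (Function.update (fun _ : Fin (n+1) => u) (Fin.last n) y) 0 x := by
    funext j
    by_cases hj : j = 0
    · subst hj; simp
    · by_cases hj' : j = Fin.last n
      · subst hj'; simp [h0.symm]
      · simp [hj, hj']
  rw [h1, hS, sum_split, sum_split]
  simp only [Finset.sum_const, Finset.card_univ, Fintype.card_fin, Function.update_of_ne h0]
  rw [succ_nsmul, hG]
  abel

variable {S : (Fin (n + 1) → A) → A}

theorem IsAff.perm (h : IsAff n S) (τ : Equiv.Perm (Fin (n+1))) (a : Fin (n+1) → A) :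
    S (fun j => a (τ j)) = S a := by
  obtain ⟨G, hG, hS⟩ := h
  rw [hS, hS]
  exact Equiv.sum_comp τ a

theorem IsAff.single (h : IsAff n S) (i : Fin (n+1)) (x v : A) :
    S (fun j => if j = i then x else v) = x := by
  obtain ⟨G, hG, hS⟩ := h
  have h1 : (fun j : Fin (n+1) => if j = i then x else v) =
      Function.update (fun _ : Fin (n+1) => v) i x := by
    funext j
    by_cases hj : j = i
    · subst hj; simp
    · simp [hj]
  rw [h1, hS, sum_split]
  simp only [Finset.sum_const, Finset.card_univ, Fintype.card_fin]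
  rw [succ_nsmul, hG]
  abel

theorem IsAff.const (h : IsAff n S) (v : A) : S (fun _ => v) = v := by
  have := h.single 0 v v
  simpa using this

theorem IsAff.p3_self (h : IsAff n S) (hn : 2 ≤ n) (x y : A) : p3 S x y y = x := by
  obtain ⟨G, hG, hS⟩ := h
  rw [p3_eq hn hG hS]; abel

theorem IsAff.p3_self' (h : IsAff n S) (hn : 2 ≤ n) (x y : A) : p3 S x x y = y := by
  obtain ⟨G, hG, hS⟩ := h
  rw [p3_eq hn hG hS]; abel

/-- transfer -/
theorem IsAff.transfer (h : IsAff n S) (hn : 2 ≤ n) (x : Fin (n+1) → A) {i j : Fin (n+1)}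
    (hij : i ≠ j) (u : A) :
    S (Function.update (Function.update x i (p3 S (x i) u (x j))) j u) = S x := by
  obtain ⟨G, hG, hS⟩ := h
  rw [hS, hS, sum_split, sum_split, p3_eq hn hG hS]
  rw [Function.update_of_ne hij.symm]
  abel

theorem IsAff.replace (h : IsAff n S) (hn : 2 ≤ n) (x : Fin (n+1) → A) (j : Fin (n+1))
    (u : A) :
    p3 S (S (Function.update x j u)) u (x j) = S x := by
  obtain ⟨G, hG, hS⟩ := h
  rw [p3_eq hn hG hS, hS, hS, sum_split]
  abel

theorem IsAff.assoc (h : IsAff n S) (hn : 2 ≤ n) (x : Fin (n+1) → A) (j : Fin (n+1))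
    (u v : A) :
    p3 S (S x) u v = S (Function.update x j (p3 S (x j) u v)) := by
  obtain ⟨G, hG, hS⟩ := h
  rw [p3_eq hn hG hS, p3_eq hn hG hS, hS, hS, sum_split]
  abel

theorem IsAff.cancel (h : IsAff n S) (x y : A) (a : Fin (n+1) → A) (j : Fin (n+1))
    (hxy : S (Function.update a j x) = S (Function.update a j y)) : x = y := by
  obtain ⟨G, hG, hS⟩ := h
  rw [hS, hS, sum_split, sum_split] at hxy
  exact add_left_cancel hxy

end

end Pool.Agent.Helper470.Dim
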