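import Pool.Agent.Helper470.Dim.Trans
import Pool.Agent.Helper470.Dim.Aff

set_option autoImplicit false

namespace Pool.Agent.Helper470.Dim

open Classical

namespace Layered

variable {F : Type} {n : ℕ} (L : Layered F n)

noncomputable def asg (a : Fin (n+1) → F) : ℕ → F :=
  fun j => if h : j < n + 1 then a ⟨j, h⟩ else L.var j

noncomputable def sg (a : Fin (n+1) → F) : F → F := L.sub (L.asg a)

theorem asg_fin (a : Fin (n+1) → F) (j : Fin (n+1)) : L.asg a j = a j := by
  unfold asg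
  rw [dif_pos j.2]

theorem asg_big (a : Fin (n+1) → F) {k : ℕ} (hk : n + 1 ≤ k) : L.asg a k = L.var k := by
  have : ¬ k < n + 1 := by omega
  simp only [asg, this, dif_neg, not_false_eq_true]

theorem sg_end (a : Fin (n+1) → F) : L.End (L.sg a) := L.sub_end _

@[simp] theorem sg_var (a : Fin (n+1) → F) (j : Fin (n+1)) : L.sg a (L.var j) = a j := by
  simp [sg, asg_fin]

theorem sg_big (a : Fin (n+1) → F) {k : ℕ} (hk : n + 1 ≤ k) : L.sg a (L.var k) = L.var k := by
  simp [sg, L.asg_big a hk]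

theorem fin_or (k : ℕ) : (∃ j : Fin (n+1), k = j) ∨ n + 1 ≤ k := by
  by_cases h : k < n + 1
  · exact Or.inl ⟨⟨k, h⟩, rfl⟩
  · exact Or.inr (by omega)

theorem occ_sg {k : ℕ} {a : Fin (n+1) → F} {s : F} (h : L.occ k (L.sg a s)) :
    (n + 1 ≤ k ∧ L.occ k s) ∨ ∃ j : Fin (n+1), L.occ j s ∧ L.occ k (a j) := by
  obtain ⟨l, h1, h2⟩ := L.occ_end (L.sg_end a) h
  rcases fin_or (n := n) l with ⟨j, rfl⟩ | hl
  · rw [L.sg_var] at h2; exact Or.inr ⟨j, h1, h2⟩
  · rw [L.sg_big a hl, L.occ_var] at h2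
    subst h2; exact Or.inl ⟨hl, h1⟩

/-- homs agreeing on the variables of `s` -/
theorem End.congr' {L : Layered F n} {φ ψ : F → F} (h : L.End φ) (h' : L.End ψ) (s : F)
    (h1 : ∀ j : Fin (n+1), L.occ j s → φ (L.var j) = ψ (L.var j))
    (h2 : ∀ k, n + 1 ≤ k → L.occ k s → φ (L.var k) = ψ (L.var k)) : φ s = ψ s := by
  refine h.congr h' s ?_
  intro k hk
  rcases fin_or (n := n) k with ⟨j, rfl⟩ | hl
  · exact h1 j hk
  · exact h2 k hl hk

theorem PH.congr' {L : Layered F n} {σ : Bool → Equiv.Perm F} {φ ψ : F → F} (h : L.PH σ φ)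
    (h' : L.PH σ ψ) (s : F)
    (h1 : ∀ j : Fin (n+1), L.occ j s → φ (L.var j) = ψ (L.var j))
    (h2 : ∀ k, n + 1 ≤ k → L.occ k s → φ (L.var k) = ψ (L.var k)) : φ s = ψ s := by
  refine h.congr h' s ?_
  intro k hk
  rcases fin_or (n := n) k with ⟨j, rfl⟩ | hl
  · exact h1 j hk
  · exact h2 k hl hk

/-- renaming of variables -/
noncomputable def ren (τ : Equiv.Perm ℕ) : F → F := L.sub (fun j => L.var (τ j))

theorem ren_end (τ : Equiv.Perm ℕ) : L.End (L.ren τ) := L.sub_end _

@[simp] theorem ren_var (τ : Equiv.Perm ℕ) (j : ℕ) : L.ren τ (L.var j) = L.var (τ j) := by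
  simp [ren]

theorem ren_symm (τ : Equiv.Perm ℕ) (a : F) : L.ren τ.symm (L.ren τ a) = a := by
  refine ((L.ren_end _).comp (L.ren_end _)).congr L.end_id a ?_
  intro j _; simp

theorem ren_symm' (τ : Equiv.Perm ℕ) (a : F) : L.ren τ (L.ren τ.symm a) = a := by
  refine ((L.ren_end _).comp (L.ren_end _)).congr L.end_id a ?_
  intro j _; simp

theorem ren_inj (τ : Equiv.Perm ℕ) : Function.Injective (L.ren τ) := by
  intro a b h
  rw [← L.ren_symm τ a, h, L.ren_symm]

theorem ren_struct (τ : Equiv.Perm ℕ) (a : F) : ∀ i, a ∉ (L.W i).G →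
    L.ren τ a ∉ (L.W i).G ∧ (L.W i).supp (L.ren τ a) = L.ren τ '' (L.W i).supp a := by
  induction a using L.induct with
  | _ a ih =>
  intro i hi
  have hG : ∀ r ∈ (L.W i).supp a, L.ren τ r ∈ (L.W i).G := by
    intro r hr
    have hp := (L.prec_iff hi).2 hr
    rcases L.cases_layer' i r with ⟨j, rfl⟩ | h | h
    · simp [L.var_mem]
    · exact absurd ((L.W i).sub a hr) h
    · have := L.mem_other (ih r hp (!i) h).1
      simpa using this
  obtain ⟨h1, h2⟩ := (L.W i).supp_map (L.ren_end τ i) (L.ren_inj τ).injOn hG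
  exact ⟨fun h => hi (h2 h), h1⟩

theorem ren_mem (τ : Equiv.Perm ℕ) (a : F) (i : Bool) :
    L.ren τ a ∈ (L.W i).G ↔ a ∈ (L.W i).G := by
  constructor
  · intro h
    by_contra hc
    exact (L.ren_struct τ a i hc).1 h
  · intro h
    rcases L.cases_layer' i a with ⟨j, rfl⟩ | h' | h'
    · simp [L.var_mem]
    · exact absurd h h'
    · have := L.mem_other (L.ren_struct τ a _ h').1
      simpa using this

theorem ren_prec (τ : Equiv.Perm ℕ) {r a : F} (h : L.prec r a) :
    L.prec (L.ren τ r) (L.ren τ a) := by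
  obtain ⟨i, hi, hr⟩ := h
  obtain ⟨h1, h2⟩ := L.ren_struct τ a i hi
  exact ⟨i, h1, by rw [h2]; exact ⟨r, hr, rfl⟩⟩

theorem ren_le (τ : Equiv.Perm ℕ) {r a : F} (h : L.le r a) :
    L.le (L.ren τ r) (L.ren τ a) := by
  induction h with
  | refl => exact L.le_refl _
  | tail _ h2 ih => exact L.le_trans ih (L.le_of_prec (L.ren_prec τ h2))

theorem ren_lt (τ : Equiv.Perm ℕ) {r a : F} (h : L.lt r a) :
    L.lt (L.ren τ r) (L.ren τ a) := by
  induction h with
  | single h => exact L.lt_of_prec (L.ren_prec τ h)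
  | tail _ h2 ih => exact L.lt_trans ih (L.lt_of_prec (L.ren_prec τ h2))

theorem ren_occ (τ : Equiv.Perm ℕ) {j : ℕ} {a : F} : L.occ (τ j) (L.ren τ a) ↔ L.occ j a := by
  constructor
  · intro h
    have := L.ren_le τ.symm h
    rw [L.ren_var, L.ren_symm] at this
    simpa [occ] using this
  · intro h
    have := L.ren_le τ h
    rwa [L.ren_var] at this

end Layered

open Layered

/-- the element `P` computing the sum in all conjugated algebras -/
structure Ctx {F : Type} {n : ℕ} (L : Layered F n) where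
  P : F
  i : Bool
  hn : 2 ≤ n
  hPi : P ∉ (L.W i).G
  S : (Bool → Equiv.Perm F) → F → (Fin (n + 1) → F) → F
  aff : ∀ σ β, IsAff n (S σ β)
  hS : ∀ σ ψ, L.PH σ ψ → ψ P = S σ (ψ (L.var (n+1))) (fun j => ψ (L.var j))

namespace Ctx

variable {F : Type} {n : ℕ} {L : Layered F n} (c : Ctx L)

def o1 {F : Type} : Bool → Equiv.Perm F := fun _ => 1

def op (σ : Bool → Equiv.Perm F) : (Fin (n+1) → F) → F := c.S σ (L.var (n+1))

theorem op_aff (σ : Bool → Equiv.Perm F) : IsAff n (c.op σ) := c.aff _ _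

theorem ph_P {σ : Bool → Equiv.Perm F} {ψ : F → F} (h : L.PH σ ψ)
    (hb : ψ (L.var (n+1)) = L.var (n+1)) : ψ c.P = c.op σ (fun j => ψ (L.var j)) := by
  rw [c.hS σ ψ h, hb]; rfl

theorem end_P {φ : F → F} (h : L.End φ)
    (hb : φ (L.var (n+1)) = L.var (n+1)) : φ c.P = c.op o1 (fun j => φ (L.var j)) :=
  c.ph_P (σ := o1) (ψ := φ) h hb

theorem sg_P (a : Fin (n+1) → F) : L.sg a c.P = c.op o1 a := by
  rw [c.end_P (L.sg_end a) (L.sg_big a (le_refl _))]
  simp

theorem P_eq : c.P = c.op o1 (fun j => L.var j) :=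
  c.end_P (φ := fun x => x) L.end_id rfl

theorem ph_op {σ : Bool → Equiv.Perm F} {ψ : F → F} (h : L.PH σ ψ)
    (hb : ψ (L.var (n+1)) = L.var (n+1)) (a : Fin (n+1) → F) :
    ψ (c.op o1 a) = c.op σ (fun j => ψ (a j)) := by
  rw [← c.sg_P a]
  have := c.ph_P (σ := σ) (ψ := fun x => ψ (L.sg a x)) (h.comp (L.sg_end a))
    (by simp [L.sg_big a (le_refl _), hb])
  rw [this]
  simp

theorem end_op {φ : F → F} (h : L.End φ)
    (hb : φ (L.var (n+1)) = L.var (n+1)) (a : Fin (n+1) → F) :
    φ (c.op o1 a) = c.op o1 (fun j => φ (a j)) := c.ph_op (σ := o1) h hb a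

theorem ph_p3 {σ : Bool → Equiv.Perm F} {ψ : F → F} (h : L.PH σ ψ)
    (hb : ψ (L.var (n+1)) = L.var (n+1)) (x u y : F) :
    ψ (p3 (c.op o1) x u y) = p3 (c.op σ) (ψ x) (ψ u) (ψ y) := by
  unfold p3
  rw [c.ph_op h hb]
  congr 1
  funext j
  split_ifs <;> rfl

theorem end_p3 {φ : F → F} (h : L.End φ)
    (hb : φ (L.var (n+1)) = L.var (n+1)) (x u y : F) :
    φ (p3 (c.op o1) x u y) = p3 (c.op o1) (φ x) (φ u) (φ y) := c.ph_p3 (σ := o1) h hb x u y

theorem occP_le {j : ℕ} (h : L.occ j c.P) : j ≤ n + 1 := by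
  let φ := L.sub (fun j => if j ≤ n + 1 then L.var j else L.var (n+1))
  have hφ : L.End φ := L.sub_end _
  have h1 : φ c.P = c.P := by
    rw [c.end_P hφ (by simp [φ])]
    conv_rhs => rw [c.P_eq]
    congr 1
    funext j
    have : (j : ℕ) ≤ n + 1 := by have := j.2; omega
    simp [φ, this]
  rw [← h1] at h
  obtain ⟨l, h2, h3⟩ := L.occ_end hφ h
  by_cases hl : l ≤ n + 1
  · have : φ (L.var l) = L.var l := by simp [φ, hl]
    rw [this, L.occ_var] at h3
    omega
  · have : φ (L.var l) = L.var (n+1) := by simp [φ, hl]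
    rw [this, L.occ_var] at h3
    omega

theorem occP (j : Fin (n+1)) : L.occ j c.P := by
  by_contra hj
  have h1 : L.sg (fun l => if l = j then L.var (n+2) else L.var (n+3)) c.P =
      L.sg (fun _ => L.var (n+3)) c.P := by
    refine (L.sg_end _).congr' (L.sg_end _) _ ?_ ?_
    · intro l hl
      have : l ≠ j := by rintro rfl; exact hj hl
      simp [this]
    · intro k hk _
      rw [L.sg_big _ hk, L.sg_big _ hk]
  rw [c.sg_P, c.sg_P, (c.op_aff o1).single, (c.op_aff o1).const] at h1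
  have := L.inj h1
  omega

theorem occ_of_leP {e : F} (he : L.le e c.P) {j : ℕ} (h : L.occ j e) : j ≤ n + 1 :=
  c.occP_le (L.occ_le h he)

theorem free_of_leP {e : F} (he : L.le e c.P) {j : ℕ} (h : n + 1 < j) : ¬ L.occ j e :=
  fun h' => by have := c.occ_of_leP he h'; omega

theorem op_free {a : Fin (n+1) → F} {k : ℕ} (hk : k ≠ n + 1) (h : ∀ j, ¬ L.occ k (a j)) :
    ¬ L.occ k (c.op o1 a) := by
  rw [← c.sg_P a]
  intro ho
  rcases L.occ_sg ho with ⟨h1, h2⟩ | ⟨j, _, h2⟩
  · have := c.occP_le h2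
    omega
  · exact h j h2

theorem p3_free {x u y : F} {k : ℕ} (hk : k ≠ n + 1) (hx : ¬ L.occ k x) (hu : ¬ L.occ k u)
    (hy : ¬ L.occ k y) : ¬ L.occ k (p3 (c.op o1) x u y) := by
  unfold p3
  refine c.op_free hk ?_
  intro j
  split_ifs <;> assumption

/-- the tuple of a transfer -/
noncomputable def trv (i j : Fin (n+1)) : Fin (n+1) → F :=
  Function.update (Function.update (fun l : Fin (n+1) => L.var l) i
    (p3 (c.op o1) (L.var i) (L.var (n+2)) (L.var j))) j (L.var (n+2))

theorem op_trv {i j : Fin (n+1)} (hij : i ≠ j) : c.op o1 (c.trv i j) = c.P := by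
  unfold trv
  rw [(c.op_aff o1).transfer c.hn (fun l : Fin (n+1) => L.var l) hij, ← c.P_eq]

theorem trv_free {i j : Fin (n+1)} {k : ℕ} (hk : n + 2 < k) (l : Fin (n+1)) :
    ¬ L.occ k (c.trv i j l) := by
  have hv : ∀ m : ℕ, m ≤ n + 2 → ¬ L.occ k (L.var m) := by
    intro m hm
    rw [L.occ_var]; omega
  unfold trv
  by_cases h1 : l = j
  · subst h1; rw [Function.update_self]; exact hv _ (le_refl _)
  · rw [Function.update_of_ne h1]
    by_cases h2 : l = i
    · subst h2; rw [Function.update_self]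
      exact c.p3_free (by omega) (hv _ (by have := l.2; omega)) (hv _ (le_refl _))
        (hv _ (by have := j.2; omega))
    · rw [Function.update_of_ne h2]; exact hv _ (by have := l.2; omega)

/-- undoing a transfer -/
theorem undo {i j : Fin (n+1)} (hij : i ≠ j) {s : F} (hs : ¬ L.occ (n+2) s) :
    L.sub (Function.update L.var (n+2) (L.var j)) (L.sg (c.trv i j) s) = s := by
  set δ := L.sub (Function.update L.var (n+2) (L.var j)) with hδ
  have hδe : L.End δ := L.sub_end _
  have hδv : ∀ k, k ≠ n + 2 → δ (L.var k) = L.var k := by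
    intro k hk; simp [hδ, hk]
  have hδu : δ (L.var (n+2)) = L.var j := by simp [hδ]
  have hlt : ∀ l : Fin (n+1), (l : ℕ) ≠ n + 2 := fun l => by have := l.2; omega
  refine (hδe.comp (L.sg_end _)).congr' L.end_id s ?_ ?_
  · intro l _
    show δ (L.sg (c.trv i j) (L.var l)) = L.var l
    rw [L.sg_var]
    unfold trv
    by_cases h1 : l = j
    · subst h1; rw [Function.update_self, hδu]
    · rw [Function.update_of_ne h1]
      by_cases h2 : l = i
      · subst h2
        rw [Function.update_self, c.end_p3 hδe (hδv _ (by omega)), hδv _ (hlt _), hδu,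
          hδv _ (hlt _)]
        exact (c.op_aff o1).p3_self c.hn _ _
      · rw [Function.update_of_ne h2, hδv _ (hlt _)]
  · intro k hk hok
    show δ (L.sg (c.trv i j) (L.var k)) = L.var k
    rw [L.sg_big _ hk, hδv]
    rintro rfl; exact hs hok

include c in
theorem sg_free {a : Fin (n+1) → F} {k : ℕ} {s : F} (hs : ¬ L.occ k s)
    (ha : ∀ j, ¬ L.occ k (a j)) : ¬ L.occ k (L.sg a s) := by
  intro h
  rcases L.occ_sg h with ⟨_, h2⟩ | ⟨j, _, h2⟩
  · exact hs h2
  · exact ha j h2

/-- effect of `theta` on the transfer identity -/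
theorem theta_P_trv {i : Bool} {e : F} {b : ℕ} {i' j' : Fin (n+1)} (hij : i' ≠ j')
    (hp : L.theta i e b (p3 (c.op o1) (L.var i') (L.var (n+2)) (L.var j')) =
      p3 (c.op o1) (L.var i') (L.var (n+2)) (L.var j')) :
    L.theta i e b c.P = L.psub (L.Sg i e b) (L.asg (c.trv i' j')) c.P := by
  have h1 : L.theta i e b c.P = c.op (L.Sg i e b) (c.trv i' j') := by
    conv_lhs => rw [← c.op_trv hij]
    rw [c.ph_op (L.theta_ph i e b) (L.theta_var _ _ _ _)]
    congr 1
    funext l
    unfold trv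
    by_cases h1 : l = j'
    · subst h1; simp
    · rw [Function.update_of_ne h1]
      by_cases h2 : l = i'
      · subst h2; rw [Function.update_self, hp]
      · rw [Function.update_of_ne h2, L.theta_var]
  rw [h1, c.ph_P (L.psub_ph _ _) (by rw [L.psub_var, L.asg_big _ (le_refl _)])]
  congr 1
  funext l
  rw [L.psub_var, L.asg_fin]

theorem not_le_p3 {e : F} {i' j' m : Fin (n+1)} (hm : m ≠ i') (hm' : m ≠ j')
    (ho : L.occ m e) : ¬ L.le e (p3 (c.op o1) (L.var i') (L.var (n+2)) (L.var j')) := by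
  intro h
  have h1 := L.occ_le ho h
  refine c.p3_free (k := m) (by have := m.2; omega) ?_ ?_ ?_ h1
  · rw [L.occ_var]; intro h; exact hm (Fin.ext h)
  · rw [L.occ_var]; have := m.2; omega
  · rw [L.occ_var]; intro h; exact hm' (Fin.ext h)

/-- (K1) -/
theorem K1 {e : F} (he : L.le e c.P) (hev : ∀ j, L.var j ≠ e) {i' j' m : Fin (n+1)}
    (hij : i' ≠ j') (hm : m ≠ i') (hm' : m ≠ j') (ho : L.occ m e) :
    L.sg (c.trv i' j') e = e := by
  by_cases heP : c.P = e
  · rw [← heP, c.sg_P, c.op_trv hij]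
  by_contra hne
  have heb : ¬ L.occ (n+4) e := c.free_of_leP he (by omega)
  have hPb : ¬ L.occ (n+4) c.P := c.free_of_leP (L.le_refl _) (by omega)
  have hp3b : ¬ L.occ (n+4) (p3 (c.op o1) (L.var i') (L.var (n+2)) (L.var j')) := by
    refine c.p3_free (by omega) ?_ ?_ ?_ <;> rw [L.occ_var]
    · have := i'.2; omega
    · omega
    · have := j'.2; omega
  have h1 := c.theta_P_trv (i := c.i) (e := e) (b := n+4) hij
    (L.theta_of_not_le hp3b (c.not_le_p3 hm hm' ho))
  have h2 : L.psub (L.Sg c.i e (n+4)) (L.asg (c.trv i' j')) c.P = L.sg (c.trv i' j') c.P := by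
    refine L.no_change (L.sg_end _) (L.psub_ph _ _) c.P ?_ ?_
    · intro j _; rw [L.psub_var]; simp [sg]
    · intro s hs
      constructor
      · intro h
        have h3 := c.undo hij (s := s) (c.free_of_leP hs (by omega))
        rw [h] at h3
        have h4 : L.sub (Function.update L.var (n+2) (L.var j')) e = e := by
          refine L.sub_id' (L.sub_end _) e ?_
          intro j hj
          have : j ≠ n + 2 := by
            rintro rfl; exact c.free_of_leP he (by omega) hj
          simp [this]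
        rw [h4] at h3
        rw [← h3] at h
        exact hne h
      · intro h
        have h3 : L.occ (n+4) (L.sg (c.trv i' j') s) := by rw [h]; exact L.le_refl _
        exact c.sg_free (c.free_of_leP hs (by omega)) (fun l => c.trv_free (by omega) l) h3
  rw [h2, c.sg_P, c.op_trv hij] at h1
  have h3 := L.occ_theta (i := c.i) heb hev hPb he (Or.inl heP)
  rw [h1] at h3
  exact hPb h3

end Ctx

end Pool.Agent.Helper470.Dim
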