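import Pool.Agent.Helper470.Dim.Core1

set_option autoImplicit false

namespace Pool.Agent.Helper470.Dim

open Classical

namespace Layered

variable {F : Type} {n : ℕ} (L : Layered F n)

/-- `k(w)` -/
noncomputable def un (w : F) : F → F := L.sub (Function.update L.var 0 w)

theorem un_end (w : F) : L.End (L.un w) := L.sub_end _

@[simp] theorem un_var0 (w : F) : L.un w (L.var 0) = w := by simp [un]

theorem un_var (w : F) {j : ℕ} (hj : j ≠ 0) : L.un w (L.var j) = L.var j := by
  simp [un, hj]

/-- unary elements -/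
def Un (k : F) : Prop := (∀ j, L.occ j k → j = 0 ∨ j = n + 1) ∧ L.occ 0 k

theorem un_id (k : F) : L.un (L.var 0) k = k := by
  refine L.sub_id' (L.un_end _) k ?_
  intro j _
  by_cases h : j = 0
  · subst h; simp
  · rw [L.un_var _ h]

/-- endomorphisms fixing the parameter commute with forming `k(w)` -/
theorem end_un {φ : F → F} (h : L.End φ) (hb : φ (L.var (n+1)) = L.var (n+1)) {k : F}
    (hk : L.Un k) (w : F) : φ (L.un w k) = L.un (φ w) k := by
  refine (h.comp (L.un_end _)).congr (L.un_end _) k ?_
  intro j hj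
  rcases hk.1 j hj with rfl | rfl
  · simp
  · show φ (L.un w (L.var (n+1))) = _
    rw [L.un_var _ (by omega), L.un_var _ (by omega), hb]

theorem end_eq_un {φ : F → F} (h : L.End φ) (hb : φ (L.var (n+1)) = L.var (n+1)) {k : F}
    (hk : L.Un k) : φ k = L.un (φ (L.var 0)) k := by
  have := L.end_un h hb hk (L.var 0)
  rwa [L.un_id] at this

theorem un_occ {k w : F} (hk : L.Un k) {j : ℕ} (h : L.occ j (L.un w k)) :
    L.occ j w ∨ j = n + 1 := by
  obtain ⟨l, h1, h2⟩ := L.occ_end (L.un_end w) h
  rcases hk.1 l h1 with rfl | rfl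
  · left; simpa using h2
  · right
    rw [L.un_var _ (by omega), L.occ_var] at h2
    exact h2

/-- if a specialisation fixing the parameter sends `w` to the variable `var j`,
and no other variable hits `j`, then `j` occurs in `k(w)` -/
theorem occ_un_of_spec {k w : F} (hk : L.Un k) {φ : F → F} (h : L.End φ)
    (hb : φ (L.var (n+1)) = L.var (n+1)) {j : ℕ} (hj : j ≠ n + 1) (hw : φ w = L.var j)
    (hφ : ∀ l, l ≠ j → ¬ L.occ j (φ (L.var l))) : L.occ j (L.un w k) := by
  have h1 : φ (L.un w k) = L.un (L.var j) k := by rw [L.end_un h hb hk, hw]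
  have h2 : L.occ j (L.un (L.var j) k) := by
    by_cases hj0 : j = 0
    · subst hj0; rw [L.un_id]; exact hk.2
    · have h3 : L.un (L.var j) k = L.ren (Equiv.swap 0 j) k := by
        refine (L.un_end _).congr (L.ren_end _) k ?_
        intro l hl
        rcases hk.1 l hl with rfl | rfl
        · simp
        · rw [L.un_var _ (by omega), L.ren_var, Equiv.swap_apply_of_ne_of_ne (by omega) hj.symm]
      rw [h3]
      have := (L.ren_occ (Equiv.swap 0 j) (j := 0) (a := k)).2 hk.2
      simpa using this
  rw [← h1] at h2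
  obtain ⟨l, h3, h4⟩ := L.occ_end h h2
  by_cases hl : l = j
  · subst hl; exact h3
  · exact absurd h4 (hφ l hl)

/-- variables of `theta` -/
theorem occ_theta_le {i : Bool} {e : F} {b : ℕ} (he : ¬ L.occ b e) {j : ℕ} {a : F}
    (ha : ¬ L.occ b a) (ho : L.occ j (L.theta i e b a)) : L.occ j a ∨ j = b := by
  induction a using L.induct with
  | _ a ih =>
  rcases L.cases_layer' i a with ⟨l, rfl⟩ | hi | hi
  · left; simpa using ho
  · by_cases hae : a = e
    · subst hae
      rw [L.theta_e_out he hi, L.occ_var] at ho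
      exact Or.inr ho
    · obtain ⟨h1, h2⟩ := (L.theta_struct (i := i) he ha).2 hi hae
      obtain ⟨r', hr', hor⟩ := (L.occ_iff i j _).1 ho
      rw [h2] at hr'
      obtain ⟨r, hr, rfl⟩ := hr'
      have hp := (L.prec_iff hi).2 hr
      have hrb := L.free_of_prec ha hp
      by_cases hre : r = e
      · subst hre
        simp only [L.theta_e_in he ((L.W i).sub _ hr), Equiv.swap_apply_left, L.occ_var] at hor
        exact Or.inr hor
      · simp only [L.theta_swap_of_ne he hrb hre] at hor
        rcases ih r hp hrb hor with h | h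
        · exact Or.inl (L.occ_le h (L.le_of_prec hp))
        · exact Or.inr h
  · obtain ⟨h1, h2⟩ := (L.theta_struct (i := i) he ha).1 hi
    obtain ⟨r', hr', hor⟩ := (L.occ_iff (!i) j _).1 ho
    rw [h2] at hr'
    obtain ⟨r, hr, rfl⟩ := hr'
    have hp := (L.prec_iff hi).2 hr
    have hrb := L.free_of_prec ha hp
    rcases ih r hp hrb hor with h | h
    · exact Or.inl (L.occ_le h (L.le_of_prec hp))
    · exact Or.inr h

/-- `theta` commutes with renamings fixing `e` and `b` -/
theorem theta_ren {i : Bool} {e : F} {b : ℕ} {τ : Equiv.Perm ℕ} (hτe : L.ren τ e = e)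
    (hτb : τ b = b) (a : F) : L.theta i e b (L.ren τ a) = L.ren τ (L.theta i e b a) := by
  have h2 : L.PH (L.Sg i e b) (fun x => L.ren τ (L.theta i e b x)) := by
    intro k
    by_cases hk : k = i
    · subst hk
      have hsw : ∀ y, Equiv.swap e (L.var b) (L.ren τ y) =
          L.ren τ (Equiv.swap e (L.var b) y) := by
        intro y
        rw [Equiv.swap_apply_def, Equiv.swap_apply_def]
        have e1 : L.ren τ y = e ↔ y = e := by
          constructor
          · intro h; exact L.ren_inj τ (by rw [h, hτe])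
          · rintro rfl; exact hτe
        have e2 : L.ren τ y = L.var b ↔ y = L.var b := by
          constructor
          · intro h; exact L.ren_inj τ (by rw [h, L.ren_var, hτb])
          · rintro rfl; rw [L.ren_var, hτb]
        simp only [e1, e2]
        split_ifs
        · rw [L.ren_var, hτb]
        · rw [hτe]
        · rfl
      have h3 := (L.W k).hcomp _ (L.ren_end τ k) _ (L.theta_ph k e b).conj
      simpa [Sg, hsw] using h3
    · have h3 := (L.W k).hcomp _ (L.ren_end τ k) _ (L.theta_ph i e b k)
      simpa [Sg, hk] using h3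
  refine ((L.theta_ph i e b).comp (L.ren_end τ)).congr h2 a ?_
  intro j _
  simp

end Layered

open Layered

namespace Ctx

variable {F : Type} {n : ℕ} {L : Layered F n} (c : Ctx L)

/-- iterated transfers -/
noncomputable def zz (w : F) : ℕ → F
  | 0 => L.var 0
  | t + 1 => p3 (c.op o1) (zz w t) w (L.var (t+1))

noncomputable def nu (w : F) (t : ℕ) : Fin (n+1) → F :=
  fun j => if j = 0 then c.zz w t else if (j : ℕ) ≤ t then w else L.var j

theorem inv_aux {a : F} (hu : ¬ L.occ (n+2) a)
    (hinv : ∀ i' j' : Fin (n+1), i' ≠ j' → L.sg (c.trv i' j') a = a) (w : F) (t : ℕ)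
    (ht : t ≤ n) : L.sg (c.nu w t) a = a := by
  induction t with
  | zero =>
    refine (L.sg_end _).congr' L.end_id a ?_ ?_
    · intro j _
      show L.sg (c.nu w 0) (L.var j) = L.var j
      rw [L.sg_var]
      unfold nu
      by_cases h : j = 0
      · subst h; simp [zz]
      · have : ¬ (j : ℕ) ≤ 0 := by
          intro h'
          apply h
          ext
          simpa using h'
        rw [if_neg h, if_neg this]
    · intro k hk _
      exact L.sg_big _ hk
  | succ t ih =>
    have ih := ih (by omega)
    let j' : Fin (n+1) := ⟨t+1, by omega⟩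
    have h0j : (0 : Fin (n+1)) ≠ j' := by
      intro h
      have := congrArg Fin.val h
      simp [j'] at this
    set Φ := L.sub (Function.update (L.asg (c.nu w t)) (n+2) w) with hΦ
    have hΦe : L.End Φ := L.sub_end _
    have hΦv : ∀ l : Fin (n+1), Φ (L.var l) = c.nu w t l := by
      intro l
      have : (l : ℕ) ≠ n + 2 := by have := l.2; omega
      simp only [hΦ, L.sub_var, Function.update_of_ne this, L.asg_fin]
    have hΦu : Φ (L.var (n+2)) = w := by simp [hΦ]
    have hΦb : ∀ k, n + 1 ≤ k → k ≠ n + 2 → Φ (L.var k) = L.var k := by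
      intro k hk hk2
      simp only [hΦ, L.sub_var, Function.update_of_ne hk2, L.asg_big _ hk]
    have h1 : L.sg (c.nu w (t+1)) a = Φ (L.sg (c.trv 0 j') a) := by
      refine (L.sg_end _).congr' (hΦe.comp (L.sg_end _)) a ?_ ?_
      · intro l _
        show L.sg (c.nu w (t+1)) (L.var l) = Φ (L.sg (c.trv 0 j') (L.var l))
        rw [L.sg_var, L.sg_var]
        unfold trv
        by_cases hlj : l = j'
        · subst hlj
          rw [Function.update_self, hΦu]
          unfold nu
          rw [if_neg h0j.symm, if_pos (by simp [j'])]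
        · rw [Function.update_of_ne hlj]
          by_cases hl0 : l = 0
          · subst hl0
            rw [Function.update_self]
            have e1 : Φ (p3 (c.op o1) (L.var (0 : Fin (n+1))) (L.var (n+2)) (L.var j')) =
                p3 (c.op o1) (c.nu w t 0) w (c.nu w t j') := by
              rw [c.end_p3 hΦe (hΦb _ (le_refl _) (by omega)), hΦv, hΦv, hΦu]
            rw [e1]
            unfold nu
            have h2 : ¬ ((j' : ℕ) ≤ t) := by simp [j']
            rw [if_pos rfl, if_pos rfl, if_neg h0j.symm, if_neg h2]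
            rfl
          · rw [Function.update_of_ne hl0, hΦv]
            unfold nu
            rw [if_neg hl0, if_neg hl0]
            have h3 : (l : ℕ) ≠ t + 1 := by
              intro h; apply hlj; ext; simpa [j'] using h
            by_cases h4 : (l : ℕ) ≤ t
            · rw [if_pos (by omega), if_pos h4]
            · rw [if_neg (by omega), if_neg h4]
      · intro k hk hok
        show L.sg (c.nu w (t+1)) (L.var k) = Φ (L.sg (c.trv 0 j') (L.var k))
        rw [L.sg_big _ hk, L.sg_big _ hk, hΦb k hk]
        rintro rfl; exact hu hok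
    rw [h1, hinv 0 j' h0j]
    have h2 : Φ a = L.sg (c.nu w t) a := by
      refine hΦe.congr' (L.sg_end _) a ?_ ?_
      · intro l _; rw [hΦv, L.sg_var]
      · intro k hk hok
        rw [L.sg_big _ hk, hΦb k hk]
        rintro rfl; exact hu hok
    rw [h2, ih]

theorem nu_n (w : F) : c.nu w n = fun j => if j = 0 then c.P else w := by
  have h1 := c.inv_aux (a := c.P) (c.free_of_leP (L.le_refl _) (by omega))
    (fun i' j' hij => by rw [c.sg_P, c.op_trv hij]) w n (le_refl _)
  rw [c.sg_P] at h1
  have h2 : c.nu w n = fun j => if j = 0 then c.zz w n else w := by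
    funext j
    unfold nu
    by_cases h : j = 0
    · rw [if_pos h, if_pos h]
    · rw [if_neg h, if_neg h, if_pos (by have := j.2; omega)]
  rw [h2, (c.op_aff o1).single] at h1
  rw [h2, h1]

/-- (It) -/
theorem inv_const {a : F} (hu : ¬ L.occ (n+2) a)
    (hinv : ∀ i' j' : Fin (n+1), i' ≠ j' → L.sg (c.trv i' j') a = a) (w : F) :
    L.sg (fun j => if j = 0 then c.P else w) a = a := by
  rw [← c.nu_n]
  exact c.inv_aux hu hinv w n (le_refl _)

include c in
theorem third (i' j' : Fin (n+1)) : ∃ m : Fin (n+1), m ≠ i' ∧ m ≠ j' := by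
  by_contra h
  push Not at h
  have h1 : (Finset.univ : Finset (Fin (n+1))) ⊆ {i', j'} := by
    intro m _
    by_cases hm : m = i'
    · simp [hm]
    · simp [h m hm]
  have h2 := Finset.card_le_card h1
  have h3 := Finset.card_le_two (a := i') (b := j')
  have h4 := c.hn
  simp only [Finset.card_univ, Fintype.card_fin] at h2
  omega

/-- (K2) -/
theorem K2 {e : F} (he : L.le e c.P) {a b : Fin (n+1)} (hab : a ≠ b) (ha : L.occ a e)
    (hb : L.occ b e) :
    (∀ m : Fin (n+1), L.occ m e) ∧ ∀ w, L.sg (fun j => if j = 0 then c.P else w) e = e := by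
  have hev : ∀ j, L.var j ≠ e := by
    rintro j rfl
    rw [L.occ_var] at ha hb
    exact hab (Fin.ext (ha.trans hb.symm))
  have hall : ∀ m : Fin (n+1), L.occ m e := by
    intro m
    by_contra hm
    have hma : m ≠ a := by rintro rfl; exact hm ha
    have hmb : m ≠ b := by rintro rfl; exact hm hb
    have h1 := c.K1 he hev hma.symm hab.symm hmb.symm hb
    set δ := L.sub (Function.update L.var (n+2) (L.var a)) with hδ
    have hδe : L.End δ := L.sub_end _
    have hδv : ∀ k, k ≠ n + 2 → δ (L.var k) = L.var k := by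
      intro k hk; simp [hδ, hk]
    have hδu : δ (L.var (n+2)) = L.var a := by simp [hδ]
    have hlt : ∀ l : Fin (n+1), (l : ℕ) ≠ n + 2 := fun l => by have := l.2; omega
    have heu : ¬ L.occ (n+2) e := c.free_of_leP he (by omega)
    have h2 : δ e = e := by
      refine L.sub_id' hδe e ?_
      intro j hj
      refine hδv j ?_
      rintro rfl; exact heu hj
    have h3 : δ (L.sg (c.trv a m) e) =
        L.sg (Function.update (fun l : Fin (n+1) => L.var l) a (L.var m)) e := by
      refine (hδe.comp (L.sg_end _)).congr' (L.sg_end _) e ?_ ?_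
      · intro l hl
        show δ (L.sg (c.trv a m) (L.var l)) = _
        rw [L.sg_var, L.sg_var]
        unfold trv
        have hlm : l ≠ m := by rintro rfl; exact hm hl
        rw [Function.update_of_ne hlm]
        by_cases hla : l = a
        · subst hla
          rw [Function.update_self, Function.update_self, c.end_p3 hδe (hδv _ (by omega)),
            hδv _ (hlt _), hδu, hδv _ (hlt _)]
          exact (c.op_aff o1).p3_self' c.hn _ _
        · rw [Function.update_of_ne hla, Function.update_of_ne hla, hδv _ (hlt _)]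
      · intro k hk hok
        show δ (L.sg (c.trv a m) (L.var k)) = _
        rw [L.sg_big _ hk, L.sg_big _ hk, hδv]
        rintro rfl; exact heu hok
    rw [h1, h2] at h3
    rw [h3] at ha
    rcases L.occ_sg ha with ⟨h4, _⟩ | ⟨j, _, h4⟩
    · have := a.2; omega
    · by_cases hja : j = a
      · subst hja
        rw [Function.update_self, L.occ_var] at h4
        exact hma (Fin.ext h4.symm)
      · rw [Function.update_of_ne hja, L.occ_var] at h4
        exact hja (Fin.ext h4.symm)
  refine ⟨hall, fun w => ?_⟩
  refine c.inv_const (c.free_of_leP he (by omega)) ?_ w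
  intro i' j' hij
  obtain ⟨m, h1, h2⟩ := c.third i' j'
  exact c.K1 he hev hij h1 h2 (hall m)

/-- restriction to one variable -/
noncomputable def diag (s : F) : F := L.sg (fun _ => L.var 0) s

omit c in
theorem un_diag (w s : F) : L.un w (diag (L := L) s) = L.sg (fun _ => w) s := by
  unfold diag
  refine ((L.un_end w).comp (L.sg_end _)).congr' (L.sg_end _) s ?_ ?_
  · intro j _
    show L.un w (L.sg (fun _ => L.var 0) (L.var j)) = L.sg (fun _ => w) (L.var j)
    rw [L.sg_var, L.sg_var]; simp
  · intro k hk _
    show L.un w (L.sg (fun _ => L.var 0) (L.var k)) = L.sg (fun _ => w) (L.var k)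
    rw [L.sg_big _ hk, L.sg_big _ hk, L.un_var _ (by omega)]

theorem diag_un {s : F} (hs : L.le s c.P) {m : Fin (n+1)} (ho : L.occ m s)
    {w : F} (hsw : L.sg (fun _ => w) s = s) : L.Un (diag (L := L) s) := by
  have h1 : ∀ j, L.occ j (diag (L := L) s) → j = 0 ∨ j = n + 1 := by
    intro j hj
    rcases L.occ_sg hj with ⟨h1, h2⟩ | ⟨l, _, h2⟩
    · have := c.occ_of_leP hs h2
      right; omega
    · left; rwa [L.occ_var] at h2
  refine ⟨h1, ?_⟩
  by_contra h0
  have h2 : L.un w (diag (L := L) s) = diag (L := L) s := by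
    refine L.sub_id' (L.un_end w) _ ?_
    intro j hj
    refine L.un_var w ?_
    rintro rfl; exact h0 hj
  rw [un_diag, hsw] at h2
  rw [h2] at ho
  rcases h1 m ho with h3 | h3
  · rw [h3] at ho; exact h0 ho
  · have := m.2; omega

/-- `x_0 ↦ x_0`, other `x_j ↦ v` -/
noncomputable def spv (L : Layered F n) : Fin (n+1) → F :=
  fun l => if l = 0 then L.var 0 else L.var (n+3)

theorem tri0 {s : F} (hs : L.le s c.P) :
    (∀ m : Fin (n+1), ¬ L.occ m s) ∨
    (∃ m : Fin (n+1), ∃ k, L.Un k ∧ k = L.ren (Equiv.swap (0:ℕ) m) s ∧ s = L.un (L.var m) k) ∨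
    (∃ k, L.Un k ∧ s = L.un c.P k) := by
  by_cases h0 : ∀ m : Fin (n+1), ¬ L.occ m s
  · exact Or.inl h0
  right
  push Not at h0
  obtain ⟨m, hm⟩ := h0
  by_cases h1 : ∃ m' : Fin (n+1), m' ≠ m ∧ L.occ m' s
  · obtain ⟨m', hne, hm'⟩ := h1
    obtain ⟨_, h3⟩ := c.K2 hs hne hm' hm
    right
    have h4 := h3 c.P
    have h5 : (fun j : Fin (n+1) => if j = 0 then c.P else c.P) = fun _ => c.P := by
      funext j; simp
    rw [h5] at h4
    refine ⟨diag (L := L) s, c.diag_un hs hm h4, ?_⟩
    rw [un_diag, h4]
  · push Not at h1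
    left
    have h4 : L.sg (fun _ => L.var m) s = s := by
      refine (L.sg_end _).congr' L.end_id s ?_ ?_
      · intro j hj
        have : j = m := by
          by_contra hne; exact h1 j hne hj
        subst this
        show L.sg _ (L.var j) = L.var j
        rw [L.sg_var]
      · intro k hk _; exact L.sg_big _ hk
    refine ⟨m, diag (L := L) s, c.diag_un hs hm h4, ?_, ?_⟩
    · unfold diag
      refine (L.sg_end _).congr' (L.ren_end _) s ?_ ?_
      · intro j hj
        have : j = m := by
          by_contra hne; exact h1 j hne hj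
        subst this
        rw [L.sg_var, L.ren_var, Equiv.swap_apply_right]
      · intro k hk _
        rw [L.sg_big _ hk, L.ren_var, Equiv.swap_apply_of_ne_of_ne (by omega)
          (by have := m.2; omega)]
    · rw [un_diag, h4]

theorem ren_P_swap (a b : Fin (n+1)) : L.ren (Equiv.swap (a:ℕ) b) c.P = c.P := by
  have ha := a.2
  have hb := b.2
  rw [c.end_P (L.ren_end _) (by
    rw [L.ren_var, Equiv.swap_apply_of_ne_of_ne (by omega) (by omega)])]
  have h1 : (fun j : Fin (n+1) => L.ren (Equiv.swap (a:ℕ) b) (L.var j)) =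
      fun j => (fun l : Fin (n+1) => L.var l) (Equiv.swap a b j) := by
    funext j
    simp only [L.ren_var]
    congr 1
    rw [Equiv.swap_apply_def, Equiv.swap_apply_def]
    simp only [Fin.ext_iff]
    split_ifs <;> rfl
  have h2 := (c.op_aff o1).perm (Equiv.swap a b) (fun l : Fin (n+1) => L.var l)
  rw [h1]
  exact h2.trans c.P_eq.symm

theorem le_P_of_ren {s k : F} (hs : L.le s c.P) {m : Fin (n+1)}
    (hk : k = L.ren (Equiv.swap (0:ℕ) m) s) : L.le k c.P := by
  rw [hk]
  have := L.ren_le (Equiv.swap (0:ℕ) m) hs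
  have h2 := c.ren_P_swap 0 m
  simp only [Fin.val_zero] at h2
  rwa [h2] at this

/-- (spec) -/
theorem spec {s k : F} (hs : L.le s c.P) (hk : L.Un k) (h : L.sg (spv L) s = k) :
    s = k ∨ s = L.un c.P k := by
  have hn := c.hn
  have hb : L.sg (spv L) (L.var (n+1)) = L.var (n+1) := L.sg_big _ (le_refl _)
  have hv0 : L.sg (spv L) (L.var 0) = L.var 0 := by
    have := L.sg_var (spv L) 0
    simpa [spv] using this
  rcases c.tri0 hs with h1 | ⟨m, k', hk', _, h1⟩ | ⟨k', hk', h1⟩
  · exfalso
    have h2 := hk.2
    rw [← h] at h2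
    rcases L.occ_sg h2 with ⟨h3, _⟩ | ⟨j, h3, _⟩
    · omega
    · exact h1 j h3
  · by_cases hm : m = 0
    · subst hm
      left
      rw [Fin.val_zero, L.un_id] at h1
      subst h1
      rw [L.end_eq_un (L.sg_end _) hb hk', hv0, L.un_id] at h
      exact h
    · exfalso
      rw [h1, L.end_un (L.sg_end _) hb hk', L.sg_var] at h
      simp only [spv, if_neg hm] at h
      have h2 := hk.2
      rw [← h] at h2
      rcases L.un_occ hk' h2 with h3 | h3
      · rw [L.occ_var] at h3; omega
      · omega
  · right
    rw [h1, L.end_un (L.sg_end _) hb hk', c.sg_P] at h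
    have h2 : c.op o1 (spv L) = L.var 0 := by
      unfold spv; exact (c.op_aff o1).single 0 _ _
    rw [h2, L.un_id] at h
    rw [h1, h]

/-- every variable occurs in `k(P)` -/
theorem occ_unP {k : F} (hk : L.Un k) (j : Fin (n+1)) : L.occ j (L.un c.P k) := by
  have hj := j.2
  refine L.occ_un_of_spec hk (φ := L.sg (fun l => if l = j then L.var j else L.var (n+3)))
    (L.sg_end _) (L.sg_big _ (le_refl _)) (by omega) ?_ ?_
  · rw [c.sg_P, (c.op_aff o1).single]
  · intro l hl
    rcases fin_or (n := n) l with ⟨l', rfl⟩ | h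
    · have : l' ≠ j := by rintro rfl; exact hl rfl
      rw [L.sg_var, if_neg this, L.occ_var]; omega
    · rw [L.sg_big _ h, L.occ_var]; omega

theorem unP_le_occ {k : F} (hk : L.Un k) {j : ℕ} (h : L.occ j (L.un c.P k)) : j ≤ n + 1 := by
  rcases L.un_occ hk h with h | h
  · exact c.occP_le h
  · omega

theorem unP_free {k : F} (hk : L.Un k) {j : ℕ} (h : n + 1 < j) : ¬ L.occ j (L.un c.P k) :=
  fun h' => by have := c.unP_le_occ hk h'; omega

theorem un_free {k : F} (hk : L.Un k) {j : ℕ} (h : j ≠ 0) (h' : j ≠ n + 1) : ¬ L.occ j k := by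
  intro ho
  rcases hk.1 j ho with h1 | h1 <;> contradiction

end Ctx

end Pool.Agent.Helper470.Dim
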