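import Pool.Agent.Helper470.Dim.Core2

set_option autoImplicit false

namespace Pool.Agent.Helper470.Dim

open Classical Layered

namespace Ctx

variable {F : Type} {n : ℕ} {L : Layered F n} (c : Ctx L)

/-- `P` with the sub-element `k` (and the conjugation of world `c.i`) replaced by `b` -/
noncomputable def Pb (k : F) : F := L.theta c.i k (n+4) c.P

theorem P_free {j : ℕ} (h : n + 1 < j) : ¬ L.occ j c.P :=
  fun h' => by have := c.occP_le h'; omega

/-- `P` with `x_j` replaced by `u` -/
noncomputable def Pj (j : Fin (n+1)) : F := L.ren (Equiv.swap (j:ℕ) (n+2)) c.P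

theorem Pj_eq (j : Fin (n+1)) :
    c.Pj j = c.op o1 (Function.update (fun l : Fin (n+1) => L.var l) j (L.var (n+2))) := by
  have hj := j.2
  unfold Pj
  rw [c.end_P (L.ren_end _) (by
    rw [L.ren_var, Equiv.swap_apply_of_ne_of_ne (by omega) (by omega)])]
  congr 1
  funext l
  have hl := l.2
  by_cases h : l = j
  · subst h; simp
  · rw [Function.update_of_ne h, L.ren_var, Equiv.swap_apply_of_ne_of_ne _ (by omega)]
    intro h'; exact h (Fin.ext h')

theorem theta_Pj {k : F} (hk : L.Un k) {j : Fin (n+1)} (hj : j ≠ 0) :
    L.theta c.i k (n+4) (c.Pj j) = L.ren (Equiv.swap (j:ℕ) (n+2)) (c.Pb k) := by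
  have hjl := j.2
  have hj0 : (j : ℕ) ≠ 0 := by intro h; apply hj; ext; simpa using h
  unfold Pj Pb
  refine L.theta_ren ?_ ?_ c.P
  · refine L.sub_id' (L.ren_end _) k ?_
    intro l hl
    rcases hk.1 l hl with rfl | rfl
    · rw [L.ren_var, Equiv.swap_apply_of_ne_of_ne hj0.symm (by omega)]
    · rw [L.ren_var, Equiv.swap_apply_of_ne_of_ne (by omega) (by omega)]
  · exact Equiv.swap_apply_of_ne_of_ne (by omega) (by omega)

theorem bt_fix {k : F} (hk : L.Un k) : ¬ L.occ (n+4) k := un_free hk (by omega) (by omega)

/-- (K4a) -/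
theorem K4a {k : F} (hk : L.Un k) {j : Fin (n+1)} (hj : j ≠ 0) :
    c.Pb k = p3 (c.op o1) (L.ren (Equiv.swap (j:ℕ) (n+2)) (c.Pb k)) (L.var (n+2)) (L.var j) := by
  have hn := c.hn
  have hkb := bt_fix hk
  have hjl := j.2
  have hj0 : (j : ℕ) ≠ 0 := by intro h; apply hj; ext; simpa using h
  set Pbj := L.ren (Equiv.swap (j:ℕ) (n+2)) (c.Pb k) with hPbj
  set T : Fin (n+1) → F := fun l => if l = 0 then Pbj else if l = Fin.last n then L.var j
    else L.var (n+2) with hT
  have hbt0 : L.bt k (n+4) (L.var (n+1)) = L.var (n+1) := L.bt_var (by omega)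
  have hbtPbj : L.bt k (n+4) Pbj = c.Pj j := by
    rw [hPbj, ← c.theta_Pj hk hj]
    refine L.bt_theta_free hkb ?_
    rw [c.Pj_eq]
    refine c.op_free (by omega) ?_
    intro l
    have hl := l.2
    by_cases h : l = j
    · subst h; rw [Function.update_self, L.occ_var]; omega
    · rw [Function.update_of_ne h, L.occ_var]; omega
  have h1 : c.Pb k = L.psub (L.Sg c.i k (n+4)) (L.asg T) c.P := by
    unfold Pb
    conv_lhs => rw [c.P_eq, ← (c.op_aff o1).replace c.hn _ j (L.var (n+2)), ← c.Pj_eq]
    rw [c.ph_p3 (L.theta_ph _ _ _) (L.theta_var _ _ _ _), c.theta_Pj hk hj, L.theta_var,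
      L.theta_var]
    rw [c.ph_P (L.psub_ph _ _) (by rw [L.psub_var, L.asg_big _ (le_refl _)])]
    unfold p3
    congr 1
    funext l
    rw [L.psub_var, L.asg_fin]
  have h2 : L.psub (L.Sg c.i k (n+4)) (L.asg T) c.P = L.sg T c.P := by
    refine L.no_change (L.sg_end _) (L.psub_ph _ _) c.P ?_ ?_
    · intro l _; rw [L.psub_var]; simp [sg]
    · intro s hs
      have key : L.bt k (n+4) (L.sg T s) ≠ k := by
        intro hbad
        set T' : Fin (n+1) → F := fun l => if l = 0 then c.Pj j else if l = Fin.last n then L.var j
          else L.var (n+2) with hT'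
        have h3 : L.sg T' s = k := by
          rw [← hbad]
          refine (L.sg_end _).congr' ((L.bt_end k (n+4)).comp (L.sg_end _)) s ?_ ?_
          · intro l _
            show L.sg T' (L.var l) = L.bt k (n+4) (L.sg T (L.var l))
            rw [L.sg_var, L.sg_var]
            simp only [hT, hT']
            split_ifs
            · rw [hbtPbj]
            · rw [L.bt_var (by omega)]
            · rw [L.bt_var (by omega)]
          · intro l hl hol
            show L.sg T' (L.var l) = L.bt k (n+4) (L.sg T (L.var l))
            rw [L.sg_big _ hl, L.sg_big _ hl, L.bt_var]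
            rintro rfl; exact c.free_of_leP hs (by omega) hol
        have hT'P : c.op o1 T' = c.P := by
          have := (c.op_aff o1).replace c.hn (fun l : Fin (n+1) => L.var l) j (L.var (n+2))
          rw [← c.Pj_eq, ← c.P_eq] at this
          exact this
        -- specialise
        set δ := L.sub (fun l => if l = 0 then L.var 0 else if l = n+1 then L.var (n+1)
          else L.var (n+3)) with hδ
        have hδe : L.End δ := L.sub_end _
        have hδ0 : δ (L.var 0) = L.var 0 := by simp [hδ]
        have hδb : δ (L.var (n+1)) = L.var (n+1) := by simp [hδ]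
        have hδv : ∀ l, l ≠ 0 → l ≠ n + 1 → δ (L.var l) = L.var (n+3) := by
          intro l h h'; simp [hδ, h, h']
        have hδk : δ k = k := by rw [L.end_eq_un hδe hδb hk, hδ0, L.un_id]
        have h4 : L.sg (spv L) s = k := by
          have h5 := congrArg δ h3
          rw [hδk] at h5
          rw [← h5]
          refine (L.sg_end _).congr' (hδe.comp (L.sg_end _)) s ?_ ?_
          · intro l _
            show L.sg (spv L) (L.var l) = δ (L.sg T' (L.var l))
            rw [L.sg_var, L.sg_var]
            simp only [spv, hT']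
            by_cases hl0 : l = 0
            · rw [if_pos hl0, if_pos hl0, c.Pj_eq, c.end_op hδe hδb]
              have h6 : (fun m : Fin (n+1) => δ (Function.update (fun l : Fin (n+1) => L.var l) j
                  (L.var (n+2)) m)) = fun m => if m = 0 then L.var 0 else L.var (n+3) := by
                funext m
                have hm := m.2
                by_cases hmj : m = j
                · subst hmj
                  rw [Function.update_self, hδv _ (by omega) (by omega), if_neg hj]
                · rw [Function.update_of_ne hmj]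
                  by_cases hm0 : m = 0
                  · subst hm0; simpa using hδ0
                  · rw [if_neg hm0, hδv _ _ (by omega)]
                    intro h; apply hm0; ext; simpa using h
              rw [h6, (c.op_aff o1).single]
            · rw [if_neg hl0, if_neg hl0]
              split_ifs
              · rw [hδv _ hj0 (by omega)]
              · rw [hδv _ (by omega) (by omega)]
          · intro l hl hol
            show L.sg (spv L) (L.var l) = δ (L.sg T' (L.var l))
            rw [L.sg_big _ hl, L.sg_big _ hl]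
            have : l = n + 1 := by have := c.occ_of_leP hs hol; omega
            subst this
            exact hδb.symm
        rcases c.spec hs hk h4 with h5 | h5
        · -- s = k
          rw [h5, L.end_eq_un (L.sg_end _) (L.sg_big _ (le_refl _)) hk] at h3
          have h0 : L.sg T' (L.var 0) = c.Pj j := by
            have := L.sg_var T' 0
            simpa [hT'] using this
          rw [h0] at h3
          have h6 : L.occ (n+2) (L.un (c.Pj j) k) := by
            have h7 : L.un (c.Pj j) k = L.ren (Equiv.swap (j:ℕ) (n+2)) (L.un c.P k) := by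
              have hb : L.ren (Equiv.swap (j:ℕ) (n+2)) (L.var (n+1)) = L.var (n+1) := by
                rw [L.ren_var, Equiv.swap_apply_of_ne_of_ne (by omega) (by omega)]
              rw [L.end_un (L.ren_end _) hb hk]
              rfl
            rw [h7]
            have h8 := (L.ren_occ (Equiv.swap (j:ℕ) (n+2)) (j := j)).2 (c.occ_unP hk j)
            simpa using h8
          rw [h3] at h6
          exact un_free hk (by omega) (by omega) h6
        · rw [h5, L.end_un (L.sg_end _) (L.sg_big _ (le_refl _)) hk, c.sg_P, hT'P] at h3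
          have h6 := c.occ_unP hk ⟨1, by omega⟩
          rw [h3] at h6
          exact un_free hk (by simp) (by simp; omega) h6
      constructor
      · intro h; apply key; rw [h, L.bt_free hkb]
      · intro h; apply key; rw [h, L.bt_b]
  rw [h1, h2, c.sg_P]
  rfl

/-- `g_k(x_0, b)` -/
noncomputable def gk (k : F) : F := L.sg (spv L) (c.Pb k)

theorem Pb_free {k : F} (hk : L.Un k) {j : ℕ} (h : n + 1 < j) (h' : j ≠ n + 4) :
    ¬ L.occ j (c.Pb k) := by
  intro ho
  rcases L.occ_theta_le (bt_fix hk) (c.P_free (by omega)) ho with h1 | h1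
  · exact c.P_free h h1
  · exact h' h1

/-- (K4b) -/
theorem K4b {k : F} (hk : L.Un k) :
    c.Pb k = c.op o1 (Function.update (fun l : Fin (n+1) => L.var l) 0 (c.gk k)) := by
  have step : ∀ (j : Fin (n+1)), j ≠ 0 → ∀ (a : Fin (n+1) → F) (w : F),
      L.sg a (c.Pb k) = p3 (c.op o1) (L.sg (Function.update a j w) (c.Pb k)) w (a j) := by
    intro j hj a w
    have hjl := j.2
    set Φ := L.sub (Function.update (L.asg a) (n+2) w) with hΦ
    have hΦe : L.End Φ := L.sub_end _
    have hΦv : ∀ l : Fin (n+1), Φ (L.var l) = a l := by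
      intro l
      have : (l : ℕ) ≠ n + 2 := by have := l.2; omega
      simp only [hΦ, L.sub_var, Function.update_of_ne this, L.asg_fin]
    have hΦu : Φ (L.var (n+2)) = w := by simp [hΦ]
    have hΦb : ∀ k, n + 1 ≤ k → k ≠ n + 2 → Φ (L.var k) = L.var k := by
      intro k hk hk2
      simp only [hΦ, L.sub_var, Function.update_of_ne hk2, L.asg_big _ hk]
    have h1 := congrArg Φ (c.K4a hk hj)
    rw [c.end_p3 hΦe (hΦb _ (le_refl _) (by omega)), hΦu, hΦv] at h1
    have h2 : Φ (c.Pb k) = L.sg a (c.Pb k) := by
      refine hΦe.congr' (L.sg_end _) _ ?_ ?_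
      · intro l _; rw [hΦv, L.sg_var]
      · intro l hl hol
        rw [L.sg_big _ hl, hΦb l hl]
        rintro rfl; exact c.Pb_free hk (by omega) (by omega) hol
    have h3 : Φ (L.ren (Equiv.swap (j:ℕ) (n+2)) (c.Pb k)) =
        L.sg (Function.update a j w) (c.Pb k) := by
      refine (hΦe.comp (L.ren_end _)).congr' (L.sg_end _) _ ?_ ?_
      · intro l _
        show Φ (L.ren (Equiv.swap (j:ℕ) (n+2)) (L.var l)) = _
        have hl := l.2
        by_cases h : l = j
        · subst h
          rw [L.ren_var, Equiv.swap_apply_left, hΦu, L.sg_var, Function.update_self]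
        · rw [L.ren_var, Equiv.swap_apply_of_ne_of_ne _ (by omega), hΦv, L.sg_var,
            Function.update_of_ne h]
          intro h'; exact h (Fin.ext h')
      · intro l hl hol
        show Φ (L.ren (Equiv.swap (j:ℕ) (n+2)) (L.var l)) = _
        have hne : l ≠ n + 2 := by
          rintro rfl; exact c.Pb_free hk (by omega) (by omega) hol
        rw [L.ren_var, Equiv.swap_apply_of_ne_of_ne (by omega) hne, hΦb l hl hne,
          L.sg_big _ hl]
    rw [h2, h3] at h1
    exact h1
  obtain ⟨G, hG, hS⟩ := c.op_aff o1
  have hinv : ∀ (j : Fin (n+1)), j ≠ 0 → ∀ (a : Fin (n+1) → F) (w : F),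
      L.sg (Function.update a j w) (c.Pb k) - ∑ l, Function.update a j w l =
        L.sg a (c.Pb k) - ∑ l, a l := by
    intro j hj a w
    rw [step j hj a w, p3_eq c.hn hG hS, sum_split]
    abel
  have hmany : ∀ (s : Finset (Fin (n+1))), (0 : Fin (n+1)) ∉ s →
      ∀ (a a' : Fin (n+1) → F),
      L.sg (fun l => if l ∈ s then a' l else a l) (c.Pb k) -
        ∑ l, (fun l => if l ∈ s then a' l else a l) l = L.sg a (c.Pb k) - ∑ l, a l := by
    intro s
    induction s using Finset.induction_on with
    | empty => intro _ a a'; simp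
    | insert j s hj ih =>
      intro h0 a a'
      have hj0 : j ≠ 0 := by rintro rfl; simp at h0
      have h0s : (0 : Fin (n+1)) ∉ s := by intro h; apply h0; simp [h]
      rw [← ih h0s a a']
      have h1 : (fun l => if l ∈ insert j s then a' l else a l) =
          Function.update (fun l => if l ∈ s then a' l else a l) j (a' j) := by
        funext l
        by_cases hl : l = j
        · subst hl; simp
        · simp [Function.update_of_ne hl, hl]
      rw [h1]
      exact hinv j hj0 _ _
  have h1 := hmany (Finset.univ.erase 0) (by simp) (fun l : Fin (n+1) => L.var l) (spv L)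
  have h2 : (fun l : Fin (n+1) => if l ∈ Finset.univ.erase (0 : Fin (n+1)) then spv L l
      else L.var l) = spv L := by
    funext l
    by_cases hl : l = 0
    · subst hl; simp [spv]
    · simp [hl]
  rw [h2] at h1
  have h3 : L.sg (fun l : Fin (n+1) => L.var l) (c.Pb k) = c.Pb k := by
    refine (L.sg_end _).congr' L.end_id _ ?_ ?_
    · intro j _; show L.sg _ (L.var j) = L.var j; rw [L.sg_var]
    · intro l hl _; exact L.sg_big _ hl
  rw [h3] at h1
  have h4 : ∑ l, spv L l = L.var 0 := by
    rw [← hS]
    unfold spv
    exact IsAff.single ⟨G, hG, hS⟩ 0 _ _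
  rw [h4] at h1
  rw [hS, sum_split]
  unfold gk
  rw [Fin.val_zero]
  have h5 : c.Pb k = L.sg (spv L) (c.Pb k) - L.var 0 + ∑ l : Fin (n+1), L.var l := by
    rw [h1]; abel
  conv_lhs => rw [h5]
  abel

theorem Pb_occ {k : F} (hk : L.Un k) (hkP : L.le k c.P) (hk0 : k ≠ L.var 0) :
    L.occ (n+4) (c.Pb k) := by
  have hkv : ∀ j, L.var j ≠ k := by
    rintro j rfl
    have := hk.2
    rw [L.occ_var] at this
    subst this
    exact hk0 rfl
  have hn := c.hn
  refine L.occ_theta (bt_fix hk) hkv (c.P_free (by omega)) hkP (Or.inl ?_)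
  rintro rfl
  have := hk.1 1 (c.occP ⟨1, by omega⟩)
  omega

/-- (K4c) -/
theorem K4c {k : F} (hk : L.Un k) (hkP : L.le k c.P) (hk0 : k ≠ L.var 0) :
    L.occ (n+4) (c.gk k) := by
  by_contra hg
  have h1 := c.Pb_occ hk hkP hk0
  rw [c.K4b hk] at h1
  refine c.op_free (by omega) ?_ h1
  intro j
  have hj := j.2
  by_cases h : j = 0
  · subst h; rw [Function.update_self]; exact hg
  · rw [Function.update_of_ne h, L.occ_var]; omega

end Ctx

end Pool.Agent.Helper470.Dim
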