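import Pool.Agent.Helper470.Dim.Core3

set_option autoImplicit false

namespace Pool.Agent.Helper470.Dim

open Classical Layered

namespace Ctx

variable {F : Type} {n : ℕ} {L : Layered F n} (c : Ctx L)

/-- `x_0 ↦ x_0`, everything else except `b` and the parameter to `v` -/
noncomputable def dl (L : Layered F n) : F → F :=
  L.sub (fun l => if l = 0 ∨ l = n+1 ∨ l = n+4 then L.var l else L.var (n+3))

theorem dl_end (L : Layered F n) : L.End (dl L) := L.sub_end _
theorem dl0 (L : Layered F n) : dl L (L.var 0) = L.var 0 := by simp [dl]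
theorem dlp (L : Layered F n) : dl L (L.var (n+1)) = L.var (n+1) := by simp [dl]
theorem dlb (L : Layered F n) : dl L (L.var (n+4)) = L.var (n+4) := by simp [dl]
theorem dlv (L : Layered F n) {l : ℕ} (h : l ≠ 0) (h1 : l ≠ n + 1) (h2 : l ≠ n + 4) :
    dl L (L.var l) = L.var (n+3) := by simp [dl, h, h1, h2]

/-- tuple `(P, u, ..., u, v)` -/
noncomputable def T1 (c : Ctx L) : Fin (n+1) → F :=
  fun l => if l = 0 then c.P else if l = Fin.last n then L.var (n+3) else L.var (n+2)

/-- `x_n - u + v` -/
noncomputable def Q (c : Ctx L) : F :=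
  p3 (c.op o1) (L.var (Fin.last n)) (L.var (n+2)) (L.var (n+3))

noncomputable def T2 (c : Ctx L) : Fin (n+1) → F :=
  Function.update (fun l : Fin (n+1) => L.var l) (Fin.last n) c.Q

theorem op_T1 : c.op o1 c.T1 = c.op o1 c.T2 := by
  have h := (c.op_aff o1).assoc c.hn (fun l : Fin (n+1) => L.var l) (Fin.last n) (L.var (n+2))
    (L.var (n+3))
  rw [← c.P_eq] at h
  exact h

/-- (K3a) -/
theorem K3a {k : F} (hk : L.Un k) (hkP : L.le k c.P) (hk0 : k ≠ L.var 0) :
    L.le (L.un c.P k) c.P := by
  by_contra hle
  have hn := c.hn
  set e := L.un c.P k with he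
  have h0l : (0 : Fin (n+1)) ≠ Fin.last n := by
    intro h
    have := congrArg Fin.val h
    simp at this
    omega
  have hQ0 : ¬ L.occ 0 c.Q := by
    refine c.p3_free (by omega) ?_ ?_ ?_ <;> rw [L.occ_var] <;> simp <;> omega
  have hQb : ¬ L.occ (n+4) c.Q := by
    refine c.p3_free (by omega) ?_ ?_ ?_ <;> rw [L.occ_var] <;> simp
  have heQ : ¬ L.le e c.Q := by
    intro h
    have := c.occ_unP hk 0
    exact hQ0 (L.occ_le this h)
  have hθP : L.theta c.i e (n+4) c.P = c.P := L.theta_of_not_le (c.P_free (by omega)) hle
  have hθQ : L.theta c.i e (n+4) c.Q = c.Q := L.theta_of_not_le hQb heQ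
  -- both sides in the conjugated algebra
  have hL : L.theta c.i e (n+4) (c.op o1 c.T1) =
      L.psub (L.Sg c.i e (n+4)) (L.asg c.T1) c.P := by
    rw [c.ph_op (L.theta_ph _ _ _) (L.theta_var _ _ _ _),
      c.ph_P (L.psub_ph _ _) (by rw [L.psub_var, L.asg_big _ (le_refl _)])]
    congr 1
    funext l
    rw [L.psub_var, L.asg_fin]
    unfold T1
    split_ifs
    · exact hθP
    · simp
    · simp
  have hR : L.theta c.i e (n+4) (c.op o1 c.T2) =
      L.psub (L.Sg c.i e (n+4)) (L.asg c.T2) c.P := by
    rw [c.ph_op (L.theta_ph _ _ _) (L.theta_var _ _ _ _),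
      c.ph_P (L.psub_ph _ _) (by rw [L.psub_var, L.asg_big _ (le_refl _)])]
    congr 1
    funext l
    rw [L.psub_var, L.asg_fin]
    unfold T2
    by_cases h : l = Fin.last n
    · subst h; rw [Function.update_self]; exact hθQ
    · rw [Function.update_of_ne h, L.theta_var]
  -- right-hand side is unchanged
  have hR2 : L.psub (L.Sg c.i e (n+4)) (L.asg c.T2) c.P = L.sg c.T2 c.P := by
    refine L.no_change (L.sg_end _) (L.psub_ph _ _) c.P ?_ ?_
    · intro l _; rw [L.psub_var]; simp [sg]
    · intro s hs
      constructor
      · intro h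
        apply hle
        set δ := L.sub (Function.update L.var (n+2) (L.var (n+3))) with hδ
        have hδe : L.End δ := L.sub_end _
        have hδv : ∀ k, k ≠ n + 2 → δ (L.var k) = L.var k := by
          intro k hk; simp [hδ, hk]
        have hδu : δ (L.var (n+2)) = L.var (n+3) := by simp [hδ]
        have h1 : δ (L.sg c.T2 s) = s := by
          refine (hδe.comp (L.sg_end _)).congr' L.end_id s ?_ ?_
          · intro l _
            have hl := l.2
            show δ (L.sg c.T2 (L.var l)) = L.var l
            rw [L.sg_var]
            unfold T2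
            by_cases h : l = Fin.last n
            · subst h; rw [Function.update_self]
              unfold Q
              rw [c.end_p3 hδe (hδv _ (by omega)), hδv _ (by omega), hδu, hδv _ (by omega)]
              exact (c.op_aff o1).p3_self c.hn _ _
            · rw [Function.update_of_ne h, hδv _ (by omega)]
          · intro l hl hol
            show δ (L.sg c.T2 (L.var l)) = L.var l
            rw [L.sg_big _ hl, hδv]
            rintro rfl; exact c.free_of_leP hs (by omega) hol
        have h2 : δ e = e := by
          refine L.sub_id' hδe e ?_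
          intro l hl
          refine hδv l ?_
          rintro rfl; exact c.unP_free hk (by omega) hl
        rw [h, h2] at h1
        rw [h1]; exact hs
      · intro h
        have h3 : L.occ (n+4) (L.sg c.T2 s) := by rw [h]; exact L.le_refl _
        refine c.sg_free (c.free_of_leP hs (by omega)) (fun l => ?_) h3
        have hl := l.2
        unfold T2
        by_cases h : l = Fin.last n
        · subst h; rw [Function.update_self]; exact hQb
        · rw [Function.update_of_ne h, L.occ_var]; omega
  -- left-hand side
  have hφk : L.sg c.T1 k = e := by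
    rw [L.end_eq_un (L.sg_end _) (L.sg_big _ (le_refl _)) hk]
    have := L.sg_var c.T1 0
    rw [Fin.val_zero] at this
    rw [this]
    simp [T1, he]
  have hT1b : ∀ l, ¬ L.occ (n+4) (c.T1 l) := by
    intro l
    unfold T1
    split_ifs
    · exact c.P_free (by omega)
    · rw [L.occ_var]; omega
    · rw [L.occ_var]; omega
  have hL2 : L.psub (L.Sg c.i e (n+4)) (L.asg c.T1) c.P = L.sg c.T1 (c.Pb k) := by
    refine L.one_change (L.sg_end _) hφk (bt_fix hk) (L.sg_big _ (by omega)) ?_
      (L.psub_ph _ _) c.P (c.P_free (by omega)) ?_ ?_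
    · intro j hj
      rcases fin_or (n := n) j with ⟨l, rfl⟩ | h
      · rw [L.sg_var]; exact hT1b l
      · rw [L.sg_big _ h, L.occ_var]; omega
    · intro l _; rw [L.psub_var]; simp [sg]
    · intro s hs h
      have hd : dl L (L.sg c.T1 s) = L.sg (spv L) s := by
        refine ((dl_end L).comp (L.sg_end _)).congr' (L.sg_end _) s ?_ ?_
        · intro l _
          show dl L (L.sg c.T1 (L.var l)) = _
          rw [L.sg_var, L.sg_var]
          unfold T1 spv
          by_cases h0 : l = 0
          · rw [if_pos h0, if_pos h0, c.end_P (dl_end L) (dlp L)]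
            have h6 : (fun j : Fin (n+1) => dl L (L.var j)) =
                fun m => if m = 0 then L.var 0 else L.var (n+3) := by
              funext m
              have hm := m.2
              by_cases hm0 : m = 0
              · subst hm0; simpa using dl0 L
              · rw [if_neg hm0, dlv L _ (by omega) (by omega)]
                intro h; apply hm0; ext; simpa using h
            rw [h6, (c.op_aff o1).single]
          · rw [if_neg h0, if_neg h0]
            split_ifs
            · rw [dlv L (by omega) (by omega) (by omega)]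
            · rw [dlv L (by omega) (by omega) (by omega)]
        · intro l hl hol
          show dl L (L.sg c.T1 (L.var l)) = _
          rw [L.sg_big _ hl, L.sg_big _ hl]
          have : l = n + 1 := by have := c.occ_of_leP hs hol; omega
          subst this
          exact dlp L
      have hde : dl L e = k := by
        rw [he, L.end_un (dl_end L) (dlp L) hk]
        have h6 : (fun j : Fin (n+1) => dl L (L.var j)) =
            fun m => if m = 0 then L.var 0 else L.var (n+3) := by
          funext m
          have hm := m.2
          by_cases hm0 : m = 0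
          · subst hm0; simpa using dl0 L
          · rw [if_neg hm0, dlv L _ (by omega) (by omega)]
            intro h; apply hm0; ext; simpa using h
        rw [c.end_P (dl_end L) (dlp L), h6, (c.op_aff o1).single, L.un_id]
      have h4 : L.sg (spv L) s = k := by rw [← hd, h, hde]
      rcases c.spec hs hk h4 with h5 | h5
      · exact h5
      · exfalso
        rw [h5, L.end_un (L.sg_end _) (L.sg_big _ (le_refl _)) hk, c.sg_P] at h
        have h6 : L.occ (n+3) (L.un (c.op o1 c.T1) k) := by
          refine L.occ_un_of_spec hk
            (φ := L.sub (fun l => if l = n+1 ∨ l = n+3 then L.var l else L.var (n+2)))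
            (L.sub_end _) (by simp) (by omega) ?_ ?_
          · set φ := L.sub (fun l => if l = n+1 ∨ l = n+3 then L.var l else L.var (n+2)) with hφ
            have hφe : L.End φ := L.sub_end _
            have hφv : ∀ l, l ≠ n + 1 → l ≠ n + 3 → φ (L.var l) = L.var (n+2) := by
              intro l h h'; simp [hφ, h, h']
            have hφp : φ (L.var (n+1)) = L.var (n+1) := by simp [hφ]
            have hφ3 : φ (L.var (n+3)) = L.var (n+3) := by simp [hφ]
            have hφP : φ c.P = L.var (n+2) := by
              rw [c.end_P hφe hφp]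
              have : (fun j : Fin (n+1) => φ (L.var j)) = fun _ => L.var (n+2) := by
                funext j
                have := j.2
                exact hφv _ (by omega) (by omega)
              rw [this, (c.op_aff o1).const]
            rw [c.end_op hφe hφp]
            have : (fun j : Fin (n+1) => φ (c.T1 j)) =
                fun j => if j = Fin.last n then L.var (n+3) else L.var (n+2) := by
              funext j
              unfold T1
              by_cases h0 : j = 0
              · subst h0; rw [if_pos rfl, if_neg h0l, hφP]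
              · rw [if_neg h0]
                split_ifs
                · exact hφ3
                · exact hφv _ (by omega) (by omega)
            rw [this, (c.op_aff o1).single]
          · intro l hl
            simp only [L.sub_var]
            split_ifs with h
            · rw [L.occ_var]; omega
            · rw [L.occ_var]; omega
        rw [h] at h6
        exact c.unP_free hk (by omega) h6
  have h1 : L.sg c.T1 (c.Pb k) = L.sg c.T2 c.P := by
    rw [← hL2, ← hL, c.op_T1, hR, hR2]
  have h2 : dl L (L.sg c.T1 (c.Pb k)) = c.gk k := by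
    unfold gk
    refine ((dl_end L).comp (L.sg_end _)).congr' (L.sg_end _) _ ?_ ?_
    · intro l _
      show dl L (L.sg c.T1 (L.var l)) = _
      rw [L.sg_var, L.sg_var]
      unfold T1 spv
      by_cases h0 : l = 0
      · rw [if_pos h0, if_pos h0, c.end_P (dl_end L) (dlp L)]
        have h6 : (fun j : Fin (n+1) => dl L (L.var j)) =
            fun m => if m = 0 then L.var 0 else L.var (n+3) := by
          funext m
          have hm := m.2
          by_cases hm0 : m = 0
          · subst hm0; simpa using dl0 L
          · rw [if_neg hm0, dlv L _ (by omega) (by omega)]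
            intro h; apply hm0; ext; simpa using h
        rw [h6, (c.op_aff o1).single]
      · rw [if_neg h0, if_neg h0]
        split_ifs
        · rw [dlv L (by omega) (by omega) (by omega)]
        · rw [dlv L (by omega) (by omega) (by omega)]
    · intro l hl hol
      show dl L (L.sg c.T1 (L.var l)) = _
      rw [L.sg_big _ hl, L.sg_big _ hl]
      by_cases h4 : l = n + 4
      · subst h4; exact dlb L
      · have : l = n + 1 := by
          by_contra h5
          exact c.Pb_free hk (by omega) h4 hol
        subst this
        exact dlp L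
  have h3 := c.K4c hk hkP hk0
  rw [← h2, h1] at h3
  obtain ⟨l, h4, h5⟩ := L.occ_end (dl_end L) h3
  have hl4 : l = n + 4 := by
    by_contra hl
    unfold dl at h5
    rw [L.sub_var] at h5
    split_ifs at h5 with h6
    · rw [L.occ_var] at h5; omega
    · rw [L.occ_var] at h5; omega
  subst hl4
  refine c.sg_free (c.P_free (by omega)) (fun l => ?_) h4
  have hl := l.2
  unfold T2
  by_cases h : l = Fin.last n
  · subst h; rw [Function.update_self]; exact hQb
  · rw [Function.update_of_ne h, L.occ_var]; omega

/-- (K3b) -/
theorem K3b {k : F} (hk : L.Un k) (hkP : L.le (L.un c.P k) c.P) (hk0 : k ≠ L.var 0) :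
    L.le k c.P := by
  by_contra hle
  have hn := c.hn
  set e := L.un c.P k with he
  have heb : ¬ L.occ (n+4) e := c.unP_free hk (by omega)
  have hPb : ¬ L.occ (n+4) c.P := c.P_free (by omega)
  have hspP : L.sg (spv L) c.P = L.var 0 := by
    rw [c.sg_P]; unfold spv; exact (c.op_aff o1).single 0 _ _
  have hspe : L.sg (spv L) e = k := by
    rw [he, L.end_un (L.sg_end _) (L.sg_big _ (le_refl _)) hk, hspP, L.un_id]
  have hev : ∀ j, L.var j ≠ e := by
    intro j hj
    have h0 := c.occ_unP hk 0
    have h1 := c.occ_unP hk ⟨1, by omega⟩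
    rw [← he, ← hj, L.occ_var] at h0 h1
    simp at h0 h1
    omega
  have heP : c.P ≠ e := by
    intro h
    rw [← h, hspP] at hspe
    exact hk0 hspe.symm
  have hocc : L.occ (n+4) (L.theta c.i e (n+4) c.P) :=
    L.occ_theta heb hev hPb hkP (Or.inl heP)
  set Pe := L.theta c.i e (n+4) c.P with hPe
  have hPefree : ∀ {j : ℕ}, n + 1 < j → j ≠ n + 4 → ¬ L.occ j Pe := by
    intro j h h' ho
    rcases L.occ_theta_le heb hPb ho with h1 | h1
    · exact c.P_free h h1
    · exact h' h1
  have hinv : ∀ i' j' : Fin (n+1), i' ≠ j' → L.sg (c.trv i' j') Pe = Pe := by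
    intro i' j' hij
    obtain ⟨m, hm, hm'⟩ := c.third i' j'
    have hp3b : ¬ L.occ (n+4) (p3 (c.op o1) (L.var i') (L.var (n+2)) (L.var j')) := by
      refine c.p3_free (by omega) ?_ ?_ ?_ <;> rw [L.occ_var]
      · have := i'.2; omega
      · omega
      · have := j'.2; omega
    have h1 := c.theta_P_trv (i := c.i) (e := e) (b := n+4) hij
      (L.theta_of_not_le hp3b (c.not_le_p3 hm hm' (c.occ_unP hk m)))
    have hφe : L.sg (c.trv i' j') e = e := by
      rw [he, L.end_un (L.sg_end _) (L.sg_big _ (le_refl _)) hk, c.sg_P, c.op_trv hij]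
    have h2 : L.psub (L.Sg c.i e (n+4)) (L.asg (c.trv i' j')) c.P =
        L.sg (c.trv i' j') (L.theta c.i e (n+4) c.P) := by
      refine L.one_change (L.sg_end _) hφe heb (L.sg_big _ (by omega)) ?_
        (L.psub_ph _ _) c.P hPb ?_ ?_
      · intro j hj
        rcases fin_or (n := n) j with ⟨l, rfl⟩ | h
        · rw [L.sg_var]; exact c.trv_free (by omega) l
        · rw [L.sg_big _ h, L.occ_var]; omega
      · intro l _; rw [L.psub_var]; simp [sg]
      · intro s hs h
        have h3 := c.undo hij (s := s) (c.free_of_leP hs (by omega))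
        rw [h] at h3
        have h4 : L.sub (Function.update L.var (n+2) (L.var j')) e = e := by
          refine L.sub_id' (L.sub_end _) e ?_
          intro j hj
          have : j ≠ n + 2 := by
            rintro rfl; exact c.unP_free hk (by omega) hj
          simp [this]
        rw [h4] at h3
        exact h3.symm
    rw [← hPe] at h1 h2
    rw [← h2, ← h1]
  have hconst := c.inv_const (a := Pe) (hPefree (by omega) (by omega)) hinv (L.var (n+3))
  -- conjugate by (k b)
  have h1 : L.psub (L.Sg c.i k (n+4)) (L.asg (spv L)) c.P = L.var 0 := by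
    rw [c.ph_P (L.psub_ph _ _) (by rw [L.psub_var, L.asg_big _ (le_refl _)])]
    have : (fun j : Fin (n+1) => L.psub (L.Sg c.i k (n+4)) (L.asg (spv L)) (L.var j)) =
        fun j => if j = 0 then L.var 0 else L.var (n+3) := by
      funext j
      rw [L.psub_var, L.asg_fin]; rfl
    rw [this, (c.op_aff _).single]
  have hspb : ∀ l, ¬ L.occ (n+4) (spv L l) := by
    intro l
    unfold spv
    split_ifs <;> rw [L.occ_var] <;> omega
  have h2 : L.psub (L.Sg c.i k (n+4)) (L.asg (spv L)) c.P =
      L.sg (spv L) (L.theta c.i e (n+4) c.P) := by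
    refine L.one_change (L.sg_end _) hspe heb (L.sg_big _ (by omega)) ?_
      (L.psub_ph _ _) c.P hPb ?_ ?_
    · intro j hj
      rcases fin_or (n := n) j with ⟨l, rfl⟩ | h
      · rw [L.sg_var]; exact hspb l
      · rw [L.sg_big _ h, L.occ_var]; omega
    · intro l _; rw [L.psub_var]; simp [sg]
    · intro s hs h
      rcases c.spec hs hk h with h5 | h5
      · exact absurd (h5 ▸ hs) hle
      · exact h5
  rw [h1, ← hPe] at h2
  have h3 : L.un c.P (L.sg (spv L) Pe) = L.sg (fun j => if j = 0 then c.P else L.var (n+3)) Pe := by
    refine ((L.un_end _).comp (L.sg_end _)).congr' (L.sg_end _) _ ?_ ?_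
    · intro l _
      show L.un c.P (L.sg (spv L) (L.var l)) = _
      rw [L.sg_var, L.sg_var]
      unfold spv
      split_ifs
      · simp
      · rw [L.un_var _ (by omega)]
    · intro l hl _
      show L.un c.P (L.sg (spv L) (L.var l)) = _
      rw [L.sg_big _ hl, L.sg_big _ hl, L.un_var _ (by omega)]
  rw [hconst, ← h2, L.un_var0] at h3
  rw [← h3] at hocc
  exact hPb hocc

/-- the set `H` -/
def HH (k : F) : Prop := L.Un k ∧ L.le k c.P

theorem var0_Un (L : Layered F n) : L.Un (L.var 0) := by
  constructor
  · intro j hj; left; rwa [L.occ_var] at hj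
  · exact L.le_refl _

theorem HH0 : c.HH (L.var 0) := ⟨var0_Un L, by simpa [occ] using c.occP 0⟩

theorem HH_unP {k : F} (hk : c.HH k) : L.le (L.un c.P k) c.P := by
  by_cases h : k = L.var 0
  · subst h; rw [L.un_var0]; exact L.le_refl _
  · exact c.K3a hk.1 hk.2 h

theorem HH_of_unP {k : F} (hk : L.Un k) (h : L.le (L.un c.P k) c.P) : c.HH k := by
  by_cases h0 : k = L.var 0
  · subst h0; exact c.HH0
  · exact ⟨hk, c.K3b hk h h0⟩

/-- trichotomy -/
theorem tri {s : F} (hs : L.le s c.P) :
    (∀ m : Fin (n+1), ¬ L.occ m s) ∨
    (∃ m : Fin (n+1), ∃ k, c.HH k ∧ s = L.un (L.var m) k) ∨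
    (∃ k, c.HH k ∧ s = L.un c.P k) := by
  rcases c.tri0 hs with h | ⟨m, k, h1, h2, h3⟩ | ⟨k, h1, h2⟩
  · exact Or.inl h
  · exact Or.inr (Or.inl ⟨m, k, ⟨h1, c.le_P_of_ren hs h2⟩, h3⟩)
  · refine Or.inr (Or.inr ⟨k, c.HH_of_unP h1 ?_, h2⟩)
    rw [← h2]; exact hs

theorem un_m_eq_ren {k : F} (hk : L.Un k) (m : Fin (n+1)) :
    L.un (L.var m) k = L.ren (Equiv.swap (0:ℕ) m) k := by
  have hm := m.2
  refine (L.un_end _).congr (L.ren_end _) k ?_
  intro l hl
  rcases hk.1 l hl with rfl | rfl
  · simp
  · rw [L.un_var _ (by omega), L.ren_var, Equiv.swap_apply_of_ne_of_ne (by omega) (by omega)]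

theorem HH_un_var {k : F} (hk : c.HH k) (m : Fin (n+1)) : L.le (L.un (L.var m) k) c.P := by
  rw [un_m_eq_ren hk.1 m]
  have := L.ren_le (Equiv.swap (0:ℕ) m) hk.2
  have h2 := c.ren_P_swap 0 m
  simp only [Fin.val_zero] at h2
  rwa [h2] at this

end Ctx

end Pool.Agent.Helper470.Dim
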