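import Pool.Agent.Helper470.Dim.Core4

set_option autoImplicit false

namespace Pool.Agent.Helper470.Dim

open Classical Layered

namespace Ctx

variable {F : Type} {n : ℕ} {L : Layered F n} (c : Ctx L)

noncomputable def psv (k : F) : F → F := L.psub (L.Sg c.i k (n+4)) (L.asg (spv L))

noncomputable def th (k : F) : F → F := L.theta c.i k (n+4)

theorem psv_ph (k : F) : L.PH (L.Sg c.i k (n+4)) (c.psv k) := L.psub_ph _ _

theorem psv_P (k : F) : c.psv k c.P = L.var 0 := by
  unfold psv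
  rw [c.ph_P (L.psub_ph _ _) (by rw [L.psub_var, L.asg_big _ (le_refl _)])]
  have : (fun j : Fin (n+1) => L.psub (L.Sg c.i k (n+4)) (L.asg (spv L)) (L.var j)) =
      fun j => if j = 0 then L.var 0 else L.var (n+3) := by
    funext j
    rw [L.psub_var, L.asg_fin]; rfl
  rw [this, (c.op_aff _).single]

theorem spv_b (L : Layered F n) (l : Fin (n+1)) : ¬ L.occ (n+4) (spv L l) := by
  unfold spv
  split_ifs <;> rw [L.occ_var] <;> omega

theorem sgv0 (L : Layered F n) : L.sg (spv L) (L.var 0) = L.var 0 := by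
  have := L.sg_var (spv L) 0
  simpa [spv] using this

theorem sgv_k {k : F} (hk : L.Un k) : L.sg (spv L) k = k := by
  rw [L.end_eq_un (L.sg_end _) (L.sg_big _ (le_refl _)) hk, sgv0, L.un_id]

theorem sgv_P : L.sg (spv L) c.P = L.var 0 := by
  rw [c.sg_P]; unfold spv; exact (c.op_aff o1).single 0 _ _

theorem bt_comm {k : F} (hk : L.Un k) (x : F) :
    L.bt k (n+4) (L.sg (spv L) x) = L.sg (spv L) (L.bt k (n+4) x) := by
  refine ((L.bt_end k (n+4)).comp (L.sg_end _)).congr' ((L.sg_end _).comp (L.bt_end k (n+4))) x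
    ?_ ?_
  · intro j _
    have hj := j.2
    show L.bt k (n+4) (L.sg (spv L) (L.var j)) = L.sg (spv L) (L.bt k (n+4) (L.var j))
    rw [L.sg_var, L.bt_free (spv_b L j), L.bt_var (by omega), L.sg_var]
  · intro l hl _
    show L.bt k (n+4) (L.sg (spv L) (L.var l)) = L.sg (spv L) (L.bt k (n+4) (L.var l))
    by_cases h : l = n + 4
    · subst h
      rw [L.sg_big _ (by omega), L.bt_b, sgv_k hk]
    · rw [L.sg_big _ hl, L.bt_var h, L.sg_big _ hl]

theorem unP_ne {k : F} (hk : L.Un k) : L.un c.P k ≠ k := by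
  intro h
  have hn := c.hn
  have h1 := c.occ_unP hk ⟨1, by omega⟩
  rw [h] at h1
  exact un_free hk (by simp) (by simp; omega) h1

theorem key7 {k : F} (hk : L.Un k) {r : F} (hr : L.le r c.P) (h1 : r ≠ k)
    (h2 : r ≠ L.un c.P k) :
    L.sg (spv L) (c.th k r) ≠ k ∧ L.sg (spv L) (c.th k r) ≠ L.var (n+4) := by
  have h0 : L.bt k (n+4) (L.sg (spv L) (c.th k r)) = L.sg (spv L) r := by
    rw [bt_comm hk]
    unfold th
    rw [L.bt_theta_free (bt_fix hk) (c.free_of_leP hr (by omega))]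
  constructor
  · intro h
    rw [h, L.bt_free (bt_fix hk)] at h0
    rcases c.spec hr hk h0.symm with h3 | h3 <;> contradiction
  · intro h
    rw [h, L.bt_b] at h0
    rcases c.spec hr hk h0.symm with h3 | h3 <;> contradiction

/-- agreement on a support element (world `c.i`) -/
theorem agree7 {k : F} (hk : L.Un k) {r : F} (hrG : r ∈ (L.W c.i).G) (hr : L.le r c.P)
    (h2 : r ≠ L.un c.P k) (ih : c.psv k r = L.sg (spv L) (c.th k r)) :
    Equiv.swap k (L.var (n+4)) (c.psv k r) =
      L.sg (spv L) (Equiv.swap k (L.var (n+4)) (c.th k r)) := by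
  rw [ih]
  by_cases hre : r = k
  · subst hre
    unfold th
    rw [L.theta_e_in (bt_fix hk) hrG, sgv_k hk]
    rw [Equiv.swap_apply_left, L.sg_big _ (by omega)]
  · have h3 := L.theta_swap_of_ne (i := c.i) (bt_fix hk) (c.free_of_leP hr (by omega)) hre
    unfold th
    rw [h3]
    obtain ⟨h4, h5⟩ := c.key7 hk hr hre h2
    exact L.swap_ne h4 h5

/-- (M) -/
theorem M1 {k : F} (hk : L.Un k) {s : F} (hs : L.le s c.P) (hn : ¬ L.le (L.un c.P k) s) :
    c.psv k s = L.sg (spv L) (c.th k s) := by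
  induction s using L.induct with
  | _ s ih =>
  have ih' : ∀ r, L.prec r s → c.psv k r = L.sg (spv L) (c.th k r) := fun r hp =>
    ih r hp (L.le_trans (L.le_of_prec hp) hs) (fun h => hn (L.le_trans h (L.le_of_prec hp)))
  rcases L.cases_layer' c.i s with ⟨j, rfl⟩ | hi | hi
  · unfold psv th
    rw [L.psub_var, L.theta_var]; simp [sg]
  · have h1 : Equiv.swap k (L.var (n+4)) (c.psv k s) =
        L.sg (spv L) (Equiv.swap k (L.var (n+4)) (c.th k s)) := by
      refine (L.W c.i).hext _ (c.psv_ph k).conj _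
        ((L.W c.i).hcomp _ (L.sg_end _ c.i) _ (L.theta_ph c.i k (n+4)).conj) s ?_
      intro r hr
      have hp := (L.prec_iff hi).2 hr
      refine c.agree7 hk ((L.W c.i).sub _ hr) (L.le_trans (L.le_of_prec hp) hs) ?_ (ih' r hp)
      rintro rfl
      exact hn (L.le_of_prec hp)
    by_cases hse : s = k
    · subst hse
      have h2 : c.th s s = L.var (n+4) := L.theta_e_out (bt_fix hk) hi
      rw [h2] at h1 ⊢
      rw [Equiv.swap_apply_right, sgv_k hk] at h1
      rw [L.sg_big _ (by omega)]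
      have h4 := L.eq_swap h1
      rw [h4]; simp
    · have h3 := L.theta_swap_of_ne (i := c.i) (bt_fix hk) (c.free_of_leP hs (by omega)) hse
      unfold th at h1
      rw [h3] at h1
      have hne : s ≠ L.un c.P k := by
        rintro rfl; exact hn (L.le_refl _)
      obtain ⟨h4, h5⟩ := c.key7 hk hs hse hne
      unfold th at h4 h5 ⊢
      rw [L.eq_swap h1]
      exact L.swap_ne h4 h5
  · refine (L.W (!c.i)).hext _ (c.psv_ph k).oth _
      ((L.W (!c.i)).hcomp _ (L.sg_end _ _) _ (L.theta_ph c.i k (n+4)).oth) s ?_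
    intro r hr
    exact ih' r ((L.prec_iff hi).2 hr)

/-- (M2), first case -/
theorem M2a {k : F} (hk : c.HH k) (h : L.un c.P k ∉ (L.W (!c.i)).G) :
    c.psv k (L.un c.P k) = L.sg (spv L) (c.th k (L.un c.P k)) := by
  refine (L.W (!c.i)).hext _ (c.psv_ph k).oth _
    ((L.W (!c.i)).hcomp _ (L.sg_end _ _) _ (L.theta_ph c.i k (n+4)).oth) _ ?_
  intro r hr
  have hp := (L.prec_iff h).2 hr
  refine c.M1 hk.1 (L.le_trans (L.le_of_prec hp) (c.HH_unP hk)) ?_
  intro h'
  exact L.lt_irrefl _ (L.lt_of_le_prec h' hp)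

/-- (M2), second case -/
theorem M2b {k : F} (hk : c.HH k) (h : L.un c.P k ∉ (L.W c.i).G) :
    Equiv.swap k (L.var (n+4)) (c.psv k (L.un c.P k)) =
      L.sg (spv L) (c.th k (L.un c.P k)) := by
  have h1 : Equiv.swap k (L.var (n+4)) (c.psv k (L.un c.P k)) =
      L.sg (spv L) (Equiv.swap k (L.var (n+4)) (c.th k (L.un c.P k))) := by
    refine (L.W c.i).hext _ (c.psv_ph k).conj _
      ((L.W c.i).hcomp _ (L.sg_end _ c.i) _ (L.theta_ph c.i k (n+4)).conj) _ ?_
    intro r hr
    have hp := (L.prec_iff h).2 hr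
    have hrP := L.le_trans (L.le_of_prec hp) (c.HH_unP hk)
    have hnle : ¬ L.le (L.un c.P k) r := fun h' => L.lt_irrefl _ (L.lt_of_le_prec h' hp)
    refine c.agree7 hk.1 ((L.W c.i).sub _ hr) hrP ?_ (c.M1 hk.1 hrP hnle)
    intro h'
    exact hnle (h' ▸ L.le_refl _)
  have h3 := L.theta_swap_of_ne (i := c.i) (bt_fix hk.1)
    (c.unP_free hk.1 (j := n+4) (by omega)) (c.unP_ne hk.1)
  unfold th at h1 ⊢
  rw [h3] at h1
  exact h1

/-- (M3) -/
theorem M3 (k : F) {h : F} (hh : L.Un h) : c.psv k (L.un c.P h) = c.th k h := by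
  refine ((c.psv_ph k).comp (L.un_end _)).congr (L.theta_ph c.i k (n+4)) h ?_
  intro l hl
  show c.psv k (L.un c.P (L.var l)) = _
  rcases hh.1 l hl with rfl | rfl
  · rw [L.un_var0, c.psv_P, L.theta_var]
  · rw [L.un_var _ (by omega), L.theta_var]
    unfold psv
    rw [L.psub_var, L.asg_big _ (le_refl _)]

theorem Un_of_le {h s : F} (hh : L.Un h) (hs : L.le s h) (h0 : L.occ 0 s) : L.Un s :=
  ⟨fun j hj => hh.1 j (L.occ_le hj hs), h0⟩

/-- (M4) -/
theorem M4 {k : F} (hk : L.Un k) {h : F} (hh : L.Un h) :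
    c.th k (L.un c.P h) = L.un (c.Pb k) h := by
  have hn := c.hn
  refine L.no_change (i := c.i) (e := k) (b := n+4) (L.un_end _)
    ((L.theta_ph c.i k (n+4)).comp (L.un_end c.P)) h ?_ ?_
  · intro l hl
    show L.theta c.i k (n+4) (L.un c.P (L.var l)) = _
    rcases hh.1 l hl with rfl | rfl
    · rw [L.un_var0, L.un_var0]; rfl
    · rw [L.un_var _ (by omega), L.un_var _ (by omega), L.theta_var]
  · intro s hs
    have hbt : L.bt k (n+4) (L.un (c.Pb k) s) = L.un c.P s := by
      refine ((L.bt_end _ _).comp (L.un_end _)).congr (L.un_end _) s ?_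
      intro l hl
      show L.bt k (n+4) (L.un (c.Pb k) (L.var l)) = _
      rcases hh.1 l (L.occ_le hl hs) with rfl | rfl
      · rw [L.un_var0, L.un_var0]
        exact L.bt_theta_free (bt_fix hk) (c.P_free (by omega))
      · rw [L.un_var _ (by omega), L.un_var _ (by omega), L.bt_var (by omega)]
    have key : L.un c.P s ≠ k := by
      intro hbad
      by_cases h0 : L.occ 0 s
      · have h1 := c.occ_unP (Un_of_le hh hs h0) ⟨1, by omega⟩
        rw [hbad] at h1
        exact un_free hk (by simp) (by simp; omega) h1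
      · have h1 : L.un c.P s = s := by
          refine L.sub_id' (L.un_end _) s ?_
          intro l hl
          refine L.un_var _ ?_
          rintro rfl; exact h0 hl
        rw [h1] at hbad
        subst hbad
        exact h0 hk.2
    constructor
    · intro h1
      rw [h1, L.bt_free (bt_fix hk)] at hbt
      exact key hbt.symm
    · intro h1
      rw [h1, L.bt_b] at hbt
      exact key hbt.symm

/-- (M5) -/
theorem M5 {k : F} (hk : L.Un k) {h : F} (hh : L.Un h) :
    L.sg (spv L) (c.th k (L.un c.P h)) = L.un (c.gk k) h := by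
  rw [c.M4 hk hh, L.end_un (L.sg_end _) (L.sg_big _ (le_refl _)) hh]
  rfl

/-- (K7b) -/
theorem K7b {k h : F} (hk : c.HH k) (hh : c.HH h) (hn : ¬ L.le (L.un c.P k) (L.un c.P h)) :
    L.un (c.gk k) h = c.th k h := by
  rw [← c.M5 hk.1 hh.1, ← c.M1 hk.1 (c.HH_unP hh) hn, c.M3 k hh.1]

/-- coordinates -/
def Co (k : F) : Prop :=
  (k ∉ (L.W c.i).G ∧ L.un c.P k ∉ (L.W (!c.i)).G) ∨ (k ∈ (L.W c.i).G ∧ L.un c.P k ∉ (L.W c.i).G)

/-- (K7a) -/
theorem K7a {k : F} (hk : c.HH k) (hc : c.Co k) : L.un (c.gk k) k = L.var (n+4) := by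
  rw [← c.M5 hk.1 hk.1]
  rcases hc with ⟨h1, h2⟩ | ⟨h1, h2⟩
  · rw [← c.M2a hk h2, c.M3 k hk.1]
    exact L.theta_e_out (bt_fix hk.1) h1
  · rw [← c.M2b hk h2, c.M3 k hk.1]
    unfold th
    rw [L.theta_e_in (bt_fix hk.1) h1]
    simp

theorem Co0 : c.Co (L.var 0) := by
  right
  refine ⟨L.var_mem _ _, ?_⟩
  rw [L.un_var0]; exact c.hPi

/-- (K6) -/
theorem K6 : ¬ L.occ 0 (c.th (L.var 0) c.P) := by
  have hn := c.hn
  have h1 := c.K7a c.HH0 c.Co0
  rw [L.un_var0] at h1
  have h2 := c.K4b (var0_Un L)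
  rw [h1] at h2
  show ¬ L.occ 0 (c.Pb (L.var 0))
  rw [h2]
  refine c.op_free (by omega) ?_
  intro j
  by_cases h : j = 0
  · subst h; rw [Function.update_self, L.occ_var]; omega
  · rw [Function.update_of_ne h, L.occ_var]
    intro h'; apply h; ext; simpa using h'.symm

omit c in
theorem occ0_theta {L : Layered F n} {i : Bool} {b : ℕ} (hb : b ≠ 0) {a s : F} (ha : ¬ L.occ b a)
    (hs : L.le s a) (hsG : s ∉ (L.W (!i)).G) (h0 : L.var 0 ∈ (L.W (!i)).supp s) :
    L.occ 0 (L.theta i (L.var 0) b a) := by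
  have he : ¬ L.occ b (L.var 0) := by rw [L.occ_var]; exact hb
  induction a using L.induct with
  | _ a ih =>
  rcases L.le_cases.1 hs with rfl | ⟨r, hp, hr⟩
  · obtain ⟨h1, h2⟩ := (L.theta_struct (i := i) he ha).1 hsG
    have h3 : L.var 0 ∈ (L.W (!i)).supp (L.theta i (L.var 0) b s) := by
      rw [h2]; exact ⟨L.var 0, h0, L.theta_var _ _ _ _⟩
    exact L.le_of_prec ((L.prec_iff h1).2 h3)
  · have hrb := L.free_of_prec ha hp
    have ih' := ih r hp hrb hr
    have hrv : ∀ j, L.var j ≠ r := by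
      rintro j rfl
      have := L.le_var hr
      subst this
      exact hsG (L.var_mem _ _)
    obtain ⟨k, hk, hrk⟩ := hp
    by_cases hki : k = i
    · subst hki
      have hae : a ≠ L.var 0 := by
        rintro rfl; exact hk (L.var_mem _ _)
      obtain ⟨h1, h2⟩ := (L.theta_struct (i := k) he ha).2 hk hae
      have h3 : Equiv.swap (L.var 0) (L.var b) (L.theta k (L.var 0) b r) ∈
          (L.W k).supp (L.theta k (L.var 0) b a) := by
        rw [h2]; exact ⟨r, hrk, rfl⟩
      rw [L.theta_swap_of_ne he hrb (hrv 0).symm] at h3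
      exact L.le_trans ih' (L.le_of_prec ((L.prec_iff h1).2 h3))
    · have hki' : k = !i := by cases i <;> cases k <;> simp_all
      subst hki'
      obtain ⟨h1, h2⟩ := (L.theta_struct (i := i) he ha).1 hk
      have h3 : L.theta i (L.var 0) b r ∈ (L.W (!i)).supp (L.theta i (L.var 0) b a) := by
        rw [h2]; exact ⟨r, hrk, rfl⟩
      exact L.le_trans ih' (L.le_of_prec ((L.prec_iff h1).2 h3))

/-- (K6'): `x_0` is never an input of the other world -/
theorem K6' {s : F} (hs : L.le s c.P) (hsG : s ∉ (L.W (!c.i)).G) :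
    L.var 0 ∉ (L.W (!c.i)).supp s := by
  intro h0
  exact c.K6 (occ0_theta (by omega) (c.P_free (by omega)) hs hsG h0)

/-! linear part -/

noncomputable def l0 (L : Layered F n) : F → ZMod n :=
  (L.exists_lin (fun j => if j = 0 then 1 else 0)).choose

theorem l0_lin (L : Layered F n) : L.LinJ (l0 L) :=
  (L.exists_lin (fun j => if j = 0 then 1 else 0)).choose_spec.1

theorem l0_var (L : Layered F n) (j : ℕ) : l0 L (L.var j) = if j = 0 then 1 else 0 :=
  (L.exists_lin (fun j => if j = 0 then 1 else 0)).choose_spec.2 j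

omit c in
theorem lin_un {l : F → ZMod n} (hl : L.LinJ l) (hlp : l (L.var (n+1)) = 0) {k : F}
    (hk : L.Un k) (w : F) : l (L.un w k) = l w * l0 L k := by
  have h1 : L.LinJ (fun x => l w * l0 L x) := fun i => (L.W i).lsmul _ _ (l0_lin L i)
  refine (hl.comp (L.un_end w)).congr h1 k ?_
  intro j hj
  show l (L.un w (L.var j)) = l w * l0 L (L.var j)
  rcases hk.1 j hj with rfl | rfl
  · rw [L.un_var0, l0_var]; simp
  · rw [L.un_var _ (by omega), hlp, l0_var]; simp

noncomputable def lb (L : Layered F n) : F → ZMod n :=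
  (L.exists_lin (fun j => if j = n+4 then 1 else 0)).choose

theorem lb_lin (L : Layered F n) : L.LinJ (lb L) :=
  (L.exists_lin (fun j => if j = n+4 then 1 else 0)).choose_spec.1

theorem lb_var (L : Layered F n) (j : ℕ) : lb L (L.var j) = if j = n+4 then 1 else 0 :=
  (L.exists_lin (fun j => if j = n+4 then 1 else 0)).choose_spec.2 j

theorem lb_free {a : F} (ha : ¬ L.occ (n+4) a) : lb L a = 0 := by
  refine (lb_lin L).congr (fun i => (L.W i).lzero) a ?_
  intro j hj
  rw [lb_var, if_neg]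
  rintro rfl; exact ha hj

/-- (K8) -/
theorem K8 {k : F} (hk : c.HH k) (hc : c.Co k) : lb L (c.gk k) * l0 L k = 1 := by
  have h1 := lin_un (lb_lin L) (by rw [lb_var]; simp) hk.1 (c.gk k)
  rw [c.K7a hk hc, lb_var] at h1
  simpa using h1.symm

/-- (K9) -/
theorem K9 {k h : F} (hk : c.HH k) (hck : c.Co k) (hh : c.HH h) (hch : c.Co h) :
    L.le (L.un c.P k) (L.un c.P h) ∨ L.le k h := by
  by_contra hcon
  push Not at hcon
  obtain ⟨h1, h2⟩ := hcon
  have hn := c.hn
  have h3 := c.K7b hk hh h1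
  have h4 : c.th k h = h := L.theta_of_not_le (bt_fix hh.1) h2
  rw [h4] at h3
  have h5 := lin_un (lb_lin L) (by rw [lb_var]; simp) hh.1 (c.gk k)
  rw [h3, lb_free (bt_fix hh.1)] at h5
  have h6 := c.K8 hk hck
  have h7 := c.K8 hh hch
  haveI : Fact (1 < n) := ⟨by omega⟩
  have h8 : (0 : ZMod n) = 1 := by
    calc (0 : ZMod n) = (0 * l0 L k) * lb L (c.gk h) := by ring
      _ = (lb L (c.gk k) * l0 L k) * (lb L (c.gk h) * l0 L h) := by rw [h5]; ring
      _ = 1 := by rw [h6, h7]; ring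
  exact zero_ne_one h8

end Ctx

end Pool.Agent.Helper470.Dim
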