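import Pool.Agent.Helper470.Dim.Core5

set_option autoImplicit false

namespace Pool.Agent.Helper470.Dim

open Classical Layered

namespace World

variable {F : Type} {n : ℕ} (W : World F n)

noncomputable def co (g : F) : F → ZMod n := (W.llift (fun x => if x = g then 1 else 0)).choose

theorem co_lin (g : F) : W.co g ∈ W.Lin :=
  (W.llift (fun x => if x = g then 1 else 0)).choose_spec.1

theorem co_gen (g : F) {x : F} (hx : x ∈ W.G) : W.co g x = if x = g then 1 else 0 :=
  (W.llift (fun x => if x = g then 1 else 0)).choose_spec.2 x hx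

theorem co_zero {g a : F} (h : g ∉ W.supp a) : W.co g a = 0 := by
  refine W.lext _ (W.co_lin g) _ W.lzero a ?_
  intro r hr
  rw [W.co_gen g (W.sub a hr), if_neg]
  rintro rfl; exact h hr

theorem lin_sum (S : Finset F) (m : F → ZMod n) (f : F → F → ZMod n) (hf : ∀ g, f g ∈ W.Lin) :
    (fun x => ∑ g ∈ S, m g * f g x) ∈ W.Lin := by
  induction S using Finset.induction_on with
  | empty => simpa using W.lzero
  | insert g S hg ih =>
    have := W.ladd _ (W.lsmul (m g) _ (hf g)) _ ih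
    simpa [Finset.sum_insert hg] using this

theorem expand {μ : F → ZMod n} (hμ : μ ∈ W.Lin) (a : F) :
    μ a = ∑ g ∈ (W.fin a).toFinset, μ g * W.co g a := by
  refine W.lext _ hμ _ (W.lin_sum (W.fin a).toFinset μ W.co W.co_lin) a ?_
  intro r hr
  have h1 : ∀ g, μ g * W.co g r = if r = g then μ g else 0 := by
    intro g
    rw [W.co_gen g (W.sub a hr)]
    split_ifs <;> simp
  simp only [h1]
  rw [Finset.sum_ite_eq]
  simp [hr]

end World

theorem exists_perm_of_mul_eq_one {ι : Type} [Fintype ι] [DecidableEq ι] {R : Type} [CommRing R] [Nontrivial R]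
    (A B : Matrix ι ι R) (h : A * B = 1) : ∃ π : Equiv.Perm ι, ∀ i, A (π i) i ≠ 0 := by
  have h1 : A.det ≠ 0 := by
    intro h0
    have := congrArg Matrix.det h
    rw [Matrix.det_mul, h0, Matrix.det_one, zero_mul] at this
    exact zero_ne_one this
  rw [Matrix.det_apply] at h1
  obtain ⟨π, _, hπ⟩ := Finset.exists_ne_zero_of_sum_ne_zero h1
  refine ⟨π, fun i hi => hπ ?_⟩
  have h2 : ∏ j, A (π j) j = 0 := Finset.prod_eq_zero (Finset.mem_univ i) hi
  rw [h2, smul_zero]

theorem card_le_of_mul {ι κ : Type} [Fintype ι] [DecidableEq ι] [Fintype κ] {n : ℕ} (hn : 2 ≤ n)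
    (E : Matrix ι κ (ZMod n)) (R : Matrix κ ι (ZMod n)) (h : E * R = 1) :
    Fintype.card ι ≤ Fintype.card κ := by
  have : NeZero n := ⟨by omega⟩
  have hinj : Function.Injective (fun v : ι → ZMod n => R.mulVec v) := by
    intro v w hvw
    have h1 := congrArg (fun x => E.mulVec x) hvw
    simp only [Matrix.mulVec_mulVec, h, Matrix.one_mulVec] at h1
    exact h1
  have h2 := Fintype.card_le_of_injective _ hinj
  simp only [Fintype.card_fun, ZMod.card] at h2
  exact (Nat.pow_le_pow_iff_right (by omega)).1 h2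

theorem exists_bij {ι κ : Type} [Fintype ι] [DecidableEq ι] [Fintype κ] {n : ℕ} (hn : 2 ≤ n)
    (E : Matrix ι κ (ZMod n)) (R : Matrix κ ι (ZMod n)) (h : E * R = 1)
    (hc : Fintype.card ι = Fintype.card κ) : ∃ σ : ι ≃ κ, ∀ i, E i (σ i) ≠ 0 := by
  have : Fact (1 < n) := ⟨by omega⟩
  let ε : ι ≃ κ := Fintype.equivOfCardEq hc
  have h1 : (E.submatrix id ε) * (R.submatrix ε id) = 1 := by
    rw [Matrix.submatrix_mul_equiv, h]
    ext i j
    simp [Matrix.one_apply]
  obtain ⟨π, hπ⟩ := exists_perm_of_mul_eq_one _ _ h1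
  refine ⟨π.symm.trans ε, fun i => ?_⟩
  have := hπ (π.symm i)
  simpa using this

namespace Ctx

variable {F : Type} {n : ℕ} {L : Layered F n} (c : Ctx L)

def GX (a : Bool) : Set F := {h | c.HH h ∧ h ∉ (L.W (!a)).G ∧ L.un c.P h ∉ (L.W a).G}

def GP (a : Bool) : Set F := {k | c.HH k ∧ k ∈ (L.W (!a)).G ∧ L.un c.P k ∉ (L.W (!a)).G}

theorem GX_fin (a : Bool) : (c.GX a).Finite :=
  (L.finite_le c.P).subset (fun _ h => h.1.2)

theorem GP_fin (a : Bool) : (c.GP a).Finite :=
  (L.finite_le c.P).subset (fun _ h => h.1.2)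

noncomputable instance (a : Bool) : Fintype (c.GX a) := (c.GX_fin a).fintype
noncomputable instance (a : Bool) : Fintype (c.GP a) := (c.GP_fin a).fintype

theorem unP_inj {h h' : F} (hh : L.Un h) (hh' : L.Un h') (he : L.un c.P h = L.un c.P h') :
    h = h' := by
  have h1 := congrArg (L.sg (spv L)) he
  rw [L.end_un (L.sg_end _) (L.sg_big _ (le_refl _)) hh,
    L.end_un (L.sg_end _) (L.sg_big _ (le_refl _)) hh', c.sgv_P, L.un_id, L.un_id] at h1
  exact h1

noncomputable def Em (a : Bool) : Matrix (c.GX a) (c.GP a) (ZMod n) :=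
  fun h k => (L.W (!a)).co k.1 h.1

noncomputable def Rm (a : Bool) : Matrix (c.GP a) (c.GX a) (ZMod n) :=
  fun k h => (L.W (!a)).co (L.un c.P h.1) (L.un c.P k.1)

theorem ER (a : Bool) : c.Em a * c.Rm a = 1 := by
  ext ⟨h, hh⟩ ⟨h', hh'⟩
  rw [Matrix.mul_apply]
  simp only [Em, Rm]
  set W := L.W (!a) with hW
  have hμ : (fun x => W.co (L.un c.P h') (L.un c.P x)) ∈ W.Lin :=
    W.lcomp _ (W.co_lin _) _ (L.un_end c.P (!a))
  have hmemG : L.un c.P h ∈ W.G := L.mem_other hh.2.2
  have h1 : W.co (L.un c.P h') (L.un c.P h) =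
      ∑ g ∈ (W.fin h).toFinset, W.co (L.un c.P h') (L.un c.P g) * W.co g h := W.expand hμ h
  rw [W.co_gen _ hmemG] at h1
  have h2 : (if L.un c.P h = L.un c.P h' then (1 : ZMod n) else 0) =
      (1 : Matrix (c.GX a) (c.GX a) (ZMod n)) ⟨h, hh⟩ ⟨h', hh'⟩ := by
    rw [Matrix.one_apply]
    by_cases he : h = h'
    · subst he; simp
    · rw [if_neg, if_neg]
      · intro h3; exact he (congrArg Subtype.val h3)
      · intro h3; exact he (c.unP_inj hh.1.1 hh'.1.1 h3)
  rw [← h2, h1]
  -- compare the two sums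
  rw [← Finset.sum_subtype (s := (c.GP_fin a).toFinset) (p := fun k => k ∈ c.GP a)
    (by intro x; simp) (fun k => W.co k h * W.co (L.un c.P h') (L.un c.P k))]
  have hsub : ∀ k ∈ (c.GP_fin a).toFinset, k ∉ (W.fin h).toFinset →
      W.co k h * W.co (L.un c.P h') (L.un c.P k) = 0 := by
    intro k _ hk
    rw [W.co_zero (by simpa using hk), zero_mul]
  have hsub' : ∀ g ∈ (W.fin h).toFinset, g ∉ (c.GP_fin a).toFinset →
      W.co (L.un c.P h') (L.un c.P g) * W.co g h = 0 := by
    intro g hg hgP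
    rw [Set.Finite.mem_toFinset] at hg hgP
    have hp : L.prec g h := (L.prec_iff hh.2.1).2 hg
    have hgG : g ∈ W.G := W.sub h hg
    have hgP' : L.le g c.P := L.le_trans (L.le_of_prec hp) hh.1.2
    by_cases h0 : L.occ 0 g
    · have hUn : L.Un g := Un_of_le hh.1.1 (L.le_of_prec hp) h0
      have hHH : c.HH g := ⟨hUn, hgP'⟩
      have h3 : L.un c.P g ∈ W.G := by
        by_contra h4
        exact hgP ⟨hHH, hgG, h4⟩
      rw [W.co_gen _ h3, if_neg, zero_mul]
      intro h4
      have := c.unP_inj hUn hh'.1.1 h4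
      subst this
      exact hh'.2.1 hgG
    · have h3 : L.un c.P g = g := by
        refine L.sub_id' (L.un_end _) g ?_
        intro l hl
        refine L.un_var _ ?_
        rintro rfl; exact h0 hl
      rw [h3, W.co_gen _ hgG, if_neg, zero_mul]
      rintro rfl
      exact h0 (by simpa using c.occ_unP hh'.1.1 0)
  have e1 : ∑ k ∈ (c.GP_fin a).toFinset, W.co k h * W.co (L.un c.P h') (L.un c.P k) =
      ∑ k ∈ (c.GP_fin a).toFinset ∩ (W.fin h).toFinset,
        W.co k h * W.co (L.un c.P h') (L.un c.P k) := by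
    symm
    refine Finset.sum_subset Finset.inter_subset_left ?_
    intro x hx hx'
    exact hsub x hx (fun hc => hx' (Finset.mem_inter.2 ⟨hx, hc⟩))
  have e2 : ∑ g ∈ (W.fin h).toFinset, W.co (L.un c.P h') (L.un c.P g) * W.co g h =
      ∑ g ∈ (c.GP_fin a).toFinset ∩ (W.fin h).toFinset,
        W.co (L.un c.P h') (L.un c.P g) * W.co g h := by
    symm
    refine Finset.sum_subset Finset.inter_subset_right ?_
    intro x hx hx'
    exact hsub' x hx (fun hc => hx' (Finset.mem_inter.2 ⟨hc, hx⟩))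
  rw [e1, e2]
  refine Finset.sum_congr rfl ?_
  intro x _
  ring

theorem var_of_Un {k : F} (hk : L.Un k) {j : ℕ} (h : L.var j = k) : k = L.var 0 := by
  have := hk.2
  rw [← h, L.occ_var] at this
  rw [← h, ← this]

theorem GP_i : c.GP c.i = c.GX (!c.i) := by
  ext k
  simp only [GP, GX, Set.mem_ofPred_eq, Bool.not_not]
  constructor
  · rintro ⟨h1, h2, h3⟩
    refine ⟨h1, ?_, h3⟩
    intro h4
    have : ∀ i', k ∈ (L.W i').G := by
      intro i'
      by_cases hi : i' = c.i
      · subst hi; exact h4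
      · have : i' = !c.i := by
          revert hi; cases i' <;> cases c.i <;> simp
        rw [this]; exact h2
    obtain ⟨j, hj⟩ := (L.vars k).1 this
    have hk0 := var_of_Un h1.1 hj
    rw [hk0, L.un_var0] at h3
    exact c.hPi (by simpa using L.mem_other h3)
  · rintro ⟨h1, h2, h3⟩
    exact ⟨h1, L.mem_other h2, h3⟩

theorem GP_ni : c.GP (!c.i) = insert (L.var 0) (c.GX c.i) := by
  ext k
  simp only [GP, GX, Set.mem_ofPred_eq, Bool.not_not, Set.mem_insert_iff]
  constructor
  · rintro ⟨h1, h2, h3⟩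
    by_cases h4 : k ∈ (L.W (!c.i)).G
    · left
      have : ∀ i', k ∈ (L.W i').G := by
        intro i'
        by_cases hi : i' = c.i
        · subst hi; exact h2
        · have : i' = !c.i := by
            revert hi; cases i' <;> cases c.i <;> simp
          rw [this]; exact h4
      obtain ⟨j, hj⟩ := (L.vars k).1 this
      exact var_of_Un h1.1 hj
    · right
      exact ⟨h1, h4, h3⟩
  · rintro (rfl | ⟨h1, h2, h3⟩)
    · refine ⟨c.HH0, L.var_mem _ _, ?_⟩
      rw [L.un_var0]; exact c.hPi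
    · refine ⟨h1, ?_, h3⟩
      simpa using L.mem_other h2

theorem var0_notin (a : Bool) : L.var 0 ∉ c.GX a := fun h => h.2.1 (L.var_mem _ _)

theorem exists_world : ∃ a : Bool, ∃ σ : c.GX a ≃ c.GP a, ∀ h, (σ h).1 ∈ (L.W (!a)).supp h.1 := by
  have hn := c.hn
  have key : ∀ a, Fintype.card (c.GX a) = Fintype.card (c.GP a) →
      ∃ σ : c.GX a ≃ c.GP a, ∀ h, (σ h).1 ∈ (L.W (!a)).supp h.1 := by
    intro a ha
    obtain ⟨σ, hσ⟩ := exists_bij hn _ _ (c.ER a) ha
    refine ⟨σ, fun h => ?_⟩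
    by_contra hcon
    exact hσ h ((L.W (!a)).co_zero hcon)
  have h1 := card_le_of_mul hn _ _ (c.ER c.i)
  have h2 := card_le_of_mul hn _ _ (c.ER (!c.i))
  have h3 : Fintype.card (c.GP c.i) = Fintype.card (c.GX (!c.i)) := by
    rw [← Nat.card_eq_fintype_card, ← Nat.card_eq_fintype_card, Nat.card_coe_set_eq, Nat.card_coe_set_eq, c.GP_i]
  have h4 : Fintype.card (c.GP (!c.i)) = Fintype.card (c.GX c.i) + 1 := by
    rw [← Nat.card_eq_fintype_card, ← Nat.card_eq_fintype_card, Nat.card_coe_set_eq, Nat.card_coe_set_eq, c.GP_ni,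
      Set.ncard_insert_of_notMem (c.var0_notin _) (c.GX_fin _)]
  by_cases h5 : Fintype.card (c.GX c.i) = Fintype.card (c.GP c.i)
  · exact ⟨c.i, key _ h5⟩
  · exact ⟨!c.i, key _ (by omega)⟩

theorem Co_GX {a : Bool} {h : F} (hh : h ∈ c.GX a) : c.Co h := by
  obtain ⟨h1, h2, h3⟩ := hh
  by_cases ha : a = c.i
  · subst ha
    right
    exact ⟨by simpa using L.mem_other h2, h3⟩
  · have : a = !c.i := by
      revert ha; cases a <;> cases c.i <;> simp
    subst this
    left
    exact ⟨by simpa using h2, h3⟩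

theorem Co_GP {a : Bool} {k : F} (hk : k ∈ c.GP a) : c.Co k := by
  by_cases ha : a = c.i
  · subst ha
    rw [c.GP_i] at hk
    exact c.Co_GX hk
  · have : a = !c.i := by
      revert ha; cases a <;> cases c.i <;> simp
    subst this
    obtain ⟨h1, h2, h3⟩ := hk
    right
    exact ⟨by simpa using h2, by simpa using h3⟩

theorem lt_unP {a : Bool} {h k : F} (hh : h ∈ c.GX a) (hk : k ∈ c.GP a)
    (hs : k ∈ (L.W (!a)).supp h) : L.lt k h ∧ L.lt (L.un c.P h) (L.un c.P k) := by
  have hp : L.prec k h := (L.prec_iff hh.2.1).2 hs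
  refine ⟨L.lt_of_prec hp, ?_⟩
  rcases c.K9 hh.1 (c.Co_GX hh) hk.1 (c.Co_GP hk) with h1 | h1
  · refine L.lt_of_le_ne h1 ?_
    intro h2
    have := c.unP_inj hh.1.1 hk.1.1 h2
    subst this
    exact L.lt_irrefl _ (L.lt_of_prec hp)
  · exact absurd (L.lt_of_le_prec h1 hp) (L.lt_irrefl _)

end Ctx

end Pool.Agent.Helper470.Dim
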