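import Pool.Agent.Helper470.Dim.Core6

set_option autoImplicit false

namespace Pool.Agent.Helper470.Dim

open Classical Layered

namespace Ctx

variable {F : Type} {n : ℕ} {L : Layered F n} (c : Ctx L)

/-- short-circuit data in world `a` -/
structure Sh (a : Bool) where
  sg : F → F
  mem : ∀ h ∈ c.GX a, sg h ∈ c.GP a
  inj : ∀ h ∈ c.GX a, ∀ h' ∈ c.GX a, sg h = sg h' → h = h'
  surj : ∀ k ∈ c.GP a, ∃ h ∈ c.GX a, sg h = k
  lt1 : ∀ h ∈ c.GX a, L.lt (sg h) h
  lt2 : ∀ h ∈ c.GX a, L.lt (L.un c.P h) (L.un c.P (sg h))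

theorem exists_Sh : ∃ a : Bool, Nonempty (c.Sh a) := by
  obtain ⟨a, σ, hσ⟩ := c.exists_world
  refine ⟨a, ⟨{ sg := fun h => if hh : h ∈ c.GX a then (σ ⟨h, hh⟩).1 else h, mem := ?_, inj := ?_,
                surj := ?_, lt1 := ?_, lt2 := ?_ }⟩⟩
  · intro h hh
    rw [dif_pos hh]; exact (σ ⟨h, hh⟩).2
  · intro h hh h' hh' he
    rw [dif_pos hh, dif_pos hh'] at he
    have := σ.injective (Subtype.ext he)
    exact congrArg Subtype.val this
  · intro k hk
    refine ⟨(σ.symm ⟨k, hk⟩).1, (σ.symm ⟨k, hk⟩).2, ?_⟩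
    rw [dif_pos (σ.symm ⟨k, hk⟩).2]
    simp
  · intro h hh
    rw [dif_pos hh]
    exact (c.lt_unP hh (σ ⟨h, hh⟩).2 (hσ ⟨h, hh⟩)).1
  · intro h hh
    rw [dif_pos hh]
    exact (c.lt_unP hh (σ ⟨h, hh⟩).2 (hσ ⟨h, hh⟩)).2

/-- renaming `x_n` -/
noncomputable def rn (L : Layered F n) (j : ℕ) : F → F := L.ren (Equiv.swap n j)

def J (n j : ℕ) : Prop := j = n ∨ n + 2 ≤ j

include c in
theorem rn_fix0 {j : ℕ} (hj : J n j) : rn L j (L.var 0) = L.var 0 := by
  have hn := c.hn
  unfold rn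
  rw [L.ren_var, Equiv.swap_apply_of_ne_of_ne (by omega) (by rcases hj with h | h <;> omega)]

theorem rn_fixp {j : ℕ} (hj : J n j) : rn L j (L.var (n+1)) = L.var (n+1) := by
  unfold rn
  rw [L.ren_var, Equiv.swap_apply_of_ne_of_ne (by omega) (by rcases hj with h | h <;> omega)]

theorem un_rn {k : F} (hk : L.Un k) {j : ℕ} (hj : J n j) :
    L.un (rn L j c.P) k = rn L j (L.un c.P k) := by
  unfold rn
  rw [L.end_un (L.ren_end _) (rn_fixp hj) hk]

theorem un_var_ren {k : F} (hk : L.Un k) {j : ℕ} (hj : j ≠ n + 1) :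
    L.un (L.var j) k = L.ren (Equiv.swap 0 j) k := by
  refine (L.un_end _).congr (L.ren_end _) k ?_
  intro l hl
  rcases hk.1 l hl with rfl | rfl
  · simp
  · rw [L.un_var _ (by omega), L.ren_var, Equiv.swap_apply_of_ne_of_ne (by omega) hj.symm]

/-- all variables to `x_0` -/
noncomputable def all0 (L : Layered F n) : F → F :=
  L.sub (fun l => if l = n + 1 then L.var (n+1) else L.var 0)

theorem all0_end (L : Layered F n) : L.End (all0 L) := L.sub_end _
theorem all0_p (L : Layered F n) : all0 L (L.var (n+1)) = L.var (n+1) := by simp [all0]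
theorem all0_v (L : Layered F n) {j : ℕ} (h : j ≠ n+1) : all0 L (L.var j) = L.var 0 := by
  simp [all0, h]

theorem all0_un {k : F} (hk : L.Un k) {w : F} (hw : all0 L w = L.var 0) :
    all0 L (L.un w k) = k := by
  rw [L.end_un (all0_end L) (all0_p L) hk, hw, L.un_id]

theorem all0_rn {j : ℕ} (hj : J n j) : all0 L (rn L j c.P) = L.var 0 := by
  have h1 : (fun x => all0 L (rn L j x)) c.P = c.op o1 (fun l => (fun x => all0 L (rn L j x)) (L.var l)) :=
    c.end_P (φ := fun x => all0 L (rn L j x)) ((all0_end L).comp (L.ren_end _))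
      (by simp only [rn_fixp hj, all0_p])
  show (fun x => all0 L (rn L j x)) c.P = _
  rw [h1]
  have : (fun l : Fin (n+1) => (fun x => all0 L (rn L j x)) (L.var l)) = fun _ => L.var 0 := by
    funext l
    have hl := l.2
    simp only [rn, L.ren_var]
    refine all0_v L ?_
    rw [Equiv.swap_apply_def]
    rcases hj with h | h <;> split_ifs <;> omega
  rw [this, (c.op_aff o1).const]

theorem occ_un_var {k : F} (hk : L.Un k) {j : ℕ} (hj : j ≠ n + 1) :
    L.occ j (L.un (L.var j) k) := by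
  rw [un_var_ren hk hj]
  have := (L.ren_occ (Equiv.swap 0 j) (j := 0) (a := k)).2 hk.2
  simpa using this

theorem fam1_inj {h h' : F} (hh : L.Un h) (hh' : L.Un h') {j j' : ℕ} (hj : j ≠ n + 1)
    (hj' : j' ≠ n + 1) (he : L.un (L.var j) h = L.un (L.var j') h') : j = j' ∧ h = h' := by
  constructor
  · have h1 := occ_un_var hh hj
    rw [he] at h1
    rcases L.un_occ hh' h1 with h2 | h2
    · rwa [L.occ_var] at h2
    · exact absurd h2 hj
  · have h1 := congrArg (all0 L) he
    rwa [all0_un hh (all0_v L hj), all0_un hh' (all0_v L hj')] at h1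

theorem occ_rn {k : F} (hk : L.Un k) {j : ℕ} : L.occ j (rn L j (L.un c.P k)) := by
  have h1 : L.occ n (L.un c.P k) := by
    have := c.occ_unP hk (Fin.last n)
    simpa using this
  have := (L.ren_occ (Equiv.swap n j) (j := n) (a := L.un c.P k)).2 h1
  simpa [rn] using this

theorem occ_rn_lt {k : F} (hk : L.Un k) {j l : ℕ} (hj : J n j) (hl : l < n) :
    L.occ l (rn L j (L.un c.P k)) := by
  have h1 : L.occ l (L.un c.P k) := c.occ_unP hk ⟨l, by omega⟩
  have := (L.ren_occ (Equiv.swap n j) (j := l) (a := L.un c.P k)).2 h1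
  rw [Equiv.swap_apply_of_ne_of_ne (by omega) (by rcases hj with h | h <;> omega)] at this
  exact this

theorem rn_occ_le {k : F} (hk : L.Un k) {j l : ℕ} (hj : J n j)
    (h : L.occ l (rn L j (L.un c.P k))) : l < n ∨ l = j ∨ l = n + 1 := by
  have h1 := (L.ren_occ (Equiv.swap n j) (j := Equiv.swap n j l) (a := L.un c.P k)).1 (by
    simpa [rn] using h)
  have h2 := c.unP_le_occ hk h1
  rw [Equiv.swap_apply_def] at h2
  rcases hj with h | h <;> split_ifs at h2 <;> omega

theorem fam2_inj {h h' : F} (hh : L.Un h) (hh' : L.Un h') {j j' : ℕ} (hj : J n j)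
    (hj' : J n j') (he : rn L j (L.un c.P h) = rn L j' (L.un c.P h')) : j = j' ∧ h = h' := by
  constructor
  · have h1 := c.occ_rn hh (j := j)
    rw [he] at h1
    have h2 := c.rn_occ_le hh' hj' h1
    rcases hj with h | h <;> omega
  · have h1 := congrArg (all0 L) he
    rw [← c.un_rn hh hj, ← c.un_rn hh' hj', all0_un hh (c.all0_rn hj),
      all0_un hh' (c.all0_rn hj')] at h1
    exact h1

theorem fam12 {h h' : F} (hh : L.Un h) (hh' : L.Un h') {j j' : ℕ} (hj' : J n j') :
    L.un (L.var j) h ≠ rn L j' (L.un c.P h') := by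
  intro he
  have hn := c.hn
  have h0 := c.occ_rn_lt hh' hj' (l := 0) (by omega)
  have h1 := c.occ_rn_lt hh' hj' (l := 1) (by omega)
  rw [← he] at h0 h1
  have h0' := L.un_occ hh h0
  have h1' := L.un_occ hh h1
  rw [L.occ_var] at h0' h1'
  omega

variable {c} {a : Bool} (D : c.Sh a)

/-- the rule -/
noncomputable def rule (D : c.Sh a) (s : F) (f : F → F) : F :=
  if s ∈ (L.W (!a)).G then s
  else if H : ∃ p : ℕ × F, p.1 ≠ n + 1 ∧ p.2 ∈ c.GX a ∧ s = L.un (L.var p.1) p.2 then
    f (L.un (L.var H.choose.1) (D.sg H.choose.2))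
  else if H : ∃ p : ℕ × F, J n p.1 ∧ p.2 ∈ c.GX a ∧ s = rn L p.1 (L.un c.P (D.sg p.2)) then
    f (rn L H.choose.1 (L.un c.P H.choose.2))
  else L.var (n+1)

theorem lt_fam1 {h : F} (hh : h ∈ c.GX a) {j : ℕ} (hj : j ≠ n + 1) :
    L.lt (L.un (L.var j) (D.sg h)) (L.un (L.var j) h) := by
  rw [un_var_ren hh.1.1 hj, un_var_ren (D.mem h hh).1.1 hj]
  exact L.ren_lt _ (D.lt1 h hh)

theorem lt_fam2 {h : F} (hh : h ∈ c.GX a) (j : ℕ) :
    L.lt (rn L j (L.un c.P h)) (rn L j (L.un c.P (D.sg h))) :=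
  L.ren_lt _ (D.lt2 h hh)

theorem exists_Lam (D : c.Sh a) : ∃ Λ : F → F, Λ ∈ (L.W a).Hom ∧ ∀ s ∈ (L.W a).G, Λ s = rule D s Λ := by
  haveI : Inhabited F := ⟨L.var 0⟩
  obtain ⟨Λ, h1, h2⟩ := L.exists_rec a (L.W a).Hom (L.W a).hlift (L.W a).hext (rule D) (by
    intro s _ f g hfg
    unfold rule
    by_cases h1 : s ∈ (L.W (!a)).G
    · rw [if_pos h1, if_pos h1]
    · rw [if_neg h1, if_neg h1]
      by_cases H : ∃ p : ℕ × F, p.1 ≠ n + 1 ∧ p.2 ∈ c.GX a ∧ s = L.un (L.var p.1) p.2
      · rw [dif_pos H, dif_pos H]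
        refine hfg _ ?_
        obtain ⟨h3, h4, h5⟩ := H.choose_spec
        conv_rhs => rw [h5]
        exact lt_fam1 D h4 h3
      · rw [dif_neg H, dif_neg H]
        by_cases H : ∃ p : ℕ × F, J n p.1 ∧ p.2 ∈ c.GX a ∧ s = rn L p.1 (L.un c.P (D.sg p.2))
        · rw [dif_pos H, dif_pos H]
          refine hfg _ ?_
          obtain ⟨h3, h4, h5⟩ := H.choose_spec
          conv_rhs => rw [h5]
          exact lt_fam2 D h4 _
        · rw [dif_neg H, dif_neg H])
  exact ⟨Λ, h1, h2⟩

noncomputable def Lam (D : c.Sh a) : F → F := (exists_Lam D).choose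

theorem Lam_hom (D : c.Sh a) : Lam D ∈ (L.W a).Hom := (exists_Lam D).choose_spec.1

theorem Lam_rule (D : c.Sh a) {s : F} (hs : s ∈ (L.W a).G) : Lam D s = rule D s (Lam D) :=
  (exists_Lam D).choose_spec.2 s hs

theorem mem_a {s : F} (hs : s ∉ (L.W (!a)).G) : s ∈ (L.W a).G := by
  simpa using L.mem_other hs

theorem Lam_var (D : c.Sh a) (j : ℕ) : Lam D (L.var j) = L.var j := by
  rw [Lam_rule D (L.var_mem _ _)]
  unfold rule
  rw [if_pos (L.var_mem _ _)]

theorem Lam1 {h : F} (hh : h ∈ c.GX a) {j : ℕ} (hj : j ≠ n + 1) :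
    Lam D (L.un (L.var j) h) = Lam D (L.un (L.var j) (D.sg h)) := by
  have hs : L.un (L.var j) h ∉ (L.W (!a)).G := by
    rw [un_var_ren hh.1.1 hj, L.ren_mem]; exact hh.2.1
  rw [Lam_rule D (mem_a hs)]
  unfold rule
  rw [if_neg hs]
  have H : ∃ p : ℕ × F, p.1 ≠ n + 1 ∧ p.2 ∈ c.GX a ∧ L.un (L.var j) h = L.un (L.var p.1) p.2 :=
    ⟨(j, h), hj, hh, rfl⟩
  rw [dif_pos H]
  obtain ⟨h3, h4, h5⟩ := H.choose_spec
  obtain ⟨h6, h7⟩ := fam1_inj hh.1.1 h4.1.1 hj h3 h5
  rw [← h6, ← h7]

theorem Lam2 {h : F} (hh : h ∈ c.GX a) {j : ℕ} (hj : J n j) :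
    Lam D (rn L j (L.un c.P (D.sg h))) = Lam D (rn L j (L.un c.P h)) := by
  have hs : rn L j (L.un c.P (D.sg h)) ∉ (L.W (!a)).G := by
    unfold rn
    rw [L.ren_mem]; exact (D.mem h hh).2.2
  rw [Lam_rule D (mem_a hs)]
  unfold rule
  rw [if_neg hs, dif_neg]
  · have H : ∃ p : ℕ × F, J n p.1 ∧ p.2 ∈ c.GX a ∧
        rn L j (L.un c.P (D.sg h)) = rn L p.1 (L.un c.P (D.sg p.2)) := ⟨(j, h), hj, hh, rfl⟩
    rw [dif_pos H]
    obtain ⟨h3, h4, h5⟩ := H.choose_spec
    obtain ⟨h6, h7⟩ := c.fam2_inj (D.mem h hh).1.1 (D.mem _ h4).1.1 hj h3 h5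
    have h8 := D.inj _ hh _ h4 h7
    rw [← h6, ← h8]
  · rintro ⟨p, _, h4, h5⟩
    exact c.fam12 h4.1.1 (D.mem h hh).1.1 hj h5.symm

theorem Lam3 {k : F} (hk : c.HH k) (h1 : k ∉ (L.W (!a)).G) (h2 : L.un c.P k ∉ (L.W (!a)).G) :
    (∀ j, j ≠ n + 1 → Lam D (L.un (L.var j) k) = L.var (n+1)) ∧
    (∀ j, J n j → Lam D (rn L j (L.un c.P k)) = L.var (n+1)) := by
  have hkX : k ∉ c.GX a := fun h => h.2.2 (mem_a h2)
  have hkP : k ∉ c.GP a := fun h => h1 h.2.1
  constructor
  · intro j hj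
    have hs : L.un (L.var j) k ∉ (L.W (!a)).G := by
      rw [un_var_ren hk.1 hj, L.ren_mem]; exact h1
    rw [Lam_rule D (mem_a hs)]
    unfold rule
    rw [if_neg hs, dif_neg, dif_neg]
    · rintro ⟨p, h3, h4, h5⟩
      exact c.fam12 hk.1 (D.mem _ h4).1.1 h3 h5
    · rintro ⟨p, h3, h4, h5⟩
      have := (fam1_inj hk.1 h4.1.1 hj h3 h5).2
      exact hkX (this ▸ h4)
  · intro j hj
    have hs : rn L j (L.un c.P k) ∉ (L.W (!a)).G := by
      unfold rn
      rw [L.ren_mem]; exact h2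
    rw [Lam_rule D (mem_a hs)]
    unfold rule
    rw [if_neg hs, dif_neg, dif_neg]
    · rintro ⟨p, h3, h4, h5⟩
      have := (c.fam2_inj hk.1 (D.mem _ h4).1.1 hj h3 h5).2
      exact hkP (this ▸ D.mem _ h4)
    · rintro ⟨p, h3, h4, h5⟩
      exact c.fam12 h4.1.1 hk.1 hj h5.symm

theorem Lam4 {s : F} (hs : s ∈ (L.W a).G) (h0 : ∀ l, l ≠ n + 1 → ¬ L.occ l s) :
    Lam D s = L.var (n+1) := by
  have hn := c.hn
  by_cases h1 : s ∈ (L.W (!a)).G
  · have : ∀ i', s ∈ (L.W i').G := by
      intro i'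
      by_cases hi : i' = a
      · subst hi; exact hs
      · have : i' = !a := by
          revert hi; cases i' <;> cases a <;> simp
        rw [this]; exact h1
    obtain ⟨j, hj⟩ := (L.vars s).1 this
    have hj1 : j = n + 1 := by
      by_contra h
      exact h0 j h (by rw [← hj]; exact L.le_refl _)
    rw [← hj, Lam_var, hj1]
  · rw [Lam_rule D hs]
    unfold rule
    rw [if_neg h1, dif_neg, dif_neg]
    · rintro ⟨p, h3, h4, h5⟩
      refine h0 0 (by omega) ?_
      rw [h5]
      exact c.occ_rn_lt (D.mem _ h4).1.1 h3 (by omega)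
    · rintro ⟨p, h3, h4, h5⟩
      refine h0 p.1 h3 ?_
      rw [h5]
      exact occ_un_var h4.1.1 h3

/-- points where the rules hold -/
def Om (c : Ctx L) (w : F) : Prop := (∃ j, j ≠ n + 1 ∧ w = L.var j) ∨ ∃ j, J n j ∧ w = rn L j c.P

theorem Om_sh {w : F} (hw : Om c w) {k : F} (hk : c.HH k) (h1 : k ∉ (L.W (!a)).G)
    (h2 : L.un c.P k ∉ (L.W (!a)).G) : Lam D (L.un w k) = L.var (n+1) := by
  rcases hw with ⟨j, hj, rfl⟩ | ⟨j, hj, rfl⟩
  · exact (Lam3 D hk h1 h2).1 j hj
  · rw [c.un_rn hk.1 hj]; exact (Lam3 D hk h1 h2).2 j hj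

theorem Om_GX {w : F} (hw : Om c w) {h : F} (hh : h ∈ c.GX a) :
    Lam D (L.un w h) = Lam D (L.un w (D.sg h)) := by
  rcases hw with ⟨j, hj, rfl⟩ | ⟨j, hj, rfl⟩
  · exact Lam1 D hh hj
  · rw [c.un_rn hh.1.1 hj, c.un_rn (D.mem h hh).1.1 hj]; exact (Lam2 D hh hj).symm

structure RU (D : c.Sh a) (M : F → F) : Prop where
  sh : ∀ k, c.HH k → k ∉ (L.W (!a)).G → L.un c.P k ∉ (L.W (!a)).G →
    (∀ m : Fin (n+1), M (L.un (L.var m) k) = L.var (n+1)) ∧ M (L.un c.P k) = L.var (n+1)
  gx : ∀ h ∈ c.GX a, (∀ m : Fin (n+1), M (L.un (L.var m) h) = M (L.un (L.var m) (D.sg h))) ∧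
    M (L.un c.P h) = M (L.un c.P (D.sg h))
  no : ∀ s, L.le s c.P → s ∈ (L.W a).G → (∀ m : Fin (n+1), ¬ L.occ m s) → M s = L.var (n+1)

theorem unP_nonvar (c : Ctx L) {k : F} (hk : L.Un k) (j : ℕ) : L.var j ≠ L.un c.P k := by
  intro hj
  have hn := c.hn
  have h0 := c.occ_unP hk 0
  have h1 := c.occ_unP hk ⟨1, by omega⟩
  rw [← hj, L.occ_var] at h0 h1
  simp at h0 h1
  omega

theorem layer_nonvar {s : F} (hs : ∀ j, L.var j ≠ s) (h : s ∈ (L.W a).G) : s ∉ (L.W (!a)).G := by
  rcases L.cases_layer' a s with ⟨j, hj⟩ | h' | h'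
  · exact absurd hj (hs j)
  · exact absurd h h'
  · exact h'

theorem uniq {M M' : F → F} (hM : M ∈ (L.W a).Hom) (hM' : M' ∈ (L.W a).Hom) (r : RU D M)
    (r' : RU D M') (hv : ∀ m : Fin (n+1), M (L.var m) = M' (L.var m)) {s : F}
    (hs : L.le s c.P) : M s = M' s := by
  induction s using L.wflt.induction with
  | _ s ih =>
  by_cases hG : s ∈ (L.W a).G
  · rcases c.tri hs with h | ⟨m, k, hk, rfl⟩ | ⟨k, hk, rfl⟩
    · rw [r.no s hs hG h, r'.no s hs hG h]
    · by_cases hk0 : k = L.var 0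
      · subst hk0; rw [L.un_var0]; exact hv m
      · have hm : (m : ℕ) ≠ n + 1 := by have := m.2; omega
        have hkG : k ∈ (L.W a).G := by
          rw [un_var_ren hk.1 hm, L.ren_mem] at hG; exact hG
        have hkv : ∀ j, L.var j ≠ k := fun j hj => hk0 (var_of_Un hk.1 hj)
        have hkn := layer_nonvar hkv hkG
        by_cases h2 : L.un c.P k ∈ (L.W a).G
        · have h3 := layer_nonvar (unP_nonvar c hk.1) h2
          rw [(r.sh k hk hkn h3).1 m, (r'.sh k hk hkn h3).1 m]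
        · have hX : k ∈ c.GX a := ⟨hk, hkn, h2⟩
          rw [(r.gx k hX).1 m, (r'.gx k hX).1 m]
          have hlt := lt_fam1 D hX hm
          exact ih _ hlt (L.le_trans (L.le_of_lt hlt) hs)
    · have hn := layer_nonvar (unP_nonvar c hk.1) hG
      by_cases h2 : k ∈ (L.W (!a)).G
      · have hP : k ∈ c.GP a := ⟨hk, h2, hn⟩
        obtain ⟨h, hh, rfl⟩ := D.surj k hP
        rw [← (r.gx h hh).2, ← (r'.gx h hh).2]
        have hlt := D.lt2 h hh
        exact ih _ hlt (L.le_trans (L.le_of_lt hlt) hs)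
      · rw [(r.sh k hk h2 hn).2, (r'.sh k hk h2 hn).2]
  · refine (L.W a).hext _ hM _ hM' s ?_
    intro x hx
    have hp := (L.prec_iff hG).2 hx
    exact ih x (L.lt_of_prec hp) (L.le_trans (L.le_of_prec hp) hs)

theorem RU_comp {φ : F → F} (hφ : L.End φ) (hb : φ (L.var (n+1)) = L.var (n+1))
    (hv : ∀ m : Fin (n+1), Om c (φ (L.var m))) (hP : Om c (φ c.P)) :
    RU D (fun x => Lam D (φ x)) := by
  constructor
  · intro k hk h1 h2
    constructor
    · intro m
      show Lam D (φ (L.un (L.var m) k)) = _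
      rw [L.end_un hφ hb hk.1]
      exact Om_sh D (hv m) hk h1 h2
    · show Lam D (φ (L.un c.P k)) = _
      rw [L.end_un hφ hb hk.1]
      exact Om_sh D hP hk h1 h2
  · intro h hh
    constructor
    · intro m
      show Lam D (φ (L.un (L.var m) h)) = Lam D (φ (L.un (L.var m) (D.sg h)))
      rw [L.end_un hφ hb hh.1.1, L.end_un hφ hb (D.mem h hh).1.1]
      exact Om_GX D (hv m) hh
    · show Lam D (φ (L.un c.P h)) = Lam D (φ (L.un c.P (D.sg h)))
      rw [L.end_un hφ hb hh.1.1, L.end_un hφ hb (D.mem h hh).1.1]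
      exact Om_GX D hP hh
  · intro s hs hG h0
    have h1 : ∀ l, l ≠ n + 1 → ¬ L.occ l s := by
      intro l hl ho
      have := c.occ_of_leP hs ho
      exact h0 ⟨l, by omega⟩ ho
    have h2 : φ s = s := by
      refine L.sub_id' hφ s ?_
      intro j hj
      by_cases h : j = n + 1
      · subst h; exact hb
      · exact absurd hj (h1 j h)
    show Lam D (φ s) = _
    rw [h2]
    exact Lam4 D hG h1

theorem rn_n (x : F) : rn L n x = x := by
  unfold rn
  refine L.sub_id' (L.ren_end _) x ?_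
  intro j _
  rw [L.ren_var]; simp

theorem Om_P (c : Ctx L) : Om c c.P := Or.inr ⟨n, Or.inl rfl, (rn_n _).symm⟩

theorem Om_fin (c : Ctx L) (m : Fin (n+1)) : Om c (L.var m) :=
  Or.inl ⟨m, by have := m.2; omega, rfl⟩

theorem RU_kap {κ : F → F} (hb : κ (L.var (n+1)) = L.var (n+1)) :
    RU D (fun x => κ (Lam D x)) := by
  have r := RU_comp D (L.end_id) rfl (fun m => Om_fin c m) (Om_P c)
  constructor
  · intro k hk h1 h2
    have := r.sh k hk h1 h2
    constructor
    · intro m
      show κ (Lam D _) = _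
      rw [this.1 m, hb]
    · show κ (Lam D _) = _
      rw [this.2, hb]
  · intro h hh
    have := r.gx h hh
    constructor
    · intro m
      show κ (Lam D _) = κ (Lam D _)
      rw [this.1 m]
    · show κ (Lam D _) = κ (Lam D _)
      rw [this.2]
  · intro s hs hG h0
    show κ (Lam D _) = _
    rw [r.no s hs hG h0, hb]

/-- (**) -/
theorem star {φ κ : F → F} (hφ : L.End φ) (hb : φ (L.var (n+1)) = L.var (n+1))
    (hv : ∀ m : Fin (n+1), Om c (φ (L.var m))) (hP : Om c (φ c.P)) (hκ : κ ∈ (L.W a).Hom)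
    (hκb : κ (L.var (n+1)) = L.var (n+1))
    (hκv : ∀ m : Fin (n+1), κ (L.var m) = Lam D (φ (L.var m))) :
    κ (Lam D c.P) = Lam D (φ c.P) := by
  refine uniq D (M := fun x => κ (Lam D x)) (M' := fun x => Lam D (φ x))
    ((L.W a).hcomp _ hκ _ (Lam_hom D)) ((L.W a).hcomp _ (Lam_hom D) _ (hφ a))
    (RU_kap D hκb) (RU_comp D hφ hb hv hP) ?_ (L.le_refl _)
  intro m
  show κ (Lam D (L.var m)) = _
  rw [Lam_var, hκv]

theorem out (D : c.Sh a) : Out L a := by
  have hn := c.hn
  have h0l : (0 : Fin (n+1)) ≠ Fin.last n := by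
    intro h
    have := congrArg Fin.val h
    simp at this
    omega
  have hrn : ∀ j, n + 2 ≤ j → L.sg (fun l => if l = Fin.last n then L.var j else L.var l) c.P =
      rn L j c.P := by
    intro j hj
    unfold rn
    refine (L.sg_end _).congr' (L.ren_end _) _ ?_ ?_
    · intro l _
      have hl := l.2
      rw [L.sg_var, L.ren_var]
      by_cases h : l = Fin.last n
      · subst h; simp
      · rw [if_neg h, Equiv.swap_apply_of_ne_of_ne _ (by omega)]
        intro h'; apply h; ext; simpa using h'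
    · intro k hk hok
      have := c.occP_le hok
      rw [L.sg_big _ hk, L.ren_var, Equiv.swap_apply_of_ne_of_ne (by omega) (by omega)]
  have hrn' : ∀ j, n + 2 ≤ j → rn L j c.P =
      c.op o1 (Function.update (fun l : Fin (n+1) => L.var l) (Fin.last n) (L.var j)) := by
    intro j hj
    rw [← hrn j hj, c.sg_P]
    congr 1
    funext l
    by_cases h : l = Fin.last n
    · subst h; simp
    · simp [h]
  have hku : ∀ j, n + 2 ≤ j → ∀ κ ∈ (L.W a).Hom, (∀ l < n, κ (L.var l) = L.var l) →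
      κ (L.var n) = L.var j → κ (L.var (n+1)) = L.var (n+1) →
      κ (Lam D c.P) = Lam D (rn L j c.P) := by
    intro j hj κ hκ h1 h2 h3
    rw [← hrn j hj]
    refine star D (L.sg_end _) (L.sg_big _ (le_refl _)) ?_ ?_ hκ h3 ?_
    · intro m
      have hm := m.2
      rw [L.sg_var]
      split_ifs
      · exact Or.inl ⟨j, by omega, rfl⟩
      · exact Om_fin c m
    · rw [hrn j hj]; exact Or.inr ⟨j, Or.inr hj, rfl⟩
    · intro m
      have hm := m.2
      rw [L.sg_var]
      by_cases h : m = Fin.last n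
      · subst h
        rw [if_pos rfl, Lam_var]
        simpa using h2
      · rw [if_neg h, Lam_var]
        refine h1 m ?_
        have : (m : ℕ) ≠ n := by intro h'; apply h; ext; simpa using h'
        omega
  refine ⟨Lam D c.P, ?_, ?_, ?_, ?_⟩
  · intro κ hκ h1 h2
    refine star D (φ := fun x => x) L.end_id rfl (fun m => Om_fin c m) (Om_P c) hκ h2 ?_
    intro m
    have hm := m.2
    rw [Lam_var]
    exact h1 m (by omega)
  · intro τ κ hκ h1 h2
    have hP : L.sg (fun j => L.var (τ j)) c.P = c.P := by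
      rw [c.sg_P]
      have := (c.op_aff o1).perm τ (fun l : Fin (n+1) => L.var l)
      exact this.trans c.P_eq.symm
    have := star D (φ := L.sg (fun j => L.var (τ j))) (L.sg_end _) (L.sg_big _ (le_refl _))
      (fun m => by rw [L.sg_var]; exact Om_fin c _) (by rw [hP]; exact Om_P c) hκ h2
      (fun m => by rw [L.sg_var, Lam_var]; exact h1 m)
    rw [this, hP]
  · intro κ hκ h0 h1 h2
    have hP : L.sg (fun l => if l = 0 then L.var 0 else L.var (n+2)) c.P = L.var 0 := by
      rw [c.sg_P, (c.op_aff o1).single]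
    have := star D (φ := L.sg (fun l => if l = 0 then L.var 0 else L.var (n+2))) (L.sg_end _)
      (L.sg_big _ (le_refl _))
      (fun m => by
        rw [L.sg_var]
        split_ifs
        · exact Or.inl ⟨0, by omega, rfl⟩
        · exact Or.inl ⟨n+2, by omega, rfl⟩)
      (by rw [hP]; exact Or.inl ⟨0, by omega, rfl⟩) hκ h2
      (fun m => by
        have hm := m.2
        rw [L.sg_var]
        by_cases h : m = 0
        · subst h; rw [if_pos rfl, Lam_var]; simpa using h0
        · rw [if_neg h, Lam_var]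
          refine h1 m ?_ (by omega)
          have : (m : ℕ) ≠ 0 := by intro h'; apply h; ext; simpa using h'
          omega)
    rw [this, hP, Lam_var]
  · intro κ hκ κu hκu κv hκv hu1 hu2 hu3 hv1 hv2 hv3 h0 h1 h2 h3
    have hwu := hku (n+2) (by omega) κu hκu hu1 hu2 hu3
    have hwv := hku (n+3) (by omega) κv hκv hv1 hv2 hv3
    set T : Fin (n+1) → F := fun l => if l = 0 then rn L (n+2) c.P
      else if l = Fin.last n then L.var (n+3) else L.var (n+2) with hT
    have hP : L.sg T c.P = rn L (n+3) c.P := by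
      rw [c.sg_P]
      have h4 := (c.op_aff o1).replace c.hn
        (Function.update (fun l : Fin (n+1) => L.var l) (Fin.last n) (L.var (n+3)))
        (Fin.last n) (L.var (n+2))
      rw [Function.update_idem, Function.update_self, ← hrn' (n+2) (by omega),
        ← hrn' (n+3) (by omega)] at h4
      exact h4
    have := star D (φ := L.sg T) (L.sg_end _) (L.sg_big _ (le_refl _))
      (fun m => by
        rw [L.sg_var]
        simp only [hT]
        split_ifs
        · exact Or.inr ⟨n+2, Or.inr (by omega), rfl⟩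
        · exact Or.inl ⟨n+3, by omega, rfl⟩
        · exact Or.inl ⟨n+2, by omega, rfl⟩)
      (by rw [hP]; exact Or.inr ⟨n+3, Or.inr (by omega), rfl⟩) hκ h3
      (fun m => by
        have hm := m.2
        rw [L.sg_var]
        simp only [hT]
        by_cases h : m = 0
        · subst h; rw [if_pos rfl, ← hwu]; simpa using h0
        · rw [if_neg h]
          by_cases h' : m = Fin.last n
          · subst h'; rw [if_pos rfl, Lam_var]; simpa using h2
          · rw [if_neg h', Lam_var]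
            refine h1 m ?_ ?_
            · have : (m : ℕ) ≠ 0 := by intro h'; apply h; ext; simpa using h'
              omega
            · have : (m : ℕ) ≠ n := by intro h''; apply h'; ext; simpa using h''
              omega)
    rw [this, hP, ← hwv]

end Ctx

/-- The core theorem. -/
theorem core : CoreStatement := by
  intro F n hn L P hyp
  choose S hS1 hS2 using hyp
  have hPX : ∃ i, P ∉ (L.W i).G := by
    by_contra hcon
    push Not at hcon
    obtain ⟨j, hj⟩ := (L.vars P).1 hcon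
    have hb : ∀ φ : F → F, L.End φ → φ (L.var (n+1)) = L.var (n+1) →
        φ P = S (fun _ => 1) (L.var (n+1)) (fun j => φ (L.var j)) := by
      intro φ h1 h2
      have := hS2 (fun _ => 1) φ h1
      rwa [h2] at this
    have key : ∀ i : Fin (n+1), j ≠ n + 1 → j = i := by
      intro i hji
      have h1 := hb (L.sg (fun l => if l = i then L.var (n+2) else L.var (n+3))) (L.sg_end _)
        (L.sg_big _ (le_refl _))
      have h2 : (fun l : Fin (n+1) =>
          L.sg (fun l => if l = i then L.var (n+2) else L.var (n+3)) (L.var l)) =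
          fun l => if l = i then L.var (n+2) else L.var (n+3) := by
        funext l; rw [L.sg_var]
      rw [h2, (hS1 _ _).single] at h1
      rw [← hj] at h1
      rcases fin_or (n := n) j with ⟨l, rfl⟩ | h
      · rw [L.sg_var] at h1
        by_contra hne
        have : l ≠ i := by rintro rfl; exact hne rfl
        rw [if_neg this] at h1
        have := L.inj h1
        omega
      · rw [L.sg_big _ h] at h1
        have h3 := L.inj h1
        have h4 := hb (L.sg (fun _ => L.var (n+3))) (L.sg_end _) (L.sg_big _ (le_refl _))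
        have h5 : (fun l : Fin (n+1) => L.sg (fun _ => L.var (n+3)) (L.var l)) =
            fun _ => L.var (n+3) := by
          funext l; rw [L.sg_var]
        rw [h5, (hS1 _ _).const, ← hj, L.sg_big _ h] at h4
        have := L.inj h4
        omega
    by_cases hjn : j = n + 1
    · subst hjn
      have h4 := hb (L.sg (fun _ => L.var (n+3))) (L.sg_end _) (L.sg_big _ (le_refl _))
      have h5 : (fun l : Fin (n+1) => L.sg (fun _ => L.var (n+3)) (L.var l)) =
          fun _ => L.var (n+3) := by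
        funext l; rw [L.sg_var]
      rw [h5, (hS1 _ _).const, ← hj, L.sg_big _ (le_refl _)] at h4
      have := L.inj h4
      omega
    · have h1 := key 0 hjn
      have h2 := key ⟨1, by omega⟩ hjn
      simp at h1 h2
      omega
  obtain ⟨i, hi⟩ := hPX
  let c : Ctx L := { P := P, i := i, hn := hn, hPi := hi, S := S, aff := hS1, hS := hS2 }
  obtain ⟨a, ⟨D⟩⟩ := c.exists_Sh
  exact ⟨a, Ctx.out D⟩

end Pool.Agent.Helper470.Dim
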