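import Pool.Agent.Helper470.Dim.World

set_option autoImplicit false

namespace Pool.Agent.Helper470.Dim

open Classical

namespace World

variable {F : Type} {n : ℕ} (W : World F n)

theorem supp_map {f : F → F} (hf : f ∈ W.Hom) {a : F} (hi : Set.InjOn f (W.supp a))
    (hG : ∀ r ∈ W.supp a, f r ∈ W.G) :
    W.supp (f a) = f '' W.supp a ∧ (f a ∈ W.G → a ∈ W.G) := by
  obtain ⟨g, hg, hgG⟩ := W.hlift (fun y => if h : ∃ r, r ∈ W.supp a ∧ f r = y then h.choose else y)
  have h1 : ∀ r ∈ W.supp a, g (f r) = r := by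
    intro r hr
    rw [hgG _ (hG r hr)]
    have h : ∃ r', r' ∈ W.supp a ∧ f r' = f r := ⟨r, hr, rfl⟩
    rw [dif_pos h]
    exact hi h.choose_spec.1 hr h.choose_spec.2
  have h2 : g (f a) = a :=
    W.hext _ (W.hcomp _ hg _ hf) _ W.hid a (by intro r hr; simpa using h1 r hr)
  have h3 : W.supp (f a) ⊆ f '' W.supp a := by
    intro y hy
    have := W.hsupp f hf a hy
    simp only [Set.mem_iUnion] at this
    obtain ⟨r, hr, hy'⟩ := this
    rw [W.gen _ (hG r hr)] at hy'
    exact ⟨r, hr, by simpa using hy'.symm⟩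
  refine ⟨Set.Subset.antisymm h3 ?_, ?_⟩
  · rintro _ ⟨r, hr, rfl⟩
    have : r ∈ W.supp (g (f a)) := by rw [h2]; exact hr
    have := W.hsupp g hg (f a) this
    simp only [Set.mem_iUnion] at this
    obtain ⟨s, hs, hrs⟩ := this
    obtain ⟨r', hr', rfl⟩ := h3 hs
    rw [h1 r' hr', W.gen _ (W.sub _ hr')] at hrs
    have : r = r' := by simpa using hrs
    rw [this]; exact hs
  · intro hfa
    have : f a ∈ W.supp (f a) := by rw [W.gen _ hfa]; rfl
    obtain ⟨r, hr, hra⟩ := h3 this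
    have : a = r := by rw [← h2, ← hra, h1 r hr]
    rw [this]; exact W.sub _ hr

end World

namespace Layered

variable {F : Type} {n : ℕ} (L : Layered F n)

def prec (r a : F) : Prop := ∃ i, a ∉ (L.W i).G ∧ r ∈ (L.W i).supp a

def le (s a : F) : Prop := Relation.ReflTransGen L.prec s a

def lt (s a : F) : Prop := Relation.TransGen L.prec s a

/-- the variable `var j` occurs in `a` -/
def occ (j : ℕ) (a : F) : Prop := L.le (L.var j) a

theorem var_mem (j : ℕ) (i : Bool) : L.var j ∈ (L.W i).G :=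
  (L.vars _).2 ⟨j, rfl⟩ i

theorem mem_other {a : F} {i : Bool} (h : a ∉ (L.W i).G) : a ∈ (L.W (!i)).G := L.cover a i h

theorem layer_uniq {a : F} {i k : Bool} (h : a ∉ (L.W i).G) (h' : a ∉ (L.W k).G) : i = k := by
  by_contra hne
  have : k = !i := by cases i <;> cases k <;> simp_all
  exact h' (this ▸ L.cover a i h)

theorem cases_layer (a : F) : (∃ j, L.var j = a) ∨ ∃ i, a ∉ (L.W i).G := by
  by_cases h : ∀ i, a ∈ (L.W i).G
  · exact Or.inl ((L.vars a).1 h)
  · push Not at h
    exact Or.inr h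

theorem cases_layer' (i : Bool) (a : F) :
    (∃ j, L.var j = a) ∨ a ∉ (L.W i).G ∨ a ∉ (L.W (!i)).G := by
  rcases L.cases_layer a with h | ⟨k, h⟩
  · exact Or.inl h
  · cases i <;> cases k <;> simp_all

theorem prec_iff {r a : F} {i : Bool} (h : a ∉ (L.W i).G) : L.prec r a ↔ r ∈ (L.W i).supp a := by
  constructor
  · rintro ⟨k, hk, hr⟩
    rw [L.layer_uniq h hk]; exact hr
  · intro hr; exact ⟨i, h, hr⟩

theorem not_prec_var (r : F) (j : ℕ) : ¬ L.prec r (L.var j) := by
  rintro ⟨i, h, _⟩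
  exact h (L.var_mem j i)

theorem wf' : WellFounded L.prec := L.wf

theorem wflt : WellFounded L.lt := L.wf'.transGen

theorem le_refl (a : F) : L.le a a := Relation.ReflTransGen.refl

theorem le_trans {a b c : F} (h : L.le a b) (h' : L.le b c) : L.le a c :=
  Relation.ReflTransGen.trans h h'

theorem le_of_lt {a b : F} (h : L.lt a b) : L.le a b := Relation.TransGen.to_reflTransGen h

theorem lt_of_prec {a b : F} (h : L.prec a b) : L.lt a b := Relation.TransGen.single h

theorem le_of_prec {a b : F} (h : L.prec a b) : L.le a b := L.le_of_lt (L.lt_of_prec h)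

theorem lt_irrefl (a : F) : ¬ L.lt a a := fun h => L.wflt.irrefl.irrefl a h

theorem lt_of_le_prec {a b c : F} (h : L.le a b) (h' : L.prec b c) : L.lt a c :=
  Relation.TransGen.tail' h h'

theorem lt_of_lt_le {a b c : F} (h : L.lt a b) (h' : L.le b c) : L.lt a c :=
  Relation.TransGen.trans_left h h'

theorem lt_of_le_lt {a b c : F} (h : L.le a b) (h' : L.lt b c) : L.lt a c :=
  Relation.TransGen.trans_right h h'

theorem lt_trans {a b c : F} (h : L.lt a b) (h' : L.lt b c) : L.lt a c :=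
  Relation.TransGen.trans h h'

theorem lt_of_le_ne {a b : F} (h : L.le a b) (h' : a ≠ b) : L.lt a b := by
  rcases Relation.reflTransGen_iff_eq_or_transGen.1 h with h1 | h1
  · exact absurd h1.symm h'
  · exact h1

theorem le_antisymm {a b : F} (h : L.le a b) (h' : L.le b a) : a = b := by
  by_contra hne
  exact L.lt_irrefl a (L.lt_of_lt_le (L.lt_of_le_ne h hne) h')

theorem le_cases {s a : F} : L.le s a ↔ s = a ∨ ∃ r, L.prec r a ∧ L.le s r := by
  constructor
  · intro h
    rcases Relation.ReflTransGen.cases_tail_iff _ _ _ |>.1 h with h1 | ⟨c, h1, h2⟩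
    · exact Or.inl h1.symm
    · exact Or.inr ⟨c, h2, h1⟩
  · rintro (rfl | ⟨r, h1, h2⟩)
    · exact L.le_refl _
    · exact L.le_trans h2 (L.le_of_prec h1)

theorem le_var {s : F} {j : ℕ} (h : L.le s (L.var j)) : s = L.var j := by
  rcases L.le_cases.1 h with h | ⟨r, h, _⟩
  · exact h
  · exact absurd h (L.not_prec_var r j)

theorem occ_var {i j : ℕ} : L.occ i (L.var j) ↔ i = j := by
  constructor
  · intro h; exact L.inj (L.le_var h)
  · rintro rfl; exact L.le_refl _

theorem induct {p : F → Prop} (h : ∀ a, (∀ r, L.prec r a → p r) → p a) (a : F) : p a :=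
  L.wf'.induction a h

theorem finite_le (a : F) : {s | L.le s a}.Finite := by
  induction a using L.induct with
  | _ a ih =>
  have hfin : {r | L.prec r a}.Finite := by
    rcases L.cases_layer a with ⟨j, rfl⟩ | ⟨i, h⟩
    · convert Set.finite_empty (α := F)
      ext r
      simp [L.not_prec_var]
    · convert (L.W i).fin a using 1
      ext r
      exact L.prec_iff h
  have : {s | L.le s a} ⊆ {a} ∪ ⋃ r ∈ {r | L.prec r a}, {s | L.le s r} := by
    intro s hs
    rcases L.le_cases.1 hs with rfl | ⟨r, h1, h2⟩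
    · exact Or.inl rfl
    · right
      simp only [Set.mem_iUnion]
      exact ⟨r, h1, h2⟩
  refine Set.Finite.subset (Set.Finite.union (Set.finite_singleton a) ?_) this
  exact Set.Finite.biUnion hfin (fun r hr => ih r hr)

/-- (V0) -/
theorem occ_iff (i : Bool) (j : ℕ) (y : F) : L.occ j y ↔ ∃ r ∈ (L.W i).supp y, L.occ j r := by
  by_cases h : y ∈ (L.W i).G
  · rw [(L.W i).gen y h]; simp
  · constructor
    · intro ho
      rcases L.le_cases.1 ho with h1 | ⟨r, h1, h2⟩
      · exact absurd (h1 ▸ L.var_mem j i) h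
      · exact ⟨r, (L.prec_iff h).1 h1, h2⟩
    · rintro ⟨r, h1, h2⟩
      exact L.le_trans h2 (L.le_of_prec ((L.prec_iff h).2 h1))

/-- recursion -/
theorem exists_rec {B : Type} [Inhabited B] (i : Bool) (H : Set (F → B))
    (lift : ∀ f : F → B, ∃ g ∈ H, ∀ a ∈ (L.W i).G, g a = f a)
    (ext : ∀ f ∈ H, ∀ g ∈ H, ∀ a, (∀ r ∈ (L.W i).supp a, f r = g r) → f a = g a)
    (R : F → (F → B) → B)
    (hR : ∀ a ∈ (L.W i).G, ∀ f g : F → B, (∀ s, L.lt s a → f s = g s) → R a f = R a g) :
    ∃ ψ ∈ H, ∀ a ∈ (L.W i).G, ψ a = R a ψ := by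
  choose lf hlf hlf' using lift
  let step : (a : F) → ((s : F) → L.lt s a → B) → B := fun a rec =>
    if a ∈ (L.W i).G then R a (fun s => if h : L.lt s a then rec s h else default)
    else lf (fun s => if h : L.lt s a then rec s h else default) a
  let ψ : F → B := L.wflt.fix step
  have hψ : ∀ a, ψ a = step a (fun s _ => ψ s) := fun a => L.wflt.fix_eq step a
  have h1 : ∀ a ∈ (L.W i).G, ψ a = R a ψ := by
    intro a ha
    rw [hψ a]
    simp only [step]
    rw [if_pos ha]
    refine hR a ha _ _ ?_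
    intro s hs
    rw [dif_pos hs]
  have h2 : ψ = lf ψ := by
    funext a
    by_cases ha : a ∈ (L.W i).G
    · exact (hlf' ψ a ha).symm
    · conv_lhs => rw [hψ a]
      simp only [step]
      rw [if_neg ha]
      refine ext _ (hlf _) _ (hlf _) a ?_
      intro r hr
      have hG := (L.W i).sub a hr
      rw [hlf' _ r hG, hlf' _ r hG]
      rw [dif_pos (L.lt_of_prec ((L.prec_iff ha).2 hr))]
  refine ⟨ψ, ?_, h1⟩
  rw [h2]; exact hlf ψ

/-- target algebra (only its homs from `F` matter) -/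
structure Tgt (B : Type) where
  H : Bool → Set (F → B)
  lift : ∀ i, ∀ f : F → B, ∃ g ∈ H i, ∀ a ∈ (L.W i).G, g a = f a
  ext : ∀ i, ∀ f ∈ H i, ∀ g ∈ H i, ∀ a, (∀ r ∈ (L.W i).supp a, f r = g r) → f a = g a

theorem Tgt.exists_joint {L : Layered F n} {B : Type} [Inhabited B] (T : L.Tgt B) (ν : ℕ → B) :
    ∃ ψ : F → B, (∀ i, ψ ∈ T.H i) ∧ ∀ j, ψ (L.var j) = ν j := by
  choose lf hlf hlf' using T.lift false
  obtain ⟨ψ, h1, h2⟩ := L.exists_rec true (T.H true) (T.lift true) (T.ext true)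
    (fun a f => if h : ∃ j, L.var j = a then ν h.choose else lf f a) (by
      intro a ha f g hfg
      by_cases h : ∃ j, L.var j = a
      · rw [dif_pos h, dif_pos h]
      · rw [dif_neg h, dif_neg h]
        have hF : a ∉ (L.W false).G := by
          rcases L.cases_layer' false a with h' | h' | h'
          · exact absurd h' h
          · exact h'
          · exact absurd ha h'
        refine T.ext false _ (hlf _) _ (hlf _) a ?_
        intro r hr
        have hG := (L.W false).sub a hr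
        rw [hlf' _ r hG, hlf' _ r hG]
        exact hfg r (L.lt_of_prec ((L.prec_iff hF).2 hr)))
  have h3 : ψ = lf ψ := by
    funext a
    by_cases ha : a ∈ (L.W false).G
    · exact (hlf' ψ a ha).symm
    · have h4 := h2 a (L.mem_other ha)
      have h5 : ¬ ∃ j, L.var j = a := by
        rintro ⟨j, rfl⟩
        exact ha (L.var_mem j _)
      simp only [dif_neg h5] at h4
      exact h4
  refine ⟨ψ, ?_, ?_⟩
  · intro i
    cases i
    · rw [h3]; exact hlf ψ
    · exact h1
  · intro j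
    have h4 := h2 (L.var j) (L.var_mem j _)
    have h5 : ∃ k, L.var k = L.var j := ⟨j, rfl⟩
    simp only [dif_pos h5] at h4
    rw [h4, L.inj h5.choose_spec]

theorem Tgt.congr {L : Layered F n} {B : Type} (T : L.Tgt B) {ψ ψ' : F → B}
    (h : ∀ i, ψ ∈ T.H i) (h' : ∀ i, ψ' ∈ T.H i) (a : F)
    (hv : ∀ j, L.occ j a → ψ (L.var j) = ψ' (L.var j)) : ψ a = ψ' a := by
  induction a using L.induct with
  | _ a ih =>
  rcases L.cases_layer a with ⟨j, rfl⟩ | ⟨i, hi⟩
  · exact hv j (L.le_refl _)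
  · refine T.ext i _ (h i) _ (h' i) a ?_
    intro r hr
    have hp := (L.prec_iff hi).2 hr
    exact ih r hp (fun j hj => hv j (L.le_trans hj (L.le_of_prec hp)))

/-- joint homs into `F` with conjugated structures -/
def PH (σ : Bool → Equiv.Perm F) (ψ : F → F) : Prop :=
  ∀ i, (fun x => (σ i) (ψ x)) ∈ (L.W i).Hom

def tgtP (σ : Bool → Equiv.Perm F) : L.Tgt F where
  H i := {ψ | (fun x => (σ i) (ψ x)) ∈ (L.W i).Hom}
  lift i f := by
    obtain ⟨g, hg, hg'⟩ := (L.W i).hlift (fun x => (σ i) (f x))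
    refine ⟨fun x => (σ i).symm (g x), ?_, ?_⟩
    · simpa using hg
    · intro a ha
      simp [hg' a ha]
  ext i f hf g hg a h := by
    have := (L.W i).hext _ hf _ hg a (by intro r hr; simp [h r hr])
    simpa using this

def tgtL : L.Tgt (ZMod n) where
  H i := (L.W i).Lin
  lift i f := (L.W i).llift f
  ext i f hf g hg a h := (L.W i).lext f hf g hg a h

/-- endomorphisms -/
def End (φ : F → F) : Prop := ∀ i, φ ∈ (L.W i).Hom

theorem End.ph {L : Layered F n} {φ : F → F} (h : L.End φ) : L.PH (fun _ => 1) φ := h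

theorem PH.endo {L : Layered F n} {φ : F → F} (h : L.PH (fun _ => 1) φ) : L.End φ := h

/-- joint linear maps -/
def LinJ (l : F → ZMod n) : Prop := ∀ i, l ∈ (L.W i).Lin

theorem exists_ph (σ : Bool → Equiv.Perm F) (ν : ℕ → F) :
    ∃ ψ, L.PH σ ψ ∧ ∀ j, ψ (L.var j) = ν j := by
  haveI : Inhabited F := ⟨L.var 0⟩
  exact (L.tgtP σ).exists_joint ν

theorem exists_lin (c : ℕ → ZMod n) :
    ∃ l, L.LinJ l ∧ ∀ j, l (L.var j) = c j := by
  exact L.tgtL.exists_joint c

theorem PH.congr {L : Layered F n} {σ : Bool → Equiv.Perm F} {ψ ψ' : F → F} (h : L.PH σ ψ)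
    (h' : L.PH σ ψ') (a : F)
    (hv : ∀ j, L.occ j a → ψ (L.var j) = ψ' (L.var j)) : ψ a = ψ' a :=
  (L.tgtP σ).congr h h' a hv

theorem End.congr {L : Layered F n} {ψ ψ' : F → F} (h : L.End ψ)
    (h' : L.End ψ') (a : F)
    (hv : ∀ j, L.occ j a → ψ (L.var j) = ψ' (L.var j)) : ψ a = ψ' a :=
  PH.congr h.ph h'.ph a hv

theorem LinJ.congr {L : Layered F n} {ψ ψ' : F → ZMod n} (h : L.LinJ ψ)
    (h' : L.LinJ ψ') (a : F)
    (hv : ∀ j, L.occ j a → ψ (L.var j) = ψ' (L.var j)) : ψ a = ψ' a :=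
  L.tgtL.congr h h' a hv

theorem end_id : L.End (fun x => x) := fun i => (L.W i).hid

theorem End.comp {L : Layered F n} {φ φ' : F → F} (h : L.End φ) (h' : L.End φ') :
    L.End (fun x => φ (φ' x)) := fun i => (L.W i).hcomp _ (h i) _ (h' i)

theorem PH.comp {L : Layered F n} {σ : Bool → Equiv.Perm F} {ψ φ : F → F} (h : L.PH σ ψ)
    (h' : L.End φ) : L.PH σ (fun x => ψ (φ x)) := fun i => (L.W i).hcomp _ (h i) _ (h' i)

theorem LinJ.comp {L : Layered F n} {l : F → ZMod n} {φ : F → F} (h : L.LinJ l)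
    (h' : L.End φ) : L.LinJ (fun x => l (φ x)) := fun i => (L.W i).lcomp _ (h i) _ (h' i)

theorem End.comp_ph {L : Layered F n} {σ : Bool → Equiv.Perm F} {β ψ : F → F} (hβ : L.End β)
    (hσ : ∀ i x, β ((σ i) x) = β x) (h : L.PH σ ψ) : L.End (fun x => β (ψ x)) := by
  intro i
  have := (L.W i).hcomp _ (hβ i) _ (h i)
  simpa [hσ] using this

/-- the endomorphism with given values on variables -/
noncomputable def sub (ν : ℕ → F) : F → F := (L.exists_ph (fun _ => 1) ν).choose

theorem sub_end (ν : ℕ → F) : L.End (L.sub ν) := (L.exists_ph (fun _ => 1) ν).choose_spec.1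

@[simp] theorem sub_var (ν : ℕ → F) (j : ℕ) : L.sub ν (L.var j) = ν j :=
  (L.exists_ph (fun _ => 1) ν).choose_spec.2 j

noncomputable def psub (σ : Bool → Equiv.Perm F) (ν : ℕ → F) : F → F := (L.exists_ph σ ν).choose

theorem psub_ph (σ : Bool → Equiv.Perm F) (ν : ℕ → F) : L.PH σ (L.psub σ ν) :=
  (L.exists_ph σ ν).choose_spec.1

@[simp] theorem psub_var (σ : Bool → Equiv.Perm F) (ν : ℕ → F) (j : ℕ) :
    L.psub σ ν (L.var j) = ν j :=
  (L.exists_ph σ ν).choose_spec.2 j

theorem sub_id' {φ : F → F} (h : L.End φ) (a : F) (hv : ∀ j, L.occ j a → φ (L.var j) = L.var j) :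
    φ a = a := h.congr L.end_id a hv

/-- (V1) -/
theorem occ_end {φ : F → F} (h : L.End φ) {j : ℕ} {a : F} (ho : L.occ j (φ a)) :
    ∃ l, L.occ l a ∧ L.occ j (φ (L.var l)) := by
  induction a using L.induct with
  | _ a ih =>
  rcases L.cases_layer a with ⟨l, rfl⟩ | ⟨i, hi⟩
  · exact ⟨l, L.le_refl _, ho⟩
  · obtain ⟨r, hr, hor⟩ := (L.occ_iff i j _).1 ho
    have := (L.W i).hsupp φ (h i) a hr
    simp only [Set.mem_iUnion] at this
    obtain ⟨s, hs, hrs⟩ := this
    have hp := (L.prec_iff hi).2 hs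
    obtain ⟨l, h1, h2⟩ := ih s hp ((L.occ_iff i j _).2 ⟨r, hrs, hor⟩)
    exact ⟨l, L.le_trans h1 (L.le_of_prec hp), h2⟩

theorem occ_le {j : ℕ} {r a : F} (h : L.occ j r) (h' : L.le r a) : L.occ j a := L.le_trans h h'

end Layered

end Pool.Agent.Helper470.Dim
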