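import Pool.Agent.Helper470.Dim.Lay

set_option autoImplicit false

namespace Pool.Agent.Helper470.Dim

open Classical

namespace Layered

variable {F : Type} {n : ℕ} (L : Layered F n)

/-- conjugate world `i` by the transposition of `e` and `var b` -/
noncomputable def Sg (i : Bool) (e : F) (b : ℕ) : Bool → Equiv.Perm F :=
  fun k => if k = i then Equiv.swap e (L.var b) else 1

theorem PH.conj {L : Layered F n} {i : Bool} {e : F} {b : ℕ} {ψ : F → F}
    (h : L.PH (L.Sg i e b) ψ) : (fun x => Equiv.swap e (L.var b) (ψ x)) ∈ (L.W i).Hom := by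
  have := h i
  simpa [Sg] using this

theorem PH.oth {L : Layered F n} {i : Bool} {e : F} {b : ℕ} {ψ : F → F}
    (h : L.PH (L.Sg i e b) ψ) : ψ ∈ (L.W (!i)).Hom := by
  have := h (!i)
  simpa [Sg] using this

theorem eq_swap {e x y : F} {b : ℕ} (h : Equiv.swap e (L.var b) y = x) :
    y = Equiv.swap e (L.var b) x := by
  have h1 := congrArg (fun p : Equiv.Perm F => p y) (Equiv.swap_mul_self e (L.var b))
  simp only [Equiv.Perm.mul_apply, Equiv.Perm.one_apply] at h1
  rw [← h, h1]

theorem swap_ne {e x : F} {b : ℕ} (h1 : x ≠ e) (h2 : x ≠ L.var b) :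
    Equiv.swap e (L.var b) x = x := Equiv.swap_apply_of_ne_of_ne h1 h2

/-- substitute `e` for `var b` -/
noncomputable def bt (e : F) (b : ℕ) : F → F := L.sub (Function.update L.var b e)

theorem bt_end (e : F) (b : ℕ) : L.End (L.bt e b) := L.sub_end _

theorem bt_b (e : F) (b : ℕ) : L.bt e b (L.var b) = e := by simp [bt]

theorem bt_var {e : F} {b j : ℕ} (h : j ≠ b) : L.bt e b (L.var j) = L.var j := by
  simp [bt, h]

theorem bt_free {e : F} {b : ℕ} {a : F} (h : ¬ L.occ b a) : L.bt e b a = a := by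
  refine L.sub_id' (L.bt_end e b) a ?_
  intro j hj
  refine L.bt_var ?_
  rintro rfl
  exact h hj

theorem bt_swap {e : F} {b : ℕ} (he : ¬ L.occ b e) (x : F) :
    L.bt e b (Equiv.swap e (L.var b) x) = L.bt e b x := by
  rw [Equiv.swap_apply_def]
  split_ifs with h1 h2
  · rw [L.bt_b, h1, L.bt_free he]
  · rw [h2, L.bt_b, L.bt_free he]
  · rfl

theorem bt_comp_end {i : Bool} {e : F} {b : ℕ} (he : ¬ L.occ b e) {ψ : F → F}
    (h : L.PH (L.Sg i e b) ψ) : L.End (fun x => L.bt e b (ψ x)) := by
  refine (L.bt_end e b).comp_ph ?_ h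
  intro k x
  by_cases hk : k = i
  · simp only [Sg, hk, if_true]; exact L.bt_swap he x
  · simp [Sg, hk]

noncomputable def theta (i : Bool) (e : F) (b : ℕ) : F → F := L.psub (L.Sg i e b) L.var

theorem theta_ph (i : Bool) (e : F) (b : ℕ) : L.PH (L.Sg i e b) (L.theta i e b) := L.psub_ph _ _

@[simp] theorem theta_var (i : Bool) (e : F) (b j : ℕ) : L.theta i e b (L.var j) = L.var j :=
  L.psub_var _ _ _

theorem bt_theta {i : Bool} {e : F} {b : ℕ} (he : ¬ L.occ b e) (a : F) :
    L.bt e b (L.theta i e b a) = L.bt e b a := by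
  refine (L.bt_comp_end he (L.theta_ph i e b)).congr (L.bt_end e b) a ?_
  intro j _
  simp

theorem bt_theta_free {i : Bool} {e : F} {b : ℕ} (he : ¬ L.occ b e) {a : F} (ha : ¬ L.occ b a) :
    L.bt e b (L.theta i e b a) = a := by
  rw [L.bt_theta he, L.bt_free ha]

theorem theta_ne_of_ne {i : Bool} {e : F} {b : ℕ} (he : ¬ L.occ b e) {a : F} (ha : ¬ L.occ b a)
    (hne : a ≠ e) : L.theta i e b a ≠ e ∧ L.theta i e b a ≠ L.var b := by
  constructor
  · intro h
    apply hne
    rw [← L.bt_theta_free (i := i) he ha, h, L.bt_free he]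
  · intro h
    apply hne
    rw [← L.bt_theta_free (i := i) he ha, h, L.bt_b]

theorem theta_swap_of_ne {i : Bool} {e : F} {b : ℕ} (he : ¬ L.occ b e) {a : F} (ha : ¬ L.occ b a)
    (hne : a ≠ e) : Equiv.swap e (L.var b) (L.theta i e b a) = L.theta i e b a := by
  obtain ⟨h1, h2⟩ := L.theta_ne_of_ne (i := i) he ha hne
  exact L.swap_ne h1 h2

theorem free_of_prec {b : ℕ} {r a : F} (ha : ¬ L.occ b a) (h : L.prec r a) : ¬ L.occ b r :=
  fun h' => ha (L.occ_le h' (L.le_of_prec h))

theorem free_of_le {b : ℕ} {r a : F} (ha : ¬ L.occ b a) (h : L.le r a) : ¬ L.occ b r :=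
  fun h' => ha (L.occ_le h' h)

/-- (B1) -/
theorem theta_of_not_le {i : Bool} {e : F} {b : ℕ} {a : F} (ha : ¬ L.occ b a)
    (hle : ¬ L.le e a) : L.theta i e b a = a := by
  induction a using L.induct with
  | _ a ih =>
  rcases L.cases_layer' i a with ⟨j, rfl⟩ | hi | hi
  · simp
  · have hne : a ≠ e := fun h => hle (h ▸ L.le_refl _)
    have hb : a ≠ L.var b := fun h => ha (h ▸ L.le_refl _)
    have h1 : Equiv.swap e (L.var b) (L.theta i e b a) = a := by
      refine (L.W i).hext _ (L.theta_ph i e b).conj _ (L.W i).hid a ?_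
      intro r hr
      have hp := (L.prec_iff hi).2 hr
      have hrb := L.free_of_prec ha hp
      have hre : ¬ L.le e r := fun h => hle (L.le_trans h (L.le_of_prec hp))
      show Equiv.swap e (L.var b) (L.theta i e b r) = r
      rw [ih r hp hrb hre]
      exact L.swap_ne (fun h => hre (h ▸ L.le_refl _)) (fun h => hrb (h ▸ L.le_refl _))
    have h2 : L.theta i e b a = Equiv.swap e (L.var b) a := L.eq_swap h1
    rw [h2]
    exact L.swap_ne hne hb
  · refine (L.W (!i)).hext _ (L.theta_ph i e b).oth _ (L.W (!i)).hid a ?_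
    intro r hr
    have hp := (L.prec_iff hi).2 hr
    exact ih r hp (L.free_of_prec ha hp) (fun h => hle (L.le_trans h (L.le_of_prec hp)))

theorem theta_sub_e {i : Bool} {e : F} {b : ℕ} (he : ¬ L.occ b e) {r : F} (hp : L.prec r e) :
    L.theta i e b r = r := by
  refine L.theta_of_not_le (L.free_of_prec he hp) ?_
  intro h
  exact L.lt_irrefl e (L.lt_of_le_prec h hp)

theorem theta_e_out {i : Bool} {e : F} {b : ℕ} (he : ¬ L.occ b e) (hi : e ∉ (L.W i).G) :
    L.theta i e b e = L.var b := by
  have h1 : Equiv.swap e (L.var b) (L.theta i e b e) = e := by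
    refine (L.W i).hext _ (L.theta_ph i e b).conj _ (L.W i).hid e ?_
    intro r hr
    have hp := (L.prec_iff hi).2 hr
    show Equiv.swap e (L.var b) (L.theta i e b r) = r
    rw [L.theta_sub_e he hp]
    refine L.swap_ne ?_ ?_
    · rintro rfl
      exact L.lt_irrefl _ (L.lt_of_prec hp)
    · rintro rfl
      exact he (L.le_of_prec hp)
  have h2 : L.theta i e b e = Equiv.swap e (L.var b) e := L.eq_swap h1
  rw [h2]; simp

theorem theta_e_in {i : Bool} {e : F} {b : ℕ} (he : ¬ L.occ b e) (hi : e ∈ (L.W i).G) :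
    L.theta i e b e = e := by
  rcases L.cases_layer' i e with ⟨j, rfl⟩ | h | h
  · simp
  · exact absurd hi h
  · refine (L.W (!i)).hext _ (L.theta_ph i e b).oth _ (L.W (!i)).hid e ?_
    intro r hr
    exact L.theta_sub_e he ((L.prec_iff h).2 hr)

theorem theta_injOn {i : Bool} {e : F} {b : ℕ} (he : ¬ L.occ b e) :
    Set.InjOn (L.theta i e b) {a | ¬ L.occ b a} := by
  intro a ha a' ha' h
  rw [← L.bt_theta_free (i := i) he ha, h, L.bt_theta_free he ha']

/-- (B5) -/
theorem theta_struct {i : Bool} {e : F} {b : ℕ} (he : ¬ L.occ b e) {a : F} (ha : ¬ L.occ b a) :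
    (a ∉ (L.W (!i)).G → L.theta i e b a ∉ (L.W (!i)).G ∧
      (L.W (!i)).supp (L.theta i e b a) = L.theta i e b '' (L.W (!i)).supp a) ∧
    (a ∉ (L.W i).G → a ≠ e → L.theta i e b a ∉ (L.W i).G ∧
      (L.W i).supp (L.theta i e b a) =
        (fun x => Equiv.swap e (L.var b) (L.theta i e b x)) '' (L.W i).supp a) := by
  induction a using L.induct with
  | _ a ih =>
  constructor
  · intro hi
    have hG : ∀ r ∈ (L.W (!i)).supp a, L.theta i e b r ∈ (L.W (!i)).G := by
      intro r hr
      have hp := (L.prec_iff hi).2 hr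
      have hrb := L.free_of_prec ha hp
      rcases L.cases_layer' i r with ⟨j, rfl⟩ | h | h
      · simp [L.var_mem]
      · by_cases hre : r = e
        · subst hre
          rw [L.theta_e_out he h]; exact L.var_mem _ _
        · exact L.mem_other ((ih r hp hrb).2 h hre).1
      · exact absurd ((L.W (!i)).sub a hr) h
    have hinj : Set.InjOn (L.theta i e b) ((L.W (!i)).supp a) := by
      refine (L.theta_injOn he).mono ?_
      intro r hr
      exact L.free_of_prec ha ((L.prec_iff hi).2 hr)
    obtain ⟨h1, h2⟩ := (L.W (!i)).supp_map (L.theta_ph i e b).oth hinj hG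
    exact ⟨fun h => hi (h2 h), h1⟩
  · intro hi hne
    have hG : ∀ r ∈ (L.W i).supp a,
        (fun x => Equiv.swap e (L.var b) (L.theta i e b x)) r ∈ (L.W i).G := by
      intro r hr
      have hp := (L.prec_iff hi).2 hr
      have hrb := L.free_of_prec ha hp
      have hrG := (L.W i).sub a hr
      show Equiv.swap e (L.var b) (L.theta i e b r) ∈ (L.W i).G
      by_cases hre : r = e
      · subst hre
        rw [L.theta_e_in he hrG]
        simp [L.var_mem]
      · rw [L.theta_swap_of_ne he hrb hre]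
        rcases L.cases_layer' i r with ⟨j, rfl⟩ | h | h
        · simp [L.var_mem]
        · exact absurd hrG h
        · have := L.mem_other ((ih r hp hrb).1 h).1
          simpa using this
    have hinj : Set.InjOn (fun x => Equiv.swap e (L.var b) (L.theta i e b x))
        ((L.W i).supp a) := by
      intro x hx y hy hxy
      have h1 := (Equiv.swap e (L.var b)).injective hxy
      exact L.theta_injOn he (L.free_of_prec ha ((L.prec_iff hi).2 hx))
        (L.free_of_prec ha ((L.prec_iff hi).2 hy)) h1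
    obtain ⟨h1, h2⟩ := (L.W i).supp_map (L.theta_ph i e b).conj hinj hG
    have h3 := L.theta_swap_of_ne (i := i) he ha hne
    simp only [h3] at h1 h2
    exact ⟨fun h => hi (h2 h), h1⟩

/-- (B4) -/
theorem occ_theta {i : Bool} {e : F} {b : ℕ} (he : ¬ L.occ b e) (hev : ∀ j, L.var j ≠ e)
    {a : F} (ha : ¬ L.occ b a) (hle : L.le e a) (hh : a ≠ e ∨ e ∉ (L.W i).G) :
    L.occ b (L.theta i e b a) := by
  induction a using L.induct with
  | _ a ih =>
  by_cases hae : a = e
  · subst hae
    rcases hh with hh | hh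
    · exact absurd rfl hh
    · rw [L.theta_e_out he hh]; exact L.le_refl _
  rcases L.le_cases.1 hle with h | ⟨r, hp, hr⟩
  · exact absurd h.symm hae
  have hrb := L.free_of_prec ha hp
  obtain ⟨k, hk, hrk⟩ := hp
  have hp : L.prec r a := ⟨k, hk, hrk⟩
  by_cases hki : k = i
  · subst hki
    obtain ⟨h1, h2⟩ := (L.theta_struct (i := k) he ha).2 hk hae
    have h3 : Equiv.swap e (L.var b) (L.theta k e b r) ∈ (L.W k).supp (L.theta k e b a) := by
      rw [h2]; exact ⟨r, hrk, rfl⟩
    have h4 : L.prec _ _ := (L.prec_iff h1).2 h3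
    refine L.le_trans ?_ (L.le_of_prec h4)
    by_cases hre : r = e
    · subst hre
      rw [L.theta_e_in he ((L.W k).sub _ hrk)]
      simp [L.le_refl]
    · rw [L.theta_swap_of_ne he hrb hre]
      exact ih r hp hrb hr (Or.inl hre)
  · have hki' : k = !i := by cases i <;> cases k <;> simp_all
    subst hki'
    obtain ⟨h1, h2⟩ := (L.theta_struct (i := i) he ha).1 hk
    have h3 : L.theta i e b r ∈ (L.W (!i)).supp (L.theta i e b a) := by
      rw [h2]; exact ⟨r, hrk, rfl⟩
    have h4 : L.prec _ _ := (L.prec_iff h1).2 h3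
    refine L.le_trans ?_ (L.le_of_prec h4)
    refine ih r hp hrb hr ?_
    by_cases hre : r = e
    · subst hre
      right
      intro hG
      rcases L.cases_layer' i r with ⟨j, hj⟩ | h | h
      · exact hev j hj
      · exact h hG
      · exact h ((L.W (!i)).sub _ hrk)
    · exact Or.inl hre

/-- (L0) -/
theorem no_change {i : Bool} {e : F} {b : ℕ} {φ ψ : F → F} (hφ : L.End φ)
    (hψ : L.PH (L.Sg i e b) ψ) (a : F) (hv : ∀ j, L.occ j a → ψ (L.var j) = φ (L.var j))
    (hn : ∀ s, L.le s a → φ s ≠ e ∧ φ s ≠ L.var b) : ψ a = φ a := by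
  induction a using L.induct with
  | _ a ih =>
  have ih' : ∀ r, L.prec r a → ψ r = φ r := fun r hp =>
    ih r hp (fun j hj => hv j (L.occ_le hj (L.le_of_prec hp)))
      (fun s hs => hn s (L.le_trans hs (L.le_of_prec hp)))
  rcases L.cases_layer' i a with ⟨j, rfl⟩ | hi | hi
  · exact hv j (L.le_refl _)
  · have h1 : Equiv.swap e (L.var b) (ψ a) = φ a := by
      refine (L.W i).hext _ hψ.conj _ (hφ i) a ?_
      intro r hr
      have hp := (L.prec_iff hi).2 hr
      obtain ⟨h1, h2⟩ := hn r (L.le_of_prec hp)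
      show Equiv.swap e (L.var b) (ψ r) = φ r
      rw [ih' r hp]
      exact L.swap_ne h1 h2
    obtain ⟨h2, h3⟩ := hn a (L.le_refl _)
    have h4 : ψ a = Equiv.swap e (L.var b) (φ a) := L.eq_swap h1
    rw [h4]; exact L.swap_ne h2 h3
  · refine (L.W (!i)).hext _ hψ.oth _ (hφ _) a ?_
    intro r hr
    exact ih' r ((L.prec_iff hi).2 hr)

/-- (L) -/
theorem one_change {i : Bool} {e e' : F} {b : ℕ} {φ ψ : F → F} (hφ : L.End φ)
    (hφe : φ e' = e) (he' : ¬ L.occ b e') (hφb : φ (L.var b) = L.var b)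
    (hφv : ∀ j, j ≠ b → ¬ L.occ b (φ (L.var j)))
    (hψ : L.PH (L.Sg i e b) ψ) (a : F) (ha : ¬ L.occ b a)
    (hv : ∀ j, L.occ j a → ψ (L.var j) = φ (L.var j))
    (hn : ∀ s, L.le s a → φ s = e → s = e') : ψ a = φ (L.theta i e' b a) := by
  have he : ¬ L.occ b e := by
    rw [← hφe]
    intro h
    obtain ⟨l, h1, h2⟩ := L.occ_end hφ h
    by_cases hl : l = b
    · subst hl; exact he' h1
    · exact hφv l hl h2
  have hcomm : ∀ x, L.bt e b (φ x) = φ (L.bt e' b x) := by
    intro x
    refine ((L.bt_end e b).comp hφ).congr (hφ.comp (L.bt_end e' b)) x ?_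
    intro j _
    by_cases hj : j = b
    · subst hj
      show L.bt e j (φ (L.var j)) = φ (L.bt e' j (L.var j))
      rw [hφb, L.bt_b, L.bt_b, hφe]
    · show L.bt e b (φ (L.var j)) = φ (L.bt e' b (L.var j))
      rw [L.bt_var hj, L.bt_free (hφv j hj)]
  have key : ∀ r, L.le r a → r ≠ e' →
      φ (L.theta i e' b r) ≠ e ∧ φ (L.theta i e' b r) ≠ L.var b := by
    intro r hr hne
    have hrb := L.free_of_le ha hr
    have h0 : L.bt e b (φ (L.theta i e' b r)) = φ r := by
      rw [hcomm, L.bt_theta_free he' hrb]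
    constructor
    · intro h
      rw [h, L.bt_free he] at h0
      exact hne (hn r hr h0.symm)
    · intro h
      rw [h, L.bt_b] at h0
      exact hne (hn r hr h0.symm)
  suffices H : ∀ s, L.le s a → ψ s = φ (L.theta i e' b s) from H a (L.le_refl _)
  intro s
  induction s using L.induct with
  | _ s ih =>
  intro hs
  have ih' : ∀ r, L.prec r s → ψ r = φ (L.theta i e' b r) := fun r hp =>
    ih r hp (L.le_trans (L.le_of_prec hp) hs)
  rcases L.cases_layer' i s with ⟨j, rfl⟩ | hi | hi
  · simpa using hv j hs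
  · have h1 : Equiv.swap e (L.var b) (ψ s) =
        φ (Equiv.swap e' (L.var b) (L.theta i e' b s)) := by
      refine (L.W i).hext _ hψ.conj _ ((L.W i).hcomp _ (hφ i) _ (L.theta_ph i e' b).conj) s ?_
      intro r hr
      have hp := (L.prec_iff hi).2 hr
      have hra := L.le_trans (L.le_of_prec hp) hs
      have hrb := L.free_of_le ha hra
      show Equiv.swap e (L.var b) (ψ r) = φ (Equiv.swap e' (L.var b) (L.theta i e' b r))
      rw [ih' r hp]
      by_cases hre : r = e'
      · subst hre
        rw [L.theta_e_in he' ((L.W i).sub _ hr), hφe]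
        simp [hφb]
      · rw [L.theta_swap_of_ne he' hrb hre]
        obtain ⟨h2, h3⟩ := key r hra hre
        exact L.swap_ne h2 h3
    by_cases hse : s = e'
    · subst hse
      rw [L.theta_e_out he' hi] at h1 ⊢
      rw [Equiv.swap_apply_right, hφe] at h1
      rw [hφb]
      have h4 : ψ s = Equiv.swap e (L.var b) e := L.eq_swap h1
      rw [h4]; simp
    · rw [L.theta_swap_of_ne he' (L.free_of_le ha hs) hse] at h1
      obtain ⟨h2, h3⟩ := key s hs hse
      have h4 : ψ s = Equiv.swap e (L.var b) (φ (L.theta i e' b s)) := L.eq_swap h1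
      rw [h4]; exact L.swap_ne h2 h3
  · refine (L.W (!i)).hext _ hψ.oth _
      ((L.W (!i)).hcomp _ (hφ _) _ (L.theta_ph i e' b).oth) s ?_
    intro r hr
    exact ih' r ((L.prec_iff hi).2 hr)

end Layered

end Pool.Agent.Helper470.Dim
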