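import Mathlib

set_option autoImplicit false

namespace Pool.Agent.Helper470.Dim

/-- What the core argument needs to know about an algebra `F` that is free (in a theory `T`
possessing a linear model on `ZMod n`) on the subset `G`.  `Hom` are the `T`-endomorphisms of `F`,
`Lin` the `T`-homomorphisms from `F` to the linear model on `ZMod n`, `supp a` is a finite set of
free generators on which `a` depends. -/
structure World (F : Type) (n : ℕ) where
  G : Set F
  Hom : Set (F → F)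
  Lin : Set (F → ZMod n)
  supp : F → Set F
  fin : ∀ a, (supp a).Finite
  sub : ∀ a, supp a ⊆ G
  gen : ∀ a ∈ G, supp a = {a}
  hid : (fun x => x) ∈ Hom
  hcomp : ∀ f ∈ Hom, ∀ g ∈ Hom, (fun x => f (g x)) ∈ Hom
  hlift : ∀ f : F → F, ∃ g ∈ Hom, ∀ a ∈ G, g a = f a
  hext : ∀ f ∈ Hom, ∀ g ∈ Hom, ∀ a, (∀ r ∈ supp a, f r = g r) → f a = g a
  hsupp : ∀ f ∈ Hom, ∀ a, supp (f a) ⊆ ⋃ r ∈ supp a, supp (f r)
  lcomp : ∀ f ∈ Lin, ∀ g ∈ Hom, (fun x => f (g x)) ∈ Lin
  lzero : (fun _ => 0) ∈ Lin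
  ladd : ∀ f ∈ Lin, ∀ g ∈ Lin, (fun x => f x + g x) ∈ Lin
  lsmul : ∀ c : ZMod n, ∀ f ∈ Lin, (fun x => c * f x) ∈ Lin
  llift : ∀ f : F → ZMod n, ∃ g ∈ Lin, ∀ a ∈ G, g a = f a
  lext : ∀ f ∈ Lin, ∀ g ∈ Lin, ∀ a, (∀ r ∈ supp a, f r = g r) → f a = g a

/-- Layered free algebra of two disjoint theories: `F` is free on `(W i).G` for the `i`-th theory,
the two generating sets cover `F`, they meet exactly in the variables, and taking supports is well
founded. -/
structure Layered (F : Type) (n : ℕ) where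
  W : Bool → World F n
  var : ℕ → F
  inj : Function.Injective var
  cover : ∀ a i, a ∉ (W i).G → a ∈ (W (!i)).G
  vars : ∀ a, (∀ i, a ∈ (W i).G) ↔ a ∈ Set.range var
  wf : WellFounded (fun r a : F => ∃ i, a ∉ (W i).G ∧ r ∈ (W i).supp a)

/-- `S` is the `(n+1)`-ary sum of an abelian group of exponent dividing `n`. -/
def IsAff {A : Type} (n : ℕ) (S : (Fin (n + 1) → A) → A) : Prop :=
  ∃ _ : AddCommGroup A, (∀ x : A, n • x = 0) ∧ ∀ a, S a = ∑ i, a i

/-- An `(n+1)`-ary operation with one parameter, given by an element `q` in the variables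
`var 0, ..., var n` and the parameter `var (n+1)`, satisfies the affine identities in world `i`. -/
def Out {F : Type} {n : ℕ} (L : Layered F n) (i : Bool) : Prop :=
  ∃ q : F,
    (∀ κ ∈ (L.W i).Hom, (∀ j ≤ n, κ (L.var j) = L.var j) → κ (L.var (n+1)) = L.var (n+1) →
      κ q = q) ∧
    (∀ τ : Equiv.Perm (Fin (n + 1)), ∀ κ ∈ (L.W i).Hom,
      (∀ j : Fin (n + 1), κ (L.var j) = L.var (τ j)) → κ (L.var (n+1)) = L.var (n+1) →
      κ q = q) ∧
    (∀ κ ∈ (L.W i).Hom, κ (L.var 0) = L.var 0 → (∀ j, 1 ≤ j → j ≤ n → κ (L.var j) = L.var (n+2)) →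
      κ (L.var (n+1)) = L.var (n+1) → κ q = L.var 0) ∧
    (∀ κ ∈ (L.W i).Hom, ∀ κu ∈ (L.W i).Hom, ∀ κv ∈ (L.W i).Hom,
      (∀ j < n, κu (L.var j) = L.var j) → κu (L.var n) = L.var (n+2) →
      κu (L.var (n+1)) = L.var (n+1) →
      (∀ j < n, κv (L.var j) = L.var j) → κv (L.var n) = L.var (n+3) →
      κv (L.var (n+1)) = L.var (n+1) →
      κ (L.var 0) = κu q → (∀ j, 1 ≤ j → j < n → κ (L.var j) = L.var (n+2)) →
      κ (L.var n) = L.var (n+3) → κ (L.var (n+1)) = L.var (n+1) →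
      κ q = κv q)

/-- Statement of the core theorem. -/
def CoreStatement : Prop :=
  ∀ (F : Type) (n : ℕ), 2 ≤ n → ∀ (L : Layered F n) (P : F),
    (∀ σ : Bool → Equiv.Perm F, ∃ S : F → (Fin (n + 1) → F) → F,
      (∀ β, IsAff n (S β)) ∧
      ∀ ψ : F → F, (∀ i, (fun x => (σ i) (ψ x)) ∈ (L.W i).Hom) →
         ψ P = S (ψ (L.var (n+1))) (fun j => ψ (L.var j))) →
    ∃ i : Bool, Out L i

end Pool.Agent.Helper470.Dim
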